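import Pool.Agent.FBT.Lift

/-!
# FBT/Affn: two torus charts over the same point: the change is affine

PROOF PLAN.  `S = {z | C.Φ (y, z) = C'.Φ (y', z0' + A (z - z0))}` contains `z0` and is closed (`X` is Hausdorff, both sides
are continuous in `z`: `tc_hol`).  Open: let `z1 ∈ S`, `z1' = z0' + A (z1 - z0)`; `tc_lift` at `(y, z1), (y', z1')` gives `ψ`; for
`z` in a ball around `z1`, `(ψ (y, z)).1 = y'` (`hyy`, `C'.sub`), `w z := (ψ (y, z)).2` satisfies
`C'.Φ (y', w z) = C.Φ (y, z)`, and by `hA`, the chain rule in `tc_lift` and injectivity of `dvec E C'.Φ` (`tc_bij`) the derivative of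
`w` at `z` is `A`; so `w z = z1' + A (z - z1)` on the ball (`Convex.is_const_of_fderivWithin_eq_zero` for the difference,
or the mean value inequality), that is `w z = z0' + A (z - z0)`.  `ℂᵏ` is connected: `S = univ`
(`IsClopen.eq_univ`).
-/

set_option autoImplicit false

noncomputable section

open scoped Manifold ContDiff Topology

namespace Pool.Agent.FBT

open Pool.Agent.FBR

universe u

variable {E X F B : Type u} [NormedAddCommGroup E] [NormedSpace ℂ E] [FiniteDimensional ℂ E]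
  [TopologicalSpace X] [T2Space X] [ChartedSpace E X] [IsManifold 𝓘(ℂ, E) ω X]
  [NormedAddCommGroup F] [NormedSpace ℂ F] [FiniteDimensional ℂ F] [TopologicalSpace B]
  [ChartedSpace F B] [IsManifold 𝓘(ℂ, F) ω B] {π : X → B} {k : ℕ} {b₀ b₀' : B}

/-- near a point of `S` the lift is affine -/
private theorem Affn_loc (C : TorusChart E F π k b₀) (C' : TorusChart E F π k b₀') {y y' : F}
    (hy : y ∈ C.V) (hy' : y' ∈ C'.V) (hyy : (chartAt F b₀).symm y = (chartAt F b₀').symm y')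
    {A : (Fin k → ℂ) →L[ℂ] (Fin k → ℂ)}
    (hA : ∀ z z' : Fin k → ℂ, C.Φ (y, z) = C'.Φ (y', z') → ∀ ξ : Fin k → ℂ,
      dvec E C.Φ (y, z) (0, ξ) = dvec E C'.Φ (y', z') (0, A ξ))
    {z1 z1' : Fin k → ℂ} (h1 : C.Φ (y, z1) = C'.Φ (y', z1')) :
    ∀ᶠ z in 𝓝 z1, C.Φ (y, z) = C'.Φ (y', z1' + A (z - z1)) := by
  obtain ⟨O, ψ, hO, hqO, hψ, hall⟩ := tc_lift C C' (q := (y, z1)) (q' := (y', z1')) hy hy' h1
  have hc : Continuous (fun z : Fin k → ℂ => (y, z)) := by fun_prop
  have hev : ∀ᶠ z in 𝓝 z1, (y, z) ∈ O := hc.continuousAt.eventually (hO.mem_nhds hqO)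
  obtain ⟨ε, hε, hball⟩ := Metric.eventually_nhds_iff_ball.1 hev
  -- the first component
  have hfst : ∀ z, (y, z) ∈ O → ψ (y, z) = (y', (ψ (y, z)).2) := by
    intro z hz
    refine Prod.ext ?_ rfl
    rw [(hall _ hz).2.2.2.2.1]
    show chartAt F b₀' ((chartAt F b₀).symm y) = y'
    rw [hyy]
    exact (chartAt F b₀').right_inv (C'.sub hy')
  have hΦ : ∀ z, (y, z) ∈ O → C'.Φ (y', (ψ (y, z)).2) = C.Φ (y, z) := by
    intro z hz
    rw [← hfst z hz]
    exact (hall _ hz).2.2.1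
  -- the derivative
  have hder : ∀ z, (y, z) ∈ O → HasFDerivAt (fun z => (ψ (y, z)).2) (A.restrictScalars ℝ) z := by
    intro z hz
    have hd : DifferentiableAt ℝ ψ (y, z) :=
      (((hall _ hz).2.2.2.1).differentiableAt (by simp)).restrictScalars ℝ
    have hin : HasFDerivAt (fun z : Fin k → ℂ => (y, z)) (ContinuousLinearMap.inr ℝ F (Fin k → ℂ)) z :=
      hasFDerivAt_prodMk_right y z
    have h2 : HasFDerivAt (fun z => (ψ (y, z)).2)
        ((ContinuousLinearMap.snd ℝ F (Fin k → ℂ)).comp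
          ((fderiv ℝ ψ (y, z)).comp (ContinuousLinearMap.inr ℝ F (Fin k → ℂ)))) z :=
      (ContinuousLinearMap.snd ℝ F (Fin k → ℂ)).hasFDerivAt.comp z (hd.hasFDerivAt.comp z hin)
    have h3 : (ContinuousLinearMap.snd ℝ F (Fin k → ℂ)).comp
          ((fderiv ℝ ψ (y, z)).comp (ContinuousLinearMap.inr ℝ F (Fin k → ℂ))) = A.restrictScalars ℝ := by
      ext1 ξ
      have h4 := DFunLike.congr_fun (hall _ hz).2.2.2.2.2.1 ((0, ξ) : F × (Fin k → ℂ))
      have h5 := hA z (ψ (y, z)).2 (hΦ z hz).symm ξ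
      rw [h4, ContinuousLinearMap.comp_apply, hfst z hz] at h5
      have h6 := (tc_bij C' (q := (y', (ψ (y, z)).2)) hy').1 h5
      show (fderiv ℝ ψ (y, z) (0, ξ)).2 = A ξ
      rw [h6]
    rw [h3] at h2
    exact h2
  have hg : ∀ z, (y, z) ∈ O → HasFDerivAt (fun z => (ψ (y, z)).2 - A z) (0 : (Fin k → ℂ) →L[ℝ] (Fin k → ℂ)) z := by
    intro z hz
    have h2 := (hder z hz).sub (A.restrictScalars ℝ).hasFDerivAt
    rw [sub_self] at h2
    exact h2
  have hconst : ∀ z ∈ Metric.ball z1 ε, (ψ (y, z)).2 - A z = (ψ (y, z1)).2 - A z1 := by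
    intro z hz
    exact Metric.isOpen_ball.is_const_of_fderiv_eq_zero (𝕜 := ℝ) (f := fun z => (ψ (y, z)).2 - A z)
      (convex_ball z1 ε).isPreconnected
      (fun z hz => (hg z (hball z hz)).differentiableAt.differentiableWithinAt)
      (fun z hz => (hg z (hball z hz)).fderiv) hz (Metric.mem_ball_self hε)
  filter_upwards [Metric.ball_mem_nhds z1 hε] with z hz
  have h2 := hconst z hz
  rw [hψ] at h2
  have h3 : (ψ (y, z)).2 = z1' + A (z - z1) := by
    rw [map_sub]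
    have h4 : (ψ (y, z)).2 = z1' - A z1 + A z := by
      rw [← h2]
      abel
    rw [h4]
    abel
  rw [← h3]
  exact (hΦ z (hball z hz)).symm

theorem affn (C : TorusChart E F π k b₀) (C' : TorusChart E F π k b₀') {y y' : F}
    (hy : y ∈ C.V) (hy' : y' ∈ C'.V) (hyy : (chartAt F b₀).symm y = (chartAt F b₀').symm y')
    {A : (Fin k → ℂ) →L[ℂ] (Fin k → ℂ)}
    (hA : ∀ z z' : Fin k → ℂ, C.Φ (y, z) = C'.Φ (y', z') → ∀ ξ : Fin k → ℂ,
      dvec E C.Φ (y, z) (0, ξ) = dvec E C'.Φ (y', z') (0, A ξ))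
    {z0 z0' : Fin k → ℂ} (h0 : C.Φ (y, z0) = C'.Φ (y', z0')) (z : Fin k → ℂ) :
    C.Φ (y, z) = C'.Φ (y', z0' + A (z - z0)) := by
  have hcl : IsClosed {z : Fin k → ℂ | C.Φ (y, z) = C'.Φ (y', z0' + A (z - z0))} := by
    refine isClosed_eq ?_ ?_
    · rw [continuous_iff_continuousAt]
      intro z
      exact ContinuousAt.comp (f := fun z : Fin k → ℂ => (y, z)) (tc_hol C (q := (y, z)) hy).1
        (Continuous.continuousAt (by fun_prop))
    · rw [continuous_iff_continuousAt]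
      intro z
      exact ContinuousAt.comp (f := fun z : Fin k → ℂ => (y', z0' + A (z - z0)))
        (tc_hol C' (q := (y', z0' + A (z - z0))) hy').1
        (Continuous.continuousAt (by fun_prop))
  have hop : IsOpen {z : Fin k → ℂ | C.Φ (y, z) = C'.Φ (y', z0' + A (z - z0))} := by
    rw [isOpen_iff_mem_nhds]
    intro z1 hz1
    have h1 := Affn_loc C C' hy hy' hyy hA (z1 := z1) (z1' := z0' + A (z1 - z0)) hz1
    filter_upwards [h1] with z hz
    show C.Φ (y, z) = C'.Φ (y', z0' + A (z - z0))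
    rw [hz]
    congr 2
    rw [add_assoc, ← map_add]
    congr 2
    abel
  have hne : {z : Fin k → ℂ | C.Φ (y, z) = C'.Φ (y', z0' + A (z - z0))}.Nonempty := by
    refine ⟨z0, ?_⟩
    show C.Φ (y, z0) = C'.Φ (y', z0' + A (z0 - z0))
    rw [sub_self, map_zero, add_zero]
    exact h0
  have huniv := IsClopen.eq_univ ⟨hcl, hop⟩ hne
  have hz : z ∈ {z : Fin k → ℂ | C.Φ (y, z) = C'.Φ (y', z0' + A (z - z0))} := by
    rw [huniv]
    exact Set.mem_univ z
  exact hz

end Pool.Agent.FBT
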