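import Pool.Agent.FBT.Defs

/-!
# FBT/Par: integrals over the cube depending on a parameter

PROOF PLAN.  `integrableOn_cube`: the cube is contained in the compact `Set.Icc 0 1` (`Set.pi_univ_Icc`).
`par_hasFDerivAt`: `hasFDerivAt_integral_of_dominated_of_fderiv_le` on a neighbourhood of `q` on which
`(t, q') ↦ fderiv ℝ (g t) q'` is bounded for `t` in the compact cube (tube lemma:
`generalized_tube_lemma` or `IsCompact.exists_...`; the function is continuous at all points
of `Icc × {q}`).  `par_continuousOn`: `continuousOn_of_dominated` / `continuousAt_of_dominated`, same bound.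
`par_smooth`: induction on the order `n : ℕ` for all `H` in the universe `u` (`contDiffOn_succ_iff_fderiv_of_isOpen`,
`contDiffOn_infty`), the derivative is the integral of `fderiv ℝ (g t) q`, which is
smooth in `(t, q)` again: near `(t, q)` it is the partial derivative
`(fderiv ℝ (uncurried g) (t, q)).comp (ContinuousLinearMap.inr ..)`.
(In this module `G` and `H` live in the same universe, so that `G →L[ℝ] H` does.)
-/

set_option autoImplicit false

noncomputable section

open scoped ContDiff Topology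
open MeasureTheory

namespace Pool.Agent.FBT

universe u

variable {G H : Type u} [NormedAddCommGroup G] [NormedSpace ℝ G] [NormedAddCommGroup H]
  [NormedSpace ℝ H] [CompleteSpace H] {n : ℕ}

theorem measurableSet_cube : MeasurableSet (cube n) :=
  MeasurableSet.univ_pi fun _ => measurableSet_Ico

theorem volume_cube : volume (cube n) = 1 := by
  unfold cube
  rw [Real.volume_pi_Ico]
  simp

omit [NormedSpace ℝ H] [CompleteSpace H] in
theorem integrableOn_cube {f : (Fin n → ℝ) → H} (hf : Continuous f) : IntegrableOn f (cube n) := by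
  have h : IntegrableOn f (Set.Icc (0 : Fin n → ℝ) 1) :=
    hf.continuousOn.integrableOn_compact isCompact_Icc
  refine h.mono_set fun t ht => ?_
  exact ⟨fun i => (ht i (Set.mem_univ i)).1, fun i => (ht i (Set.mem_univ i)).2.le⟩

private theorem par_cube_sub : cube n ⊆ Set.Icc (0 : Fin n → ℝ) 1 := fun _ ht =>
  ⟨fun i => (ht i (Set.mem_univ i)).1, fun i => (ht i (Set.mem_univ i)).2.le⟩

omit [CompleteSpace H] in
/-- the partial derivative as a part of the total derivative -/
private theorem par_partial {U : Set G} (hU : IsOpen U) {g : (Fin n → ℝ) → G → H}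
    (hg : ContDiffOn ℝ ∞ (fun p : (Fin n → ℝ) × G => g p.1 p.2) (Set.univ ×ˢ U))
    {p : (Fin n → ℝ) × G} (hp : p ∈ (Set.univ : Set (Fin n → ℝ)) ×ˢ U) :
    HasFDerivAt (g p.1) ((fderiv ℝ (fun p : (Fin n → ℝ) × G => g p.1 p.2) p).comp
      (ContinuousLinearMap.inr ℝ (Fin n → ℝ) G)) p.2 := by
  have ho : IsOpen ((Set.univ : Set (Fin n → ℝ)) ×ˢ U) := isOpen_univ.prod hU
  have h1 : DifferentiableAt ℝ (fun p : (Fin n → ℝ) × G => g p.1 p.2) p :=
    ((hg.contDiffAt (ho.mem_nhds hp)).differentiableAt (by simp))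
  have h2 : HasFDerivAt (fun x : G => (p.1, x)) (ContinuousLinearMap.inr ℝ (Fin n → ℝ) G) p.2 :=
    hasFDerivAt_prodMk_right p.1 p.2
  exact HasFDerivAt.comp (g := fun p : (Fin n → ℝ) × G => g p.1 p.2) p.2 h1.hasFDerivAt h2

omit [CompleteSpace H] in
/-- the partial derivative is smooth -/
private theorem par_partial_smooth {U : Set G} (hU : IsOpen U) {g : (Fin n → ℝ) → G → H}
    (hg : ContDiffOn ℝ ∞ (fun p : (Fin n → ℝ) × G => g p.1 p.2) (Set.univ ×ˢ U)) :
    ContDiffOn ℝ ∞ (fun p : (Fin n → ℝ) × G => fderiv ℝ (g p.1) p.2) (Set.univ ×ˢ U) := by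
  have ho : IsOpen ((Set.univ : Set (Fin n → ℝ)) ×ˢ U) := isOpen_univ.prod hU
  have h1 : ContDiffOn ℝ ∞ (fderiv ℝ (fun p : (Fin n → ℝ) × G => g p.1 p.2)) (Set.univ ×ˢ U) :=
    hg.fderiv_of_isOpen ho (by simp)
  refine (h1.clm_comp (contDiffOn_const (c := ContinuousLinearMap.inr ℝ (Fin n → ℝ) G))).congr ?_
  intro p hp
  exact (par_partial hU hg hp).fderiv

omit [NormedSpace ℝ H] [CompleteSpace H] [NormedSpace ℝ G] in
/-- continuity in the first variable -/
private theorem par_cont {U : Set G} {g : (Fin n → ℝ) → G → H}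
    (hg : ContinuousOn (fun p : (Fin n → ℝ) × G => g p.1 p.2) (Set.univ ×ˢ U)) {q : G} (hq : q ∈ U) :
    Continuous fun t => g t q := by
  have h : ContinuousOn (fun t : Fin n → ℝ => g t q) Set.univ :=
    hg.comp (f := fun t : Fin n → ℝ => (t, q)) (by fun_prop) (fun t _ => ⟨Set.mem_univ _, hq⟩)
  exact continuousOn_univ.1 h

omit [NormedSpace ℝ H] [CompleteSpace H] [NormedSpace ℝ G] in
/-- a bound near `q`, uniform on the cube -/
private theorem par_bound {U : Set G} (hU : IsOpen U) {g : (Fin n → ℝ) → G → H}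
    (hg : ContinuousOn (fun p : (Fin n → ℝ) × G => g p.1 p.2) (Set.univ ×ˢ U)) {q : G} (hq : q ∈ U) :
    ∃ C : ℝ, ∀ᶠ x in 𝓝 q, ∀ t ∈ Set.Icc (0 : Fin n → ℝ) 1, ‖g t x‖ ≤ C := by
  have ho : IsOpen ((Set.univ : Set (Fin n → ℝ)) ×ˢ U) := isOpen_univ.prod hU
  obtain ⟨C, hC⟩ := (isCompact_Icc (a := (0 : Fin n → ℝ)) (b := 1)).exists_bound_of_continuousOn
    (par_cont hg hq).continuousOn
  refine ⟨C + 1, ?_⟩
  refine (isCompact_Icc (a := (0 : Fin n → ℝ)) (b := 1)).eventually_forall_of_forall_eventually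
    (P := fun x t => ‖g t x‖ ≤ C + 1) ?_
  intro t ht
  have h1 : ContinuousAt (fun p : (Fin n → ℝ) × G => g p.1 p.2) (t, q) :=
    hg.continuousAt (ho.mem_nhds ⟨Set.mem_univ _, hq⟩)
  have h2 : ContinuousAt (fun z : G × (Fin n → ℝ) => ‖g z.2 z.1‖) (q, t) := by
    have h3 : ContinuousAt (fun z : G × (Fin n → ℝ) => (z.2, z.1)) (q, t) :=
      continuous_swap.continuousAt
    exact (ContinuousAt.comp (g := fun p : (Fin n → ℝ) × G => g p.1 p.2)
      (f := fun z : G × (Fin n → ℝ) => (z.2, z.1)) (x := (q, t)) h1 h3).norm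
  have h4 : ‖g t q‖ < C + 1 := lt_of_le_of_lt (hC t ht) (lt_add_one C)
  exact (h2.eventually_lt continuousAt_const h4).mono fun z hz => hz.le

theorem par_hasFDerivAt {U : Set G} (hU : IsOpen U) {g : (Fin n → ℝ) → G → H}
    (hg : ContDiffOn ℝ ∞ (fun p : (Fin n → ℝ) × G => g p.1 p.2) (Set.univ ×ˢ U)) {q : G}
    (hq : q ∈ U) :
    HasFDerivAt (fun q => ∫ t in cube n, g t q) (∫ t in cube n, fderiv ℝ (g t) q) q := by
  have hg' := par_partial_smooth hU hg
  obtain ⟨C, hC⟩ := par_bound (g := fun t x => fderiv ℝ (g t) x) hU hg'.continuousOn hq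
  have hs : {x | x ∈ U ∧ ∀ t ∈ Set.Icc (0 : Fin n → ℝ) 1, ‖fderiv ℝ (g t) x‖ ≤ C} ∈ 𝓝 q :=
    Filter.Eventually.and (f := 𝓝 q) (p := fun x => x ∈ U) (hU.mem_nhds hq) hC
  have hfin : IsFiniteMeasure (volume.restrict (cube n)) := ⟨by
    rw [Measure.restrict_apply_univ, volume_cube]
    exact ENNReal.one_lt_top⟩
  refine hasFDerivAt_integral_of_dominated_of_fderiv_le (μ := volume.restrict (cube n))
    (F := fun x t => g t x) (F' := fun x t => fderiv ℝ (g t) x) (bound := fun _ => C) hs ?_ ?_ ?_ ?_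
    (integrable_const C) ?_
  · filter_upwards [hU.mem_nhds hq] with x hx
    exact (par_cont hg.continuousOn hx).aestronglyMeasurable
  · exact integrableOn_cube (par_cont hg.continuousOn hq)
  · exact (par_cont (g := fun t x => fderiv ℝ (g t) x) hg'.continuousOn hq).aestronglyMeasurable
  · refine (ae_restrict_iff' measurableSet_cube).2 (Filter.Eventually.of_forall fun t ht x hx => ?_)
    exact hx.2 t (par_cube_sub ht)
  · refine Filter.Eventually.of_forall fun t x hx => ?_
    exact (par_partial hU hg (p := (t, x)) ⟨Set.mem_univ _, hx.1⟩).differentiableAt.hasFDerivAt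

theorem par_fderiv_apply {U : Set G} (hU : IsOpen U) {g : (Fin n → ℝ) → G → H}
    (hg : ContDiffOn ℝ ∞ (fun p : (Fin n → ℝ) × G => g p.1 p.2) (Set.univ ×ˢ U)) {q : G}
    (hq : q ∈ U) (v : G) :
    fderiv ℝ (fun q => ∫ t in cube n, g t q) q v = ∫ t in cube n, fderiv ℝ (g t) q v := by
  rw [(par_hasFDerivAt hU hg hq).fderiv]
  refine ContinuousLinearMap.integral_apply ?_ v
  exact integrableOn_cube
    (par_cont (g := fun t x => fderiv ℝ (g t) x) (par_partial_smooth hU hg).continuousOn hq)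

private theorem par_smooth_nat {U : Set G} (hU : IsOpen U) (m : ℕ) :
    ∀ (H : Type u) [NormedAddCommGroup H] [NormedSpace ℝ H] [CompleteSpace H] (g : (Fin n → ℝ) → G → H),
      ContDiffOn ℝ ∞ (fun p : (Fin n → ℝ) × G => g p.1 p.2) (Set.univ ×ˢ U) →
      ContDiffOn ℝ m (fun q => ∫ t in cube n, g t q) U := by
  induction m with
  | zero =>
    intro H _ _ _ g hg
    rw [Nat.cast_zero, contDiffOn_zero]
    exact fun q hq => (par_hasFDerivAt hU hg hq).continuousAt.continuousWithinAt
  | succ m ih =>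
    intro H _ _ _ g hg
    rw [Nat.cast_succ, contDiffOn_succ_iff_fderiv_of_isOpen hU]
    refine ⟨fun q hq => (par_hasFDerivAt hU hg hq).differentiableAt.differentiableWithinAt, ?_, ?_⟩
    · intro h
      exact absurd h (by simp)
    · refine (ih (G →L[ℝ] H) (fun t q => fderiv ℝ (g t) q) (par_partial_smooth hU hg)).congr ?_
      intro q hq
      exact (par_hasFDerivAt hU hg hq).fderiv

theorem par_smooth {U : Set G} (hU : IsOpen U) {g : (Fin n → ℝ) → G → H}
    (hg : ContDiffOn ℝ ∞ (fun p : (Fin n → ℝ) × G => g p.1 p.2) (Set.univ ×ˢ U)) :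
    ContDiffOn ℝ ∞ (fun q => ∫ t in cube n, g t q) U :=
  contDiffOn_infty.2 fun m => par_smooth_nat hU m H g hg

end Pool.Agent.FBT
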