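import Pool.Agent.FBT.Sh
import Pool.Agent.FBT.Par

/-!
# FBT/AvgF: the flat average of a closed (1,1)-form is a closed (1,1)-form

The pull back of a closed `(1,1)`-form under a flat translation is a closed `(1,1)`-form which depends smoothly on the
translation (`pbsh_smooth`, `pbsh_form`); the average is an integral over the cube depending on a parameter.
-/

set_option autoImplicit false
set_option maxSynthPendingDepth 3

noncomputable section

open scoped Manifold ContDiff Topology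
open MeasureTheory

namespace Pool.Agent.FBT

open Pool.Agent.FBR

universe u

private theorem AvgF_flip {G H : Type*} [NormedAddCommGroup G]
    [NormedSpace ℝ G] [NormedAddCommGroup H] [NormedSpace ℝ H] :
    ContDiff ℝ ∞ (fun f : G →L[ℝ] H →L[ℝ] ℝ => f.flip) :=
  (IsLinearMap.with_bound ⟨fun _ _ => rfl, fun _ _ => rfl⟩ 1
    (fun f => by rw [one_mul, ContinuousLinearMap.opNorm_flip])).contDiff

private theorem AvgF_bil {T G H : Type*} [NormedAddCommGroup T] [NormedSpace ℝ T] [NormedAddCommGroup G]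
    [NormedSpace ℝ G] [NormedAddCommGroup H] [NormedSpace ℝ H] {S : Set T} {a : T → Bil H} {A : T → G →L[ℝ] H}
    (ha : ContDiffOn ℝ ∞ a S) (hA : ContDiffOn ℝ ∞ A S) :
    ContDiffOn ℝ ∞ (fun p => (a p).bilinearComp (A p) (A p)) S := by
  have h1 : ContDiffOn ℝ ∞ (fun p => (a p).comp (A p)) S := ha.clm_comp hA
  have h2 : ContDiffOn ℝ ∞ (fun p => ((a p).comp (A p)).flip) S := AvgF_flip.comp_contDiffOn h1
  have h3 : ContDiffOn ℝ ∞ (fun p => (((a p).comp (A p)).flip).comp (A p)) S := h2.clm_comp hA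
  exact AvgF_flip.comp_contDiffOn h3

section Gen

variable {n : ℕ} {G : Type u} [NormedAddCommGroup G] [NormedSpace ℝ G]


private theorem AvgF_apply {g : (Fin n → ℝ) → Bil G} (hg : Continuous g) (u v : G) :
    (∫ t in cube n, g t) u v = ∫ t in cube n, g t u v := by
  have h2 : Continuous fun t => g t u := hg.clm_apply continuous_const
  have i1 : Integrable g (volume.restrict (cube n)) := integrableOn_cube hg
  have i2 : Integrable (fun t => g t u) (volume.restrict (cube n)) := integrableOn_cube h2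
  rw [ContinuousLinearMap.integral_apply i1, ContinuousLinearMap.integral_apply i2]

private theorem AvgF_cont {U : Set G} (hU : IsOpen U) {g : (Fin n → ℝ) → G → Bil G}
    (hg : ContDiffOn ℝ ∞ (fun p : (Fin n → ℝ) × G => g p.1 p.2) (Set.univ ×ˢ U)) {q : G} (hq : q ∈ U) :
    Continuous fun t => g t q := by
  rw [continuous_iff_continuousAt]
  intro t
  have h1 : ContDiffAt ℝ ∞ (fun p : (Fin n → ℝ) × G => g p.1 p.2) (t, q) :=
    hg.contDiffAt ((isOpen_univ.prod hU).mem_nhds ⟨trivial, hq⟩)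
  exact ContinuousAt.comp (f := fun t : Fin n → ℝ => (t, q))
    (g := fun p : (Fin n → ℝ) × G => g p.1 p.2) h1.continuousAt (by fun_prop)


private theorem AvgF_cont_fderiv {U : Set G} (hU : IsOpen U) {g : (Fin n → ℝ) → G → Bil G}
    (hg : ContDiffOn ℝ ∞ (fun p : (Fin n → ℝ) × G => g p.1 p.2) (Set.univ ×ˢ U)) {q : G} (hq : q ∈ U) :
    Continuous fun t => fderiv ℝ (g t) q := by
  rw [continuous_iff_continuousAt]
  intro t
  have h1 : ContDiffAt ℝ ∞ (Function.uncurry g) (t, q) :=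
    hg.contDiffAt ((isOpen_univ.prod hU).mem_nhds ⟨trivial, hq⟩)
  exact (ContDiffAt.fderiv (m := 0) (g := fun _ => q) h1 contDiffAt_const (by simp)).continuousAt


private theorem AvgF_closed {U : Set G} (hU : IsOpen U) {g : (Fin n → ℝ) → G → Bil G}
    (hg : ContDiffOn ℝ ∞ (fun p : (Fin n → ℝ) × G => g p.1 p.2) (Set.univ ×ˢ U)) {q : G} (hq : q ∈ U)
    (h : ∀ t, Closed2 (g t) q) : Closed2 (fun q => ∫ t in cube n, g t q) q := by
  have hc := AvgF_cont_fderiv hU hg hq
  have h1 : ∀ u v w : G, fderiv ℝ (fun q => ∫ t in cube n, g t q) q u v w = ∫ t in cube n, fderiv ℝ (g t) q u v w := by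
    intro u v w
    rw [par_fderiv_apply hU hg hq]
    exact AvgF_apply (hc.clm_apply continuous_const) v w
  have h2 : ∀ u v w : G, Integrable (fun t => fderiv ℝ (g t) q u v w) (volume.restrict (cube n)) := by
    intro u v w
    have h3 : Continuous fun t => fderiv ℝ (g t) q u v w :=
      ((hc.clm_apply continuous_const).clm_apply continuous_const).clm_apply continuous_const
    exact (h3.continuousOn.integrableOn_compact (isCompact_Icc (a := (0 : Fin n → ℝ)) (b := 1))).mono_set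
      fun t ht => ⟨fun i => (ht i trivial).1, fun i => (ht i trivial).2.le⟩
  intro u v w
  have h4 : Integrable (fun t => fderiv ℝ (g t) q u v w + fderiv ℝ (g t) q v w u) (volume.restrict (cube n)) :=
    (h2 u v w).add (h2 v w u)
  rw [h1, h1, h1, ← integral_add (h2 u v w) (h2 v w u), ← integral_add h4 (h2 w u v)]
  refine integral_eq_zero_of_ae (Filter.Eventually.of_forall fun t => ?_)
  exact h t u v w

end Gen

variable {F : Type u} [NormedAddCommGroup F] [NormedSpace ℂ F] {k : ℕ} {V : Set F}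
  {lam : Fin (2 * k) → F → (Fin k → ℂ)} {c : F × (Fin k → ℂ) → Bil (F × (Fin k → ℂ))}

/-- the derivative of the translation, as a linear map -/
private def AvgF_D (lam : Fin (2 * k) → F → (Fin k → ℂ)) (p : (Fin (2 * k) → ℝ) × (F × (Fin k → ℂ))) :
    (F × (Fin k → ℂ)) →L[ℝ] (F × (Fin k → ℂ)) :=
  (ContinuousLinearMap.inl ℝ F (Fin k → ℂ)).comp (ContinuousLinearMap.fst ℝ F (Fin k → ℂ)) +
    (ContinuousLinearMap.inr ℝ F (Fin k → ℂ)).comp (ContinuousLinearMap.snd ℝ F (Fin k → ℂ) +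
      ∑ j, p.1 j • (fderiv ℝ (lam j) p.2.1).comp (ContinuousLinearMap.fst ℝ F (Fin k → ℂ)))

private theorem AvgF_D_eq (hL : Lat V lam) (t : Fin (2 * k) → ℝ) {q : F × (Fin k → ℂ)} (hq : q.1 ∈ V) :
    fderiv ℝ (sh lam t) q = AvgF_D lam (t, q) := by
  refine ContinuousLinearMap.ext fun v => ?_
  rw [fderiv_sh hL t hq v]
  unfold AvgF_D
  rw [ContinuousLinearMap.add_apply, ContinuousLinearMap.comp_apply, ContinuousLinearMap.comp_apply,
    ContinuousLinearMap.add_apply, sum_apply]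
  simp only [ContinuousLinearMap.inl_apply, ContinuousLinearMap.inr_apply, ContinuousLinearMap.coe_fst',
    ContinuousLinearMap.coe_snd', Prod.mk_add_mk, zero_add, add_zero]
  rfl

private theorem AvgF_D_smooth (hL : Lat V lam) :
    ContDiffOn ℝ ∞ (AvgF_D lam : (Fin (2 * k) → ℝ) × (F × (Fin k → ℂ)) → _) (Set.univ ×ˢ (V ×ˢ Set.univ)) := by
  unfold AvgF_D
  refine contDiffOn_const.add (contDiffOn_const.clm_comp (contDiffOn_const.add (ContDiffOn.sum fun j _ => ?_)))
  have h1 : ContDiffOn ℝ ∞ (fun p : (Fin (2 * k) → ℝ) × (F × (Fin k → ℂ)) => p.1 j) (Set.univ ×ˢ (V ×ˢ Set.univ)) :=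
    (((ContinuousLinearMap.proj (R := ℝ) (φ := fun _ : Fin (2 * k) => ℝ) j).comp
      (ContinuousLinearMap.fst ℝ (Fin (2 * k) → ℝ) (F × (Fin k → ℂ)))).contDiff).contDiffOn
  have h2 : ContDiffOn ℝ ∞ (fderiv ℝ (lam j)) V :=
    (((hL.hol j).restrict_scalars ℝ).of_le (by simp : (∞ : WithTop ℕ∞) ≤ ω)).fderiv_of_isOpen hL.isOpen (by simp)
  have h3 : ContDiffOn ℝ ∞ (fun p : (Fin (2 * k) → ℝ) × (F × (Fin k → ℂ)) => fderiv ℝ (lam j) p.2.1)
      (Set.univ ×ˢ (V ×ˢ Set.univ)) :=
    h2.comp (contDiff_fst.comp contDiff_snd).contDiffOn fun p hp => hp.2.1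
  exact h1.smul (h3.clm_comp contDiffOn_const)

private theorem AvgF_open (hL : Lat V lam) : IsOpen (V ×ˢ (Set.univ : Set (Fin k → ℂ))) := hL.isOpen.prod isOpen_univ

theorem pbsh_smooth (hL : Lat V lam) (hc : ContDiffOn ℝ ∞ c (V ×ˢ Set.univ)) :
    ContDiffOn ℝ ∞ (fun p : (Fin (2 * k) → ℝ) × (F × (Fin k → ℂ)) => pb c (sh lam p.1) p.2)
      (Set.univ ×ˢ (V ×ˢ Set.univ)) := by
  have h1 : ContDiffOn ℝ ∞ (fun p : (Fin (2 * k) → ℝ) × (F × (Fin k → ℂ)) => c (sh lam p.1 p.2))
      (Set.univ ×ˢ (V ×ˢ Set.univ)) := hc.comp (contDiffOn_sh hL) fun p hp => ⟨hp.2.1, trivial⟩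
  refine (AvgF_bil h1 (AvgF_D_smooth hL)).congr fun p hp => ?_
  show (c (sh lam p.1 p.2)).bilinearComp (fderiv ℝ (sh lam p.1) p.2) (fderiv ℝ (sh lam p.1) p.2) = _
  rw [AvgF_D_eq hL p.1 hp.2.1]

theorem pbsh_continuous (hL : Lat V lam) (hc : ContDiffOn ℝ ∞ c (V ×ˢ Set.univ))
    {q : F × (Fin k → ℂ)} (hq : q.1 ∈ V) :
    Continuous fun t : Fin (2 * k) → ℝ => pb c (sh lam t) q :=
  AvgF_cont (AvgF_open hL) (pbsh_smooth hL hc) ⟨hq, trivial⟩

theorem pbsh_form (hL : Lat V lam) (hc : LForm V c) (t : Fin (2 * k) → ℝ) :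
    LForm V (pb c (sh lam t)) := by
  have hat : ∀ q : F × (Fin k → ℂ), q.1 ∈ V → ContDiffAt ℝ ∞ c (sh lam t q) := fun q hq =>
    hc.smooth.contDiffAt ((AvgF_open hL).mem_nhds ⟨hq, trivial⟩)
  refine ⟨fun q hq => ?_, fun q hq => ?_, fun q hq u v => ?_, fun q hq u v w => ?_⟩
  · exact (contDiffAt_pull c (sh lam t) q (hat q hq.1) (contDiffAt_sh hL t hq.1)).contDiffWithinAt
  · exact pb_alt (hc.alt _ hq)
  · rw [pb_apply, pb_apply, fderiv_sh_I hL t hq, fderiv_sh_I hL t hq]
    exact hc.j (sh lam t q) hq _ _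
  · refine (ext2_pull c (sh lam t) q ((hat q hq).differentiableAt (by simp)) (hc.alt _ hq)
      ((contDiffAt_sh hL t hq).of_le (by norm_cast)) u v w).trans ?_
    exact hc.closed (sh lam t q) hq _ _ _

theorem avg_apply (hL : Lat V lam) (hc : ContDiffOn ℝ ∞ c (V ×ˢ Set.univ))
    {q : F × (Fin k → ℂ)} (hq : q.1 ∈ V) (u v : F × (Fin k → ℂ)) :
    avg lam c q u v = ∫ t in cube (2 * k), pb c (sh lam t) q u v :=
  AvgF_apply (pbsh_continuous hL hc hq) u v

theorem avg_form (hL : Lat V lam) (hc : LForm V c) : LForm V (avg lam c) := by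
  have hp := fun t => pbsh_form hL hc t
  refine ⟨par_smooth (AvgF_open hL) (pbsh_smooth hL hc.smooth), fun q hq v => ?_, fun q hq u v => ?_,
    fun q hq => ?_⟩
  · rw [avg_apply hL hc.smooth hq]
    refine integral_eq_zero_of_ae (Filter.Eventually.of_forall fun t => ?_)
    exact (hp t).alt q hq v
  · rw [avg_apply hL hc.smooth hq, avg_apply hL hc.smooth hq]
    refine integral_congr_ae (Filter.Eventually.of_forall fun t => ?_)
    exact (hp t).j q hq u v
  · exact AvgF_closed (AvgF_open hL) (pbsh_smooth hL hc.smooth) ⟨hq, trivial⟩ fun t => (hp t).closed q hq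

theorem avg_semi (hL : Lat V lam) (hc : LForm V c)
    (hs : ∀ q : F × (Fin k → ℂ), q.1 ∈ V → SemiB (c q)) (q : F × (Fin k → ℂ)) (hq : q.1 ∈ V) :
    SemiB (avg lam c q) := by
  intro v
  rw [avg_apply hL hc.smooth hq]
  refine setIntegral_nonneg measurableSet_cube fun t _ => ?_
  rw [pb_apply, fderiv_sh_I hL t hq]
  exact hs (sh lam t q) hq _

end Pool.Agent.FBT
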