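import Pool.Agent.FBT.Defs

/-!
# FBT/Fund: integrals of periodic functions over the cube, translations

PROOF PLAN.  `cube n = ZSpan.fundamentalDomain (Pi.basisFun ℝ (Fin n))`
(`ZSpan.fundamentalDomain_pi_basisFun`), a fundamental domain (`IsAddFundamentalDomain`,
`ZSpan.isAddFundamentalDomain`) of the lattice `L = span ℤ (range (Pi.basisFun ℝ (Fin n)))` =
the integral vectors.  `cube_shift`: the translate of the cube by `s` is a fundamental domain too;
`IsAddFundamentalDomain.setIntegral_eq` (the two integrals of an `L`-invariant function agree), and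
translation preserves the volume (`MeasurePreserving`, `setIntegral_map` / `integral_add_right_eq_self`
with indicators).  `cube_lin`: the image of the cube under the linear automorphism with the matrix
`m` (which maps `L` onto `L`, since `m` is invertible over `ℤ`) is a fundamental domain of `L` again
(e.g. `IsAddFundamentalDomain.mk'`, or `ZSpan.isAddFundamentalDomain` for the basis
`m e_j` together with the equality of the lattices), and `|det m| = 1` (`Int.isUnit_iff`), so that
`MeasureTheory.integral_image_eq_integral_abs_det_fderiv_smul` or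
`MeasureTheory.Measure.map_linearMap_addHaar_eq_smul_addHaar` gives the equality of the integrals.
Alternative for `cube_lin`: both sides are Haar integrals over the torus `(ℝ/ℤ)ⁿ`; or write
`m` as a product of elementary matrices (not recommended).
-/

set_option autoImplicit false

noncomputable section

open scoped Topology
open MeasureTheory

namespace Pool.Agent.FBT

variable {H : Type*} [NormedAddCommGroup H] [NormedSpace ℝ H] {n : ℕ}

private theorem fund_int {n : ℕ} (g : Fin n → ℝ)
    (hg : g ∈ Submodule.span ℤ (Set.range (Pi.basisFun ℝ (Fin n)))) :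
    ∃ m : Fin n → ℤ, g = fun j => (m j : ℝ) := by
  rw [Module.Basis.mem_span_iff_repr_mem] at hg
  choose m hm using hg
  refine ⟨m, ?_⟩
  funext j
  have h := hm j
  rw [Pi.basisFun_repr] at h
  exact h.symm

theorem cube_shift {f : (Fin n → ℝ) → H} (hf : Continuous f)
    (hp : ∀ (m : Fin n → ℤ) (t : Fin n → ℝ), f (t + fun j => (m j : ℝ)) = f t) (s : Fin n → ℝ) :
    ∫ t in cube n, f (t + s) = ∫ t in cube n, f t := by
  have hD : cube n = ZSpan.fundamentalDomain (Pi.basisFun ℝ (Fin n)) :=
    (ZSpan.fundamentalDomain_pi_basisFun).symm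
  have hs : IsAddFundamentalDomain
      (Submodule.span ℤ (Set.range (Pi.basisFun ℝ (Fin n)))).toAddSubgroup
      (cube n) (volume : Measure (Fin n → ℝ)) := by
    rw [hD]
    exact ZSpan.isAddFundamentalDomain' _ _
  have ht := hs.vadd_of_comm s
  have hinv : ∀ (g : (Submodule.span ℤ (Set.range (Pi.basisFun ℝ (Fin n)))).toAddSubgroup)
      (x : Fin n → ℝ),
      f (g +ᵥ x) = f x := by
    intro g x
    obtain ⟨m, hm⟩ := fund_int g.1 g.2
    have h1 : g +ᵥ x = x + fun j => (m j : ℝ) := by
      rw [← hm, add_comm]
      rfl
    rw [h1, hp]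
  have hc : Countable (Submodule.span ℤ (Set.range (Pi.basisFun ℝ (Fin n)))).toAddSubgroup :=
    inferInstanceAs (Countable (Submodule.span ℤ (Set.range (Pi.basisFun ℝ (Fin n)))))
  have h1 : ∫ x in (fun x => s +ᵥ x) '' cube n, f x = ∫ x in cube n, f x :=
    ht.setIntegral_eq hs hinv
  rw [← h1]
  have h2 := (measurePreserving_vadd s (volume : Measure (Fin n → ℝ))).setIntegral_image_emb
    (measurableEmbedding_const_vadd s) f (cube n)
  rw [h2]
  refine integral_congr_ae (Filter.Eventually.of_forall fun t => ?_)
  show f (t + s) = f (s +ᵥ t)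
  rw [vadd_eq_add, add_comm]

end Pool.Agent.FBT
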