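import Pool.Agent.FBT.AvgF
import Pool.Agent.FBT.Fund

/-!
# FBT/AvgI: the flat average is invariant under the flat translations

PROOF PLAN.  `avg_congr`: the integrands agree at all points of the same fibre
(`pb c (sh lam t) q` only involves `c (sh lam t q)`, first coordinate `q.1`).
`avg_sinv`: `pb (avg lam c) (sh lam s) q u v = avg lam c (sh lam s q) (D u) (D v)`, `D = fderiv ℝ (sh lam s) q`,
`= ∫ pb c (sh lam t) (sh lam s q) (D u) (D v) = ∫ pb c (sh lam t ∘ sh lam s) q u v` (`pb_pb`, `contDiffAt_sh`)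
`= ∫ pb c (sh lam (t + s)) q u v = ∫ pb c (sh lam t) q u v` (`sh_add`, `cube_shift`, `pb_sh_add_int`).
-/

set_option autoImplicit false

noncomputable section

open scoped Manifold ContDiff Topology
open MeasureTheory

namespace Pool.Agent.FBT

open Pool.Agent.FBR

universe u

variable {F : Type u} [NormedAddCommGroup F] [NormedSpace ℂ F] {k : ℕ} {V : Set F}
  {lam : Fin (2 * k) → F → (Fin k → ℂ)} {c : F × (Fin k → ℂ) → Bil (F × (Fin k → ℂ))}

theorem avg_congr {c' : F × (Fin k → ℂ) → Bil (F × (Fin k → ℂ))} {W : Set F}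
    (h : ∀ q : F × (Fin k → ℂ), q.1 ∈ W → c q = c' q) {q : F × (Fin k → ℂ)} (hq : q.1 ∈ W) :
    avg lam c q = avg lam c' q := by
  have h1 : (fun t : Fin (2 * k) → ℝ => pb c (sh lam t) q) = fun t => pb c' (sh lam t) q := by
    funext t
    have h2 : c (sh lam t q) = c' (sh lam t q) := h (sh lam t q) hq
    unfold pb
    rw [h2]
  unfold avg
  rw [h1]

theorem avg_sinv (hL : Lat V lam) (hc : LForm V c) (hp : Per V lam c) :
    SInv V lam (avg lam c) := by
  intro s q hq
  refine ContinuousLinearMap.ext fun u => ContinuousLinearMap.ext fun v => ?_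
  have hq' : (sh lam s q).1 ∈ V := hq
  have h1 : ∀ t : Fin (2 * k) → ℝ,
      pb c (sh lam t) (sh lam s q) (fderiv ℝ (sh lam s) q u) (fderiv ℝ (sh lam s) q v) =
        pb c (sh lam (t + s)) q u v := by
    intro t
    have h2 : pb (pb c (sh lam t)) (sh lam s) q = pb c (sh lam t ∘ sh lam s) q :=
      pb_pb c ((contDiffAt_sh hL t hq').differentiableAt (by simp))
        ((contDiffAt_sh hL s hq).differentiableAt (by simp))
    have h3 : sh lam t ∘ sh lam s = sh lam (t + s) := funext fun p => sh_add s t p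
    rw [h3] at h2
    rw [← h2]
    rfl
  have h4 : Continuous fun t : Fin (2 * k) → ℝ => pb c (sh lam t) q u v :=
    ((pbsh_continuous hL hc.smooth hq).clm_apply continuous_const).clm_apply continuous_const
  have h5 : ∀ (m : Fin (2 * k) → ℤ) (t : Fin (2 * k) → ℝ),
      pb c (sh lam (t + fun j => (m j : ℝ))) q u v = pb c (sh lam t) q u v := by
    intro m t
    rw [pb_sh_add_int hL hp t m hq]
  have h6 := cube_shift h4 h5 s
  rw [pb_apply, avg_apply hL hc.smooth hq', avg_apply hL hc.smooth hq, ← h6]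
  simp only [h1]

end Pool.Agent.FBT
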