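import Pool.Agent.FBT.AvgI

/-!
# FBT/AvgP: positivity of the flat average

PROOF PLAN.  `flat_surj`: `2k` real linearly independent vectors of `ℂᵏ` (of real dimension `2k`,
`finrank_real_of_complex`) span.  `avg_pos`: choose the point `q1 = sh lam (-t0) q0` with
`t0 = (1/2, …, 1/2)`: the integrand `t ↦ pb c (sh lam t) q1 v (i v)` (`avg_apply`) is `≥ 0` (`hs`, `fderiv_sh_I`),
continuous (`pbsh_continuous`), and at `t = t0` it is `c q0 (D v) (i D v) > 0`, `D = fderiv ℝ (sh lam t0) q1`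
bijective (`fderiv_sh_bij`); `t0` is an interior point of the cube,
so the integral is `> 0` (`setIntegral_pos_iff_support_of_nonneg_ae`; the support contains a
neighbourhood of `t0`, of positive measure).  Every other `q`
over the same `y` is `sh lam s q1` for some `s` (`exists_sh`); use `avg_sinv` and `fderiv_sh_bij`, `fderiv_sh_I`.
-/

set_option autoImplicit false

noncomputable section

open scoped Manifold ContDiff Topology
open MeasureTheory

namespace Pool.Agent.FBT

open Pool.Agent.FBR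

universe u

variable {F : Type u} [NormedAddCommGroup F] [NormedSpace ℂ F] {k : ℕ} {V : Set F}
  {lam : Fin (2 * k) → F → (Fin k → ℂ)} {c : F × (Fin k → ℂ) → Bil (F × (Fin k → ℂ))}

theorem flat_surj (hL : Lat V lam) {y : F} (hy : y ∈ V) (z : Fin k → ℂ) :
    ∃ s : Fin (2 * k) → ℝ, ∑ j, s j • lam j y = z := by
  have h1 : Fintype.card (Fin (2 * k)) = Module.finrank ℝ (Fin k → ℂ) := by
    rw [finrank_real_of_complex, Module.finrank_fin_fun, Fintype.card_fin]
  have h2 := (hL.indep y hy).span_eq_top_of_card_eq_finrank' h1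
  have h3 : z ∈ Submodule.span ℝ (Set.range fun j => lam j y) := by
    rw [h2]
    exact Submodule.mem_top
  exact (Submodule.mem_span_range_iff_exists_fun ℝ).1 h3

theorem exists_sh (hL : Lat V lam) {q q' : F × (Fin k → ℂ)} (hq : q.1 ∈ V) (h : q.1 = q'.1) :
    ∃ s : Fin (2 * k) → ℝ, sh lam s q = q' := by
  obtain ⟨s, hs⟩ := flat_surj hL hq (q'.2 - q.2)
  refine ⟨s, ?_⟩
  refine Prod.ext h ?_
  change q.2 + ∑ j, s j • lam j q.1 = q'.2
  rw [hs, add_sub_cancel]

private theorem AvgP_one (hL : Lat V lam) (hc : LForm V c)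
    (hs : ∀ q : F × (Fin k → ℂ), q.1 ∈ V → SemiB (c q)) {q1 : F × (Fin k → ℂ)} (hq1 : q1.1 ∈ V)
    (h1 : PosB (c (sh lam (fun _ => 1 / 2) q1))) : PosB (avg lam c q1) := by
  intro v hv
  rw [avg_apply hL hc.smooth hq1]
  have hcont : Continuous fun t : Fin (2 * k) → ℝ => pb c (sh lam t) q1 v (Complex.I • v) :=
    ((pbsh_continuous hL hc.smooth hq1).clm_apply continuous_const).clm_apply continuous_const
  have hval : ∀ t, pb c (sh lam t) q1 v (Complex.I • v)
      = c (sh lam t q1) (fderiv ℝ (sh lam t) q1 v) (Complex.I • fderiv ℝ (sh lam t) q1 v) := by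
    intro t
    rw [pb_apply, fderiv_sh_I hL t hq1]
  have hnn : ∀ t, 0 ≤ pb c (sh lam t) q1 v (Complex.I • v) := by
    intro t
    rw [hval]
    exact hs (sh lam t q1) hq1 _
  rw [setIntegral_pos_iff_support_of_nonneg_ae (Filter.Eventually.of_forall hnn) (integrableOn_cube hcont)]
  have hopen : IsOpen ({t : Fin (2 * k) → ℝ | 0 < pb c (sh lam t) q1 v (Complex.I • v)}
      ∩ Set.univ.pi fun _ => Set.Ioo (0 : ℝ) 1) :=
    (isOpen_lt continuous_const hcont).inter (isOpen_set_pi Set.finite_univ fun _ _ => isOpen_Ioo)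
  refine (hopen.measure_pos volume ⟨fun _ => 1 / 2, ?_, ?_⟩).trans_le (measure_mono ?_)
  · change 0 < pb c (sh lam _) q1 v (Complex.I • v)
    rw [hval]
    refine h1 _ ?_
    intro h
    apply hv
    apply (fderiv_sh_bij hL (fun _ => 1 / 2) hq1).1
    rw [h, map_zero]
  · intro i _
    constructor <;> norm_num
  · rintro t ⟨ht1, ht2⟩
    refine ⟨ne_of_gt ht1, ?_⟩
    intro i hi
    exact ⟨(ht2 i hi).1.le, (ht2 i hi).2⟩

theorem avg_pos (hL : Lat V lam) (hc : LForm V c) (hp : Per V lam c)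
    (hs : ∀ q : F × (Fin k → ℂ), q.1 ∈ V → SemiB (c q)) {q0 : F × (Fin k → ℂ)} (hq0 : q0.1 ∈ V)
    (h0 : PosB (c q0)) (q : F × (Fin k → ℂ)) (hq : q.1 = q0.1) : PosB (avg lam c q) := by
  have hqV : q.1 ∈ V := by
    rw [hq]
    exact hq0
  have h1 : PosB (avg lam c (sh lam (-fun _ => 1 / 2) q0)) := by
    refine AvgP_one hL hc hs hq0 ?_
    rw [sh_add, add_neg_cancel, sh_zero]
    exact h0
  obtain ⟨s, hs'⟩ := exists_sh hL hqV (q' := sh lam (-fun _ => 1 / 2) q0) hq
  intro v hv
  rw [← avg_sinv hL hc hp s q hqV, pb_apply, fderiv_sh_I hL s hqV, hs']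
  refine h1 _ ?_
  intro h
  apply hv
  apply (fderiv_sh_bij hL s hqV).1
  rw [h, map_zero]

end Pool.Agent.FBT
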