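import Pool.Agent.FBT.Defs

/-!
# FBT/FundL: integrals of periodic functions over the cube, unimodular maps

`cube n = ZSpan.fundamentalDomain (Pi.basisFun ℝ (Fin n))` is a fundamental domain of the lattice of
the integral vectors, and so is its preimage under the linear map with the matrix `m`, which is
invertible over `ℤ`.  This linear map preserves the volume, as `|det m| = 1`.
-/

set_option autoImplicit false

noncomputable section

open scoped Topology
open MeasureTheory

namespace Pool.Agent.FBT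

variable {H : Type*} [NormedAddCommGroup H] [NormedSpace ℝ H] {n : ℕ}

private theorem mem_lattice_iff (x : Fin n → ℝ) :
    x ∈ Submodule.span ℤ (Set.range (Pi.basisFun ℝ (Fin n))) ↔
      ∃ k : Fin n → ℤ, x = fun j => (k j : ℝ) := by
  rw [(Pi.basisFun ℝ (Fin n)).mem_span_iff_repr_mem ℤ x]
  constructor
  · intro h
    choose k hk using h
    refine ⟨k, funext fun j => ?_⟩
    have := hk j
    simpa using this.symm
  · rintro ⟨k, rfl⟩ i
    exact ⟨k i, by simp⟩

theorem cube_lin {f : (Fin n → ℝ) → H} (hf : Continuous f)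
    (hp : ∀ (m : Fin n → ℤ) (t : Fin n → ℝ), f (t + fun j => (m j : ℝ)) = f t)
    (m : Matrix (Fin n) (Fin n) ℤ) (hm : IsUnit m.det) :
    ∫ t in cube n, f (fun i => ∑ j, (m i j : ℝ) * t j) = ∫ t in cube n, f t := by
  classical
  have hcube : cube n = ZSpan.fundamentalDomain (Pi.basisFun ℝ (Fin n)) :=
    (ZSpan.fundamentalDomain_pi_basisFun).symm
  have hfd : IsAddFundamentalDomain (Submodule.span ℤ (Set.range (Pi.basisFun ℝ (Fin n))))
      (cube n) (volume : Measure (Fin n → ℝ)) := by
    rw [hcube]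
    exact ZSpan.isAddFundamentalDomain (Pi.basisFun ℝ (Fin n)) volume
  -- the linear map
  set M : Matrix (Fin n) (Fin n) ℝ := (Int.castRingHom ℝ).mapMatrix m with hM
  have hdet : M.det = (m.det : ℝ) := by
    rw [hM, ← RingHom.map_det]
    rfl
  have habs : |M.det| = 1 := by
    rw [hdet]
    rcases Int.isUnit_iff.1 hm with h | h <;> rw [h] <;> norm_num
  have hdet0 : M.det ≠ 0 := by
    intro h
    rw [h] at habs
    norm_num at habs
  have hT : ∀ t : Fin n → ℝ, Matrix.toLin' M t = fun i => ∑ j, (m i j : ℝ) * t j := by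
    intro t
    funext i
    simp [hM, Matrix.toLin'_apply, Matrix.mulVec, dotProduct]
  have hTi : ∀ k : Fin n → ℤ, Matrix.toLin' M (fun j => (k j : ℝ)) =
      fun j => ((m.mulVec k) j : ℝ) := by
    intro k
    rw [hT]
    funext i
    simp [Matrix.mulVec, dotProduct]
  have hmp : MeasurePreserving (Matrix.toLin' M) (volume : Measure (Fin n → ℝ)) volume := by
    refine ⟨(LinearMap.continuous_on_pi _).measurable, ?_⟩
    rw [Real.map_matrix_volume_pi_eq_smul_volume_pi hdet0, abs_inv, habs]
    simp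
  have hMu : IsUnit M.det := isUnit_iff_ne_zero.2 hdet0
  have hMl : M⁻¹ * M = 1 := Matrix.nonsing_inv_mul M hMu
  have hinj : Function.Injective (Matrix.toLin' M) := by
    intro x y hxy
    have := congrArg (Matrix.toLin' M⁻¹) hxy
    simpa [← Matrix.toLin'_mul_apply, hMl] using this
  have hsub : ∀ (k : Fin n → ℤ) (t : Fin n → ℝ), f ((fun j => (k j : ℝ)) + t) = f t := by
    intro k t
    rw [add_comm]
    exact hp k t
  have hm1 : m * m⁻¹ = 1 := Matrix.mul_nonsing_inv m hm
  -- the preimage of the cube is a fundamental domain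
  have hfd2 : IsAddFundamentalDomain (Submodule.span ℤ (Set.range (Pi.basisFun ℝ (Fin n))))
      (Matrix.toLin' M ⁻¹' cube n) (volume : Measure (Fin n → ℝ)) := by
    refine IsAddFundamentalDomain.mk' ?_ ?_
    · have : MeasurableSet (cube n) := MeasurableSet.univ_pi fun _ => measurableSet_Ico
      exact (hmp.measurable this).nullMeasurableSet
    · intro x
      obtain ⟨h, hh1, hh2⟩ :=
        ZSpan.exist_unique_vadd_mem_fundamentalDomain (Pi.basisFun ℝ (Fin n))
          (Matrix.toLin' M x)
      rw [← hcube] at hh1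
      obtain ⟨k, hk⟩ := (mem_lattice_iff (h : Fin n → ℝ)).1 h.2
      refine ⟨⟨fun j => ((m⁻¹.mulVec k) j : ℝ), (mem_lattice_iff _).2 ⟨_, rfl⟩⟩, ?_, ?_⟩
      · change Matrix.toLin' M ((fun j => ((m⁻¹.mulVec k) j : ℝ)) + x) ∈ cube n
        rw [map_add, hTi, Matrix.mulVec_mulVec, hm1, Matrix.one_mulVec, ← hk]
        exact hh1
      · rintro ⟨g, hg⟩ hgx
        obtain ⟨l, rfl⟩ := (mem_lattice_iff g).1 hg
        change Matrix.toLin' M ((fun j => (l j : ℝ)) + x) ∈ cube n at hgx
        rw [map_add, hTi, hcube] at hgx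
        have h3 := hh2 ⟨fun j => ((m.mulVec l) j : ℝ), (mem_lattice_iff _).2 ⟨_, rfl⟩⟩ hgx
        have h4 : (fun j => ((m.mulVec l) j : ℝ)) = fun j => (k j : ℝ) := by
          rw [← hk, ← h3]
        apply Subtype.ext
        change (fun j => (l j : ℝ)) = fun j => ((m⁻¹.mulVec k) j : ℝ)
        apply hinj
        rw [hTi, hTi, Matrix.mulVec_mulVec, hm1, Matrix.one_mulVec]
        exact h4
  have hinv : ∀ (g : Submodule.span ℤ (Set.range (Pi.basisFun ℝ (Fin n)))) (x : Fin n → ℝ),
      (fun t => f (Matrix.toLin' M t)) (g +ᵥ x) = (fun t => f (Matrix.toLin' M t)) x := by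
    rintro ⟨g, hg⟩ x
    obtain ⟨l, rfl⟩ := (mem_lattice_iff g).1 hg
    change f (Matrix.toLin' M ((fun j => (l j : ℝ)) + x)) = f (Matrix.toLin' M x)
    rw [map_add, hTi]
    exact hsub _ _
  have hemb : MeasurableEmbedding (Matrix.toLin' M) := by
    have h1 : Continuous (Matrix.toLin' M) := LinearMap.continuous_on_pi _
    exact h1.measurableEmbedding hinj
  have : VAddInvariantMeasure (Submodule.span ℤ (Set.range (Pi.basisFun ℝ (Fin n))))
      (Fin n → ℝ) (volume : Measure (Fin n → ℝ)) :=
    ⟨fun c s _ => measure_preimage_add volume (c : Fin n → ℝ) s⟩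
  calc ∫ t in cube n, f (fun i => ∑ j, (m i j : ℝ) * t j)
      = ∫ t in cube n, f (Matrix.toLin' M t) := by
        simp only [hT]
    _ = ∫ t in Matrix.toLin' M ⁻¹' cube n, f (Matrix.toLin' M t) :=
        hfd.setIntegral_eq hfd2 hinv
    _ = ∫ t in cube n, f t := hmp.setIntegral_preimage_emb hemb f (cube n)

end Pool.Agent.FBT
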