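import Pool.Agent.FBT.AvgI
import Pool.Agent.FBT.FundL

/-!
# FBT/AvgT: the flat average and affine changes of the torus charts

PROOF PLAN.  `aff_sh`: `A y (z + ∑ t_j λ_j(y)) + c y = (A y z + c y) + ∑_j t_j ∑_i m_ij λ'_i(κ y)`
(`map_sum`, `map_smul` over `ℝ`, `h.per`, `Finset.sum_comm`).
`fderiv_aff`: the first coordinate is `κ ∘ fst`; the derivative in the direction `(0, ξ)` is `(0, A y ξ)`.
`pb_aff_form`: `contDiffAt_pull`, `ext2_pull`; complex differentiability of `aff` gives `fderiv ℝ (aff ..) q (I • v) =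
I • ..` (`DifferentiableAt.fderiv_restrictScalars`).
`avg_trans`: for all `t`, near `q`: `aff ∘ sh lam t = sh lam' (m t) ∘ aff` (`aff_sh`), hence
`pb (pb c aff) (sh lam t) q = pb c (aff ∘ sh lam t) q = pb c (sh lam' (m t) ∘ aff) q
 = pb (pb c (sh lam' (m t))) aff q` (`pb_pb`, `pb_congr`), that is (evaluated at `u v`)
`pb c (sh lam' (m t)) (aff q) (D u) (D v)`; integrate over `t`, `avg_apply`, `cube_lin` with the
continuous periodic function `t ↦ pb c (sh lam' t) (aff q) (D u) (D v)` (`pb_sh_add_int`, `pbsh_continuous`).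
-/

set_option autoImplicit false

noncomputable section

open scoped Manifold ContDiff Topology
open MeasureTheory

namespace Pool.Agent.FBT

open Pool.Agent.FBR

universe u

variable {F : Type u} [NormedAddCommGroup F] [NormedSpace ℂ F] {k : ℕ} {V V' W : Set F}
  {lam lam' : Fin (2 * k) → F → (Fin k → ℂ)} {c : F × (Fin k → ℂ) → Bil (F × (Fin k → ℂ))}
  {κ : F → F} {A : F → (Fin k → ℂ) →L[ℂ] (Fin k → ℂ)} {c0 : F → (Fin k → ℂ)}
  {m : Matrix (Fin (2 * k)) (Fin (2 * k)) ℤ}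

private lemma avgT_κC (h : AffTr V V' W lam lam' κ A c0 m) {y : F} (hy : y ∈ W) :
    ContDiffAt ℂ ∞ κ y := h.smκ.contDiffAt (h.isOpen.mem_nhds hy)

private lemma avgT_AC (h : AffTr V V' W lam lam' κ A c0 m) {y : F} (hy : y ∈ W) :
    ContDiffAt ℂ ∞ A y := h.smA.contDiffAt (h.isOpen.mem_nhds hy)

private lemma avgT_cC (h : AffTr V V' W lam lam' κ A c0 m) {y : F} (hy : y ∈ W) :
    ContDiffAt ℂ ∞ c0 y := h.smc.contDiffAt (h.isOpen.mem_nhds hy)

theorem aff_smooth (h : AffTr V V' W lam lam' κ A c0 m) {q : F × (Fin k → ℂ)} (hq : q.1 ∈ W) :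
    ContDiffAt ℂ ∞ (aff κ A c0) q := by
  have h1 : ContDiffAt ℂ ∞ (fun p : F × (Fin k → ℂ) => κ p.1) q :=
    (avgT_κC h hq).comp q contDiffAt_fst
  have h2 : ContDiffAt ℂ ∞ (fun p : F × (Fin k → ℂ) => A p.1) q :=
    (avgT_AC h hq).comp q contDiffAt_fst
  have h3 : ContDiffAt ℂ ∞ (fun p : F × (Fin k → ℂ) => c0 p.1) q :=
    (avgT_cC h hq).comp q contDiffAt_fst
  exact h1.prodMk ((h2.clm_apply contDiffAt_snd).add h3)

theorem fderiv_aff (h : AffTr V V' W lam lam' κ A c0 m) {q : F × (Fin k → ℂ)} (hq : q.1 ∈ W) :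
    ∃ B : F →L[ℝ] (Fin k → ℂ), ∀ (u : F) (ξ : Fin k → ℂ),
      fderiv ℝ (aff κ A c0) q (u, ξ) = (fderiv ℝ κ q.1 u, B u + A q.1 ξ) := by
  have hκ := ((avgT_κC h hq).differentiableAt (by simp))
  have hA := ((avgT_AC h hq).differentiableAt (by simp)).hasFDerivAt
  have hc := ((avgT_cC h hq).differentiableAt (by simp)).hasFDerivAt
  have h1 : HasFDerivAt (fun p : F × (Fin k → ℂ) => κ p.1)
      ((fderiv ℂ κ q.1).comp (ContinuousLinearMap.fst ℂ F (Fin k → ℂ))) q :=
    hκ.hasFDerivAt.comp q hasFDerivAt_fst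
  have h2 : HasFDerivAt (fun p : F × (Fin k → ℂ) => A p.1)
      ((fderiv ℂ A q.1).comp (ContinuousLinearMap.fst ℂ F (Fin k → ℂ))) q :=
    hA.comp q hasFDerivAt_fst
  have h3 : HasFDerivAt (fun p : F × (Fin k → ℂ) => c0 p.1)
      ((fderiv ℂ c0 q.1).comp (ContinuousLinearMap.fst ℂ F (Fin k → ℂ))) q :=
    hc.comp q hasFDerivAt_fst
  have h4 := h2.clm_apply (hasFDerivAt_snd (𝕜 := ℂ) (p := q))
  have h5 := (h1.prodMk (h4.add h3)).restrictScalars ℝ
  have h6 : HasFDerivAt (aff κ A c0) _ q := h5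
  refine ⟨(((fderiv ℂ A q.1).flip q.2) + fderiv ℂ c0 q.1).restrictScalars ℝ, fun u ξ => ?_⟩
  rw [h6.fderiv, hκ.fderiv_restrictScalars ℝ]
  ext i
  · simp
  · simp
    ring

theorem aff_sh (h : AffTr V V' W lam lam' κ A c0 m) (t : Fin (2 * k) → ℝ)
    {q : F × (Fin k → ℂ)} (hq : q.1 ∈ W) :
    aff κ A c0 (sh lam t q) = sh lam' (fun i => ∑ j, (m i j : ℝ) * t j) (aff κ A c0 q) := by
  have h1 : A q.1 (∑ j, t j • lam j q.1) =
      ∑ i, (∑ j, (m i j : ℝ) * t j) • lam' i (κ q.1) := by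
    rw [map_sum]
    have : ∀ j, A q.1 (t j • lam j q.1) = ∑ i, ((m i j : ℝ) * t j) • lam' i (κ q.1) := by
      intro j
      rw [ContinuousLinearMap.map_smul_of_tower, h.per q.1 hq j, Finset.smul_sum]
      refine Finset.sum_congr rfl fun i _ => ?_
      rw [mul_comm, mul_smul, Int.cast_smul_eq_zsmul]
    simp_rw [this]
    rw [Finset.sum_comm]
    refine Finset.sum_congr rfl fun i _ => ?_
    rw [Finset.sum_smul]
  unfold aff sh
  ext i
  · rfl
  · simp only [map_add, h1]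
    simp only [Pi.add_apply]
    ring

private lemma avgT_real (h : AffTr V V' W lam lam' κ A c0 m) {q : F × (Fin k → ℂ)} (hq : q.1 ∈ W) :
    ContDiffAt ℝ ∞ (aff κ A c0) q := (aff_smooth h hq).restrict_scalars ℝ

private lemma avgT_I (h : AffTr V V' W lam lam' κ A c0 m) {q : F × (Fin k → ℂ)} (hq : q.1 ∈ W)
    (v : F × (Fin k → ℂ)) :
    fderiv ℝ (aff κ A c0) q (Complex.I • v) = Complex.I • fderiv ℝ (aff κ A c0) q v := by
  rw [((aff_smooth h hq).differentiableAt (by simp)).fderiv_restrictScalars ℝ]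
  simp

theorem pb_aff_form (h : AffTr V V' W lam lam' κ A c0 m) (hV' : IsOpen V') (hc : LForm V' c) :
    LForm W (pb c (aff κ A c0)) := by
  have hcd : ∀ q : F × (Fin k → ℂ), q.1 ∈ W → ContDiffAt ℝ ∞ c (aff κ A c0 q) := by
    intro q hq
    refine hc.smooth.contDiffAt ((hV'.prod isOpen_univ).mem_nhds ?_)
    exact ⟨h.maps _ hq, Set.mem_univ _⟩
  refine ⟨?_, ?_, ?_, ?_⟩
  · rintro q ⟨hq, -⟩
    exact (contDiffAt_pull c (aff κ A c0) q (hcd q hq) (avgT_real h hq)).contDiffWithinAt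
  · intro q hq v
    rw [pb_apply]
    exact hc.alt _ (h.maps _ hq) _
  · intro q hq u v
    rw [pb_apply, pb_apply, avgT_I h hq, avgT_I h hq]
    exact hc.j _ (h.maps _ hq) _ _
  · intro q hq u v w
    have h1 := ext2_pull c (aff κ A c0) q ((hcd q hq).differentiableAt (by simp))
      (fun u => hc.alt _ (h.maps _ hq) u) ((avgT_real h hq).of_le (by norm_cast)) u v w
    have h2 := hc.closed (aff κ A c0 q) (h.maps _ hq) (fderiv ℝ (aff κ A c0) q u)
      (fderiv ℝ (aff κ A c0) q v) (fderiv ℝ (aff κ A c0) q w)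
    unfold ext2 at h1
    rw [h2] at h1
    exact h1

theorem avg_trans (hL : Lat V lam) (hL' : Lat V' lam') (h : AffTr V V' W lam lam' κ A c0 m)
    (hc : LForm V' c) (hp : Per V' lam' c) {q : F × (Fin k → ℂ)} (hq : q.1 ∈ W) :
    avg lam (pb c (aff κ A c0)) q = pb (avg lam' c) (aff κ A c0) q := by
  have hpb := pb_aff_form h hL'.isOpen hc
  have hLW : Lat W lam := ⟨h.isOpen, fun j => (hL.hol j).mono h.sub, fun y hy => hL.indep y (h.sub hy)⟩
  have hκ : (aff κ A c0 q).1 ∈ V' := h.maps _ hq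
  -- the translated pull backs
  have key : ∀ t : Fin (2 * k) → ℝ, pb (pb c (aff κ A c0)) (sh lam t) q =
      pb (pb c (sh lam' (fun i => ∑ j, (m i j : ℝ) * t j))) (aff κ A c0) q := by
    intro t
    have hsq : (sh lam t q).1 ∈ W := hq
    rw [pb_pb c ((avgT_real h hsq).differentiableAt (by simp))
      ((contDiffAt_sh hLW t hq).differentiableAt (by simp)),
      pb_pb c ((contDiffAt_sh hL' _ hκ).differentiableAt (by simp))
      ((avgT_real h hq).differentiableAt (by simp))]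
    apply pb_congr
    have hW : ∀ᶠ p : F × (Fin k → ℂ) in 𝓝 q, p.1 ∈ W :=
      continuous_fst.continuousAt.eventually (h.isOpen.mem_nhds hq)
    filter_upwards [hW] with p hp'
    exact aff_sh h t hp'
  refine ContinuousLinearMap.ext fun u => ContinuousLinearMap.ext fun v => ?_
  rw [avg_apply hLW hpb.smooth hq, pb_apply, avg_apply hL' hc.smooth hκ]
  set D := fderiv ℝ (aff κ A c0) q with hD
  have hcont : Continuous fun t : Fin (2 * k) → ℝ =>
      pb c (sh lam' t) (aff κ A c0 q) (D u) (D v) := by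
    have := pbsh_continuous hL' hc.smooth hκ
    exact (this.clm_apply continuous_const).clm_apply continuous_const
  have hper : ∀ (n : Fin (2 * k) → ℤ) (t : Fin (2 * k) → ℝ),
      (fun t => pb c (sh lam' t) (aff κ A c0 q) (D u) (D v)) (t + fun j => (n j : ℝ)) =
      (fun t => pb c (sh lam' t) (aff κ A c0 q) (D u) (D v)) t := by
    intro n t
    show pb c (sh lam' (t + fun j => (n j : ℝ))) (aff κ A c0 q) (D u) (D v) = _
    rw [pb_sh_add_int hL' hp t n hκ]
  rw [← cube_lin hcont hper m h.det]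
  refine integral_congr_ae (Filter.Eventually.of_forall fun t => ?_)
  show pb (pb c (aff κ A c0)) (sh lam t) q u v = _
  rw [key t, pb_apply]

end Pool.Agent.FBT
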