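import Pool.Agent.FBT.SchA

/-!
# FBT/SchB: the Schur complement of a J-invariant form

PROOF PLAN.  `horP_I`: `c (i h) (0, η) = c (i h) (i (0, - i η)) = c h (0, - i η) = 0` for `h = horP c u` (`hj`,
`horP_spec`; `Complex.I • Complex.I • η = - η`), and `i h = (i u, _)`, so `eq_horP` applies.
`schur_J`, `schur_semi`: from `horP_I` and `schur_apply`.  `schur_pos`: nondegenerate: if `c (0, ξ) (0, η) = 0` for
all `η`, take `η = i ξ`; positivity: `horP c u = (u, _) ≠ 0` for `u ≠ 0`.
`fib_pos`: `g v w = c v (i w)` is symmetric (`c v (i w) = c (i v) (i i w) = - c (i v) w = c w (i v)`), positive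
semidefinite, so `g ξ ξ = 0` implies `g ξ η = 0` for all `η` (Cauchy-Schwarz: expand `0 ≤ g (s ξ + η) (s ξ + η)` for all
real `s`), hence `c (0, ξ) (0, η) = 0` for all `η`, and `ξ = 0` by `nonDeg_iff`.
-/

set_option autoImplicit false

noncomputable section

namespace Pool.Agent.FBT

open Pool.Agent.FBR

variable {F : Type*} [NormedAddCommGroup F] [NormedSpace ℂ F] {k : ℕ}
  {c : Bil (F × (Fin k → ℂ))}

private theorem SchB_cs {G : Type*} [NormedAddCommGroup G] [NormedSpace ℂ G] {c : Bil G}
    (ha : AltB c) (hj : JInv c) (hs : SemiB c) {v : G} (hv : c v (Complex.I • v) = 0) (w : G) :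
    c v w = 0 := by
  have anti : ∀ a b : G, c a b = - c b a := by
    intro a b
    have h := ha (a + b)
    simp only [map_add, ContinuousLinearMap.add_apply, ha a, ha b] at h
    linarith
  have hI : ∀ a : G, Complex.I • Complex.I • a = -a := by
    intro a
    rw [smul_smul, Complex.I_mul_I, neg_smul, one_smul]
  have key : ∀ w' : G, c v (Complex.I • w') = 0 := by
    intro w'
    have hsym : c w' (Complex.I • v) = c v (Complex.I • w') := by
      have h1 := hj v (Complex.I • w')
      rw [hI, map_neg] at h1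
      rw [← h1, anti (Complex.I • v) w', neg_neg]
    have hq : ∀ s : ℝ, 0 ≤ 2 * s * c v (Complex.I • w') + c w' (Complex.I • w') := by
      intro s
      have h2 := hs (s • v + w')
      have h3 : Complex.I • (s • v + w') = s • (Complex.I • v) + Complex.I • w' := by
        rw [smul_add, smul_comm]
      rw [h3] at h2
      simp only [map_add, map_smul, ContinuousLinearMap.add_apply, ContinuousLinearMap.smul_apply,
        smul_eq_mul, hv, hsym] at h2
      linarith
    by_contra hne
    have h4 := hq (-(c w' (Complex.I • w') + 1) / (2 * c v (Complex.I • w')))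
    have h5 : 2 * (-(c w' (Complex.I • w') + 1) / (2 * c v (Complex.I • w'))) *
        c v (Complex.I • w') = -(c w' (Complex.I • w') + 1) := by
      field_simp
    linarith
  have h6 := key (-(Complex.I • w))
  rwa [smul_neg, hI, neg_neg] at h6

theorem horP_I (hj : JInv c) (h : NonDeg c) (u : F) :
    horP c (Complex.I • u) = Complex.I • horP c u := by
  have h1 : Complex.I • horP c u = (Complex.I • u, Complex.I • (-projP c u)) := by
    rw [horP_apply]
    rfl
  rw [h1]
  refine (eq_horP h ?_).symm
  intro η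
  have h3 : ((0 : F), η) = Complex.I • ((0 : F), -(Complex.I • η)) := by
    refine Prod.ext ?_ ?_
    · simp
    · show η = Complex.I • -(Complex.I • η)
      rw [smul_neg, smul_smul, Complex.I_mul_I, neg_smul, one_smul, neg_neg]
  rw [← h1, h3, hj, horP_spec h]

theorem schur_J (hj : JInv c) (h : NonDeg c) : JInv (schur c) := by
  intro u v
  rw [schur_apply, schur_apply, horP_I hj h, horP_I hj h, hj]

theorem schur_semi (hj : JInv c) (h : NonDeg c) (hs : SemiB c) : SemiB (schur c) := by
  intro v
  rw [schur_apply, horP_I hj h]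
  exact hs _

theorem nonDeg_of_pos (hp : PosB c) : NonDeg c := by
  rw [nonDeg_iff]
  intro ξ hξ
  by_contra hne
  have h1 : ((0 : F), ξ) ≠ 0 := fun h => hne (congrArg Prod.snd h)
  have h2 := hp _ h1
  have h3 : Complex.I • ((0 : F), ξ) = ((0 : F), Complex.I • ξ) := by
    refine Prod.ext ?_ rfl
    simp
  rw [h3, hξ] at h2
  exact lt_irrefl _ h2

theorem schur_pos (hj : JInv c) (hp : PosB c) : PosB (schur c) := by
  intro v hv
  rw [schur_apply, horP_I hj (nonDeg_of_pos hp)]
  refine hp _ ?_
  rw [horP_apply]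
  exact fun h => hv (congrArg Prod.fst h)

theorem fib_pos (ha : AltB c) (hj : JInv c) (hs : SemiB c) (h : NonDeg c) {ξ : Fin k → ℂ}
    (hξ : ξ ≠ 0) : 0 < c (0, ξ) (0, Complex.I • ξ) := by
  have h3 : ((0 : F), Complex.I • ξ) = Complex.I • ((0 : F), ξ) := by
    refine Prod.ext ?_ rfl
    simp
  rw [h3]
  refine lt_of_le_of_ne (hs _) ?_
  intro h0
  refine hξ ((nonDeg_iff c).1 h ξ ?_)
  intro η
  exact SchB_cs ha hj hs h0.symm _

end Pool.Agent.FBT
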