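import Pool.Agent.FBT.SchA

/-!
# FBT/SchC: the Schur complement of a closed form with coefficients depending on the base only

`g y` is the form on `F × P` in flat coordinates; `hcl` says that the form `g` on `V × P` is closed.

PROOF PLAN.  `Q y := projP (g y) = (fibP (g y)).inverse ∘L mixP (g y)` is smooth on `V`
(`ContinuousLinearMap.IsInvertible.contDiffAt_map_inverse`; `fibP`, `mixP` are continuous linear in `g y`:
`bilinearComp` with fixed maps), hence `schur (g y)` is smooth.  Differentiate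
`g y (0, Q y u) (0, η) = g y (u, 0) (0, η)` (`projP_spec`) in the direction `w`: with `hcl` for `(w,0), (0,ξ), (0,η)`
the derivative of the fibre part vanishes, and `hcl` for `(w,0), (u,0), (0,η)` with `alt` gives
`Dg(w)(u,0)(0,η) = Dg(u)(w,0)(0,η)`; so `g y (0, DQ(w) u) (0, η) = g y (0, DQ(u) w) (0, η)` for all `η`, hence
`DQ(w) u = DQ(u) w` (`nonDeg_iff`).  By `schur_eq`, `D(schur)(u) v w = Dg(u)(v,0)(w,0) - g(0,DQ(u)v)(0,Qw) - g(0,Qv)(0,DQ(u)w)`;
in the cyclic sum the first terms give 0 by `hcl` and the others cancel by symmetry of `DQ` and skew symmetry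
of `g y`.  (`alt` for the derivative: `fderiv ℝ g y u W W = 0` since `g · W W = 0` on the open set `V`.)
-/

set_option autoImplicit false

noncomputable section

open scoped ContDiff Topology

namespace Pool.Agent.FBT

open Pool.Agent.FBR

variable {F P : Type*} [NormedAddCommGroup F] [NormedSpace ℝ F] [NormedAddCommGroup P]
  [NormedSpace ℝ P] [FiniteDimensional ℝ P] {V : Set F} {g : F → Bil (F × P)}

private theorem schc_flip {G₁ G₂ : Type*} [NormedAddCommGroup G₁] [NormedSpace ℝ G₁]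
    [NormedAddCommGroup G₂] [NormedSpace ℝ G₂] :
    ContDiff ℝ ∞ (fun f : G₁ →L[ℝ] G₂ →L[ℝ] ℝ => f.flip) := by
  have h : IsBoundedLinearMap ℝ (fun f : G₁ →L[ℝ] G₂ →L[ℝ] ℝ => f.flip) :=
    { map_add := fun f g => ContinuousLinearMap.flip_add f g
      map_smul := fun c f => ContinuousLinearMap.flip_smul c f
      bound := ⟨1, one_pos, fun f => by rw [ContinuousLinearMap.opNorm_flip, one_mul]⟩ }
  exact h.contDiff

private theorem schc_bil {H G₁ G₂ G₃ G₄ : Type*} [NormedAddCommGroup H] [NormedSpace ℝ H]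
    [NormedAddCommGroup G₁] [NormedSpace ℝ G₁] [NormedAddCommGroup G₂] [NormedSpace ℝ G₂]
    [NormedAddCommGroup G₃] [NormedSpace ℝ G₃] [NormedAddCommGroup G₄] [NormedSpace ℝ G₄]
    {s : Set H} {c : H → G₁ →L[ℝ] G₂ →L[ℝ] ℝ} {a : H → G₃ →L[ℝ] G₁} {b : H → G₄ →L[ℝ] G₂}
    (hc : ContDiffOn ℝ ∞ c s) (ha : ContDiffOn ℝ ∞ a s) (hb : ContDiffOn ℝ ∞ b s) :
    ContDiffOn ℝ ∞ (fun y => (c y).bilinearComp (a y) (b y)) s := by
  have h1 : ContDiffOn ℝ ∞ (fun y => (c y).comp (a y)) s := hc.clm_comp ha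
  have h2 : ContDiffOn ℝ ∞ (fun y => ((c y).comp (a y)).flip) s :=
    schc_flip.comp_contDiffOn h1
  have h3 : ContDiffOn ℝ ∞ (fun y => (((c y).comp (a y)).flip).comp (b y)) s := h2.clm_comp hb
  exact schc_flip.comp_contDiffOn h3

theorem schur_contDiff (hV : IsOpen V) (hg : ContDiffOn ℝ ∞ g V) (hn : ∀ y ∈ V, NonDeg (g y)) :
    ContDiffOn ℝ ∞ (fun y => projP (g y)) V ∧ ContDiffOn ℝ ∞ (fun y => schur (g y)) V := by
  have : CompleteSpace P := FiniteDimensional.complete ℝ P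
  have h1 : ContDiffOn ℝ ∞ (fun y => fibP (g y)) V :=
    schc_bil hg contDiffOn_const contDiffOn_const
  have h2 : ContDiffOn ℝ ∞ (fun y => mixP (g y)) V :=
    schc_bil hg contDiffOn_const contDiffOn_const
  have h3 : ContDiffOn ℝ ∞ (fun y => (fibP (g y)).inverse) V := by
    intro y hy
    exact (ContinuousLinearMap.IsInvertible.contDiffAt_map_inverse
      (hn y hy)).comp_contDiffWithinAt y (h1 y hy)
  have h4 : ContDiffOn ℝ ∞ (fun y => projP (g y)) V := h3.clm_comp h2
  refine ⟨h4, ?_⟩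
  have h5 : ContDiffOn ℝ ∞ (fun y => horP (g y)) V := by
    have h6 : (fun y => horP (g y)) = fun y =>
        ContinuousLinearMap.inl ℝ F P - (ContinuousLinearMap.inr ℝ F P).comp (projP (g y)) := by
      funext y
      ext u <;> simp [horP]
    rw [h6]
    exact contDiffOn_const.sub (contDiffOn_const.clm_comp h4)
  exact schc_bil hg h5 h5

private theorem schc_diff {G : Type*} [NormedAddCommGroup G] [NormedSpace ℝ G] {f : F → G}
    (hV : IsOpen V) (hf : ContDiffOn ℝ ∞ f V) {y : F} (hy : y ∈ V) :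
    HasFDerivAt f (fderiv ℝ f y) y :=
  ((hf.contDiffAt (hV.mem_nhds hy)).differentiableAt (by simp)).hasFDerivAt

private theorem schc_const {G : Type*} [NormedAddCommGroup G] [NormedSpace ℝ G] {c : F → Bil G}
    {c' : F →L[ℝ] Bil G} {y : F} (hc : HasFDerivAt c c' y) (X Y : G) :
    ∃ L : F →L[ℝ] ℝ, HasFDerivAt (fun y => c y X Y) L y ∧ ∀ u, L u = c' u X Y := by
  refine ⟨_, (hc.clm_apply (hasFDerivAt_const X y)).clm_apply (hasFDerivAt_const Y y), ?_⟩
  intro u
  simp

private theorem schc_skew (hV : IsOpen V) (hg : ContDiffOn ℝ ∞ g V) (ha : ∀ y ∈ V, AltB (g y))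
    {y : F} (hy : y ∈ V) (u : F) (X Y : F × P) :
    fderiv ℝ g y u X Y = - fderiv ℝ g y u Y X := by
  have h0 : ∀ W : F × P, fderiv ℝ g y u W W = 0 := by
    intro W
    obtain ⟨L, hL, hL'⟩ := schc_const (schc_diff hV hg hy) W W
    have h1 : (fun y => g y W W) =ᶠ[𝓝 y] fun _ => (0 : ℝ) := by
      filter_upwards [hV.mem_nhds hy] with z hz
      exact ha z hz W
    have h2 : HasFDerivAt (fun _ : F => (0 : ℝ)) L y := hL.congr_of_eventuallyEq h1.symm
    have h3 : L = 0 := h2.unique (hasFDerivAt_const 0 y)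
    rw [← hL' u, h3]
    rfl
  have h1 := h0 (X + Y)
  simp only [map_add, _root_.add_apply, h0 X, h0 Y] at h1
  linarith

private theorem schc_fib (hcl : ∀ y ∈ V, ∀ X Y Z : F × P,
      fderiv ℝ g y X.1 Y Z + fderiv ℝ g y Y.1 Z X + fderiv ℝ g y Z.1 X Y = 0)
    {y : F} (hy : y ∈ V) (w : F) (ξ η : P) : fderiv ℝ g y w (0, ξ) (0, η) = 0 := by
  have h := hcl y hy (w, 0) (0, ξ) (0, η)
  simpa using h

private theorem schc_key (hV : IsOpen V) (hg : ContDiffOn ℝ ∞ g V)
    (hn : ∀ y ∈ V, NonDeg (g y))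
    (hcl : ∀ y ∈ V, ∀ X Y Z : F × P,
      fderiv ℝ g y X.1 Y Z + fderiv ℝ g y Y.1 Z X + fderiv ℝ g y Z.1 X Y = 0)
    {y : F} (hy : y ∈ V) (w u : F) (η : P) :
    g y (0, fderiv ℝ (fun y => projP (g y)) y w u) (0, η) = fderiv ℝ g y w (u, 0) (0, η) := by
  have hQ := schc_diff hV (schur_contDiff hV hg hn).1 hy
  have hgd := schc_diff hV hg hy
  have hQu : HasFDerivAt (fun y => ContinuousLinearMap.inr ℝ F P (projP (g y) u)) _ y :=
    (ContinuousLinearMap.inr ℝ F P).hasFDerivAt.comp y (hQ.clm_apply (hasFDerivAt_const u y))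
  have h1 := (hgd.clm_apply hQu).clm_apply (hasFDerivAt_const ((0 : F), η) y)
  obtain ⟨L, hL, hL'⟩ := schc_const hgd ((u, 0) : F × P) (0, η)
  have h2 : (fun y => g y (ContinuousLinearMap.inr ℝ F P (projP (g y) u)) ((0 : F), η)) =ᶠ[𝓝 y]
      fun y => g y (u, 0) (0, η) := by
    filter_upwards [hV.mem_nhds hy] with z hz
    exact projP_spec (hn z hz) u η
  have h3 := (hL.congr_of_eventuallyEq h2).unique h1
  have h4 := congrArg (fun T : F →L[ℝ] ℝ => T w) h3
  simp only [hL' w] at h4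
  have h5 := schc_fib hcl hy w (projP (g y) u) η
  simp [h5] at h4
  exact h4.symm

theorem projP_symm (hV : IsOpen V) (hg : ContDiffOn ℝ ∞ g V) (ha : ∀ y ∈ V, AltB (g y))
    (hn : ∀ y ∈ V, NonDeg (g y))
    (hcl : ∀ y ∈ V, ∀ X Y Z : F × P,
      fderiv ℝ g y X.1 Y Z + fderiv ℝ g y Y.1 Z X + fderiv ℝ g y Z.1 X Y = 0)
    {y : F} (hy : y ∈ V) (u w : F) :
    fderiv ℝ (fun y => projP (g y)) y u w = fderiv ℝ (fun y => projP (g y)) y w u := by
  rw [← sub_eq_zero]
  refine (nonDeg_iff (g y)).1 (hn y hy) _ fun η => ?_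
  have h1 := schc_key hV hg hn hcl hy u w η
  have h2 := schc_key hV hg hn hcl hy w u η
  have h3 := hcl y hy (w, 0) (u, 0) (0, η)
  simp only [map_zero, _root_.zero_apply, add_zero] at h3
  have h4 := schc_skew hV hg ha hy u (0, η) (w, 0)
  have h5 : ((0 : F), fderiv ℝ (fun y => projP (g y)) y u w - fderiv ℝ (fun y => projP (g y)) y w u)
      = ((0 : F), fderiv ℝ (fun y => projP (g y)) y u w) -
        ((0 : F), fderiv ℝ (fun y => projP (g y)) y w u) := by
    rw [Prod.mk_sub_mk, sub_zero]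
  rw [h5, map_sub, _root_.sub_apply, h1, h2]
  linarith

theorem schur_closed (hV : IsOpen V) (hg : ContDiffOn ℝ ∞ g V) (ha : ∀ y ∈ V, AltB (g y))
    (hn : ∀ y ∈ V, NonDeg (g y))
    (hcl : ∀ y ∈ V, ∀ X Y Z : F × P,
      fderiv ℝ g y X.1 Y Z + fderiv ℝ g y Y.1 Z X + fderiv ℝ g y Z.1 X Y = 0)
    {y : F} (hy : y ∈ V) : Closed2 (fun y => schur (g y)) y := by
  obtain ⟨hQc, hSc⟩ := schur_contDiff hV hg hn
  have hQ := schc_diff hV hQc hy
  have hS := schc_diff hV hSc hy
  have hgd := schc_diff hV hg hy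
  have key : ∀ u v w : F, fderiv ℝ (fun y => schur (g y)) y u v w =
      fderiv ℝ g y u (v, 0) (w, 0) -
        (g y (0, fderiv ℝ (fun y => projP (g y)) y u v) (0, projP (g y) w) +
          g y (0, projP (g y) v) (0, fderiv ℝ (fun y => projP (g y)) y u w)) := by
    intro u v w
    obtain ⟨L, hL, hL'⟩ := schc_const hS v w
    obtain ⟨M, hM, hM'⟩ := schc_const hgd ((v, 0) : F × P) (w, 0)
    have hQv : ∀ v : F, HasFDerivAt (fun y => ContinuousLinearMap.inr ℝ F P (projP (g y) v)) _ y :=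
      fun v => (ContinuousLinearMap.inr ℝ F P).hasFDerivAt.comp y
        (hQ.clm_apply (hasFDerivAt_const v y))
    have h1 := (hgd.clm_apply (hQv v)).clm_apply (hQv w)
    have h2 : (fun y => schur (g y) v w) =ᶠ[𝓝 y] fun y => g y (v, 0) (w, 0) -
        g y (ContinuousLinearMap.inr ℝ F P (projP (g y) v))
          (ContinuousLinearMap.inr ℝ F P (projP (g y) w)) := by
      filter_upwards [hV.mem_nhds hy] with z hz
      exact schur_eq (ha z hz) (hn z hz) v w
    have h3 := hL.unique ((hM.sub h1).congr_of_eventuallyEq h2)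
    have h4 := congrArg (fun T : F →L[ℝ] ℝ => T u) h3
    simp only [hL' u] at h4
    have h5 := schc_fib hcl hy u (projP (g y) v) (projP (g y) w)
    rw [h4]
    simp [hM' u, h5]
    ring
  intro u v w
  rw [key u v w, key v w u, key w u v]
  have h1 := hcl y hy (u, 0) (v, 0) (w, 0)
  simp only at h1
  have hsk : ∀ X Y : F × P, g y X Y = - g y Y X := by
    intro X Y
    have h2 := ha y hy (X + Y)
    simp only [map_add, _root_.add_apply, ha y hy X, ha y hy Y] at h2
    linarith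
  rw [projP_symm hV hg ha hn hcl hy v u, projP_symm hV hg ha hn hcl hy w u,
    projP_symm hV hg ha hn hcl hy w v]
  rw [hsk (0, projP (g y) v) (0, fderiv ℝ (fun y => projP (g y)) y u w),
    hsk (0, projP (g y) w) (0, fderiv ℝ (fun y => projP (g y)) y u v),
    hsk (0, projP (g y) u) (0, fderiv ℝ (fun y => projP (g y)) y v w)]
  linarith

end Pool.Agent.FBT
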