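import Pool.Agent.FBT.Flat
import Pool.Agent.FBT.SchB
import Pool.Agent.FBT.SchC

/-!
# FBT/Base: the form induced on the base by an invariant form (local version)

PROOF PLAN.  `schur_flat`: `schur_comp`/`nonDeg_comp` for `L = flatL lam y` (`κ = id`, `B = 0`, `A = frm lam y`, bijective).
`base_form`: `schur (c (y, 0)) = schur (flatG lam c y)` on `V`; `schur_contDiff`, `schur_closed` with `flatG_smooth`,
`flatG_closed`.  `schur_vert`: `q = sh lam s (q.1, 0)` with `frm lam q.1 s = q.2`;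
`c (q.1, 0) = pb c (sh lam s) (q.1, 0) = (c q).bilinearComp D D`, `D (u, ξ) = (u, B u + ξ)` (`fderiv_sh`), then `schur_comp`,
`nonDeg_comp`.  `nonDeg_near`: on a ball around `y` inside `V` the fibre part in the flat frame is constant
(`flatG_fib`), and `NonDeg (c (y', 0)) ↔ NonDeg (flatG lam c y')` (`nonDeg_iff`, `schur_flat`).
-/

set_option autoImplicit false

noncomputable section

open scoped Manifold ContDiff Topology

namespace Pool.Agent.FBT

open Pool.Agent.FBR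

universe u

variable {F : Type u} [NormedAddCommGroup F] [NormedSpace ℂ F] {k : ℕ} {V : Set F}
  {lam : Fin (2 * k) → F → (Fin k → ℂ)} {c : F × (Fin k → ℂ) → Bil (F × (Fin k → ℂ))}

theorem nonDeg_flat (hL : Lat V lam) {y : F} (hy : y ∈ V) :
    NonDeg (flatG lam c y) ↔ NonDeg (c (y, 0)) :=
  nonDeg_comp (c (y, 0)) (ContinuousLinearMap.id ℝ F) 0 (frm lam y) (frm_bij hL hy) (flatL lam y)
    (fun u ξ => by simp [flatL])

theorem schur_flat (hL : Lat V lam) {y : F} (hy : y ∈ V) (h : NonDeg (c (y, 0))) :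
    schur (flatG lam c y) = schur (c (y, 0)) := by
  have h1 := schur_comp (c (y, 0)) (ContinuousLinearMap.id ℝ F) 0 (frm lam y) (frm_bij hL hy)
    (flatL lam y) (fun u ξ => by simp [flatL]) h
  refine Eq.trans h1 ?_
  ext u v
  rfl

theorem base_form (hL : Lat V lam) (hc : LForm V c) (hs : SInv V lam c)
    (hn : ∀ y ∈ V, NonDeg (c (y, 0))) :
    ContDiffOn ℝ ∞ (fun y => schur (c (y, 0))) V ∧
      ∀ y ∈ V, Closed2 (fun y => schur (c (y, 0))) y := by
  have hg := flatG_smooth hL hc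
  have hn' : ∀ y ∈ V, NonDeg (flatG lam c y) := fun y hy => (nonDeg_flat hL hy).2 (hn y hy)
  have ha : ∀ y ∈ V, AltB (flatG lam c y) := fun y hy v => hc.alt (y, 0) hy _
  have h1 := (schur_contDiff hL.isOpen hg hn').2
  have hEq : ∀ y ∈ V, schur (flatG lam c y) = schur (c (y, 0)) :=
    fun y hy => schur_flat hL hy (hn y hy)
  refine ⟨h1.congr fun y hy => (hEq y hy).symm, fun y hy => ?_⟩
  have h2 := schur_closed hL.isOpen hg ha hn'
    (fun y hy X Y Z => flatG_closed hL hc hs hy X Y Z) hy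
  have h3 : (fun y => schur (flatG lam c y)) =ᶠ[𝓝 y] fun y => schur (c (y, 0)) := by
    filter_upwards [hL.isOpen.mem_nhds hy] with z hz using hEq z hz
  intro u v w
  have h4 := h2 u v w
  rw [h3.fderiv_eq] at h4
  exact h4

private theorem Base_vert (hL : Lat V lam) (hs : SInv V lam c) {q : F × (Fin k → ℂ)}
    (hq : q.1 ∈ V) : ∃ (B : F →L[ℝ] (Fin k → ℂ)) (D : F × (Fin k → ℂ) →L[ℝ] F × (Fin k → ℂ)),
      (∀ (u : F) (ξ : Fin k → ℂ), D (u, ξ) = (u, B u + ξ)) ∧
        c (q.1, 0) = (c q).bilinearComp D D := by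
  obtain ⟨s, hs'⟩ := (frm_bij hL hq).2 q.2
  refine ⟨∑ j, s j • fderiv ℝ (lam j) q.1, fderiv ℝ (sh lam s) (q.1, 0), ?_, ?_⟩
  · intro u ξ
    rw [fderiv_sh hL s (q := (q.1, 0)) hq]
    refine Prod.ext rfl ?_
    simp [add_comm]
  · have h1 := hs s (q.1, 0) hq
    have h2 : sh lam s (q.1, 0) = q := by
      refine Prod.ext rfl ?_
      rw [frm_apply] at hs'
      simp [sh, hs']
    unfold pb at h1
    rw [h2] at h1
    exact h1.symm

theorem nonDeg_vert (hL : Lat V lam) (hs : SInv V lam c) {q : F × (Fin k → ℂ)}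
    (hq : q.1 ∈ V) : NonDeg (c q) ↔ NonDeg (c (q.1, 0)) := by
  obtain ⟨B, D, hD, hc⟩ := Base_vert hL hs hq
  rw [hc]
  exact (nonDeg_comp (c q) (ContinuousLinearMap.id ℝ F) B (ContinuousLinearMap.id ℝ (Fin k → ℂ))
    Function.bijective_id D (fun u ξ => hD u ξ)).symm

theorem schur_vert (hL : Lat V lam) (hs : SInv V lam c) {q : F × (Fin k → ℂ)} (hq : q.1 ∈ V)
    (h : NonDeg (c q)) : schur (c (q.1, 0)) = schur (c q) := by
  obtain ⟨B, D, hD, hc⟩ := Base_vert hL hs hq
  rw [hc]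
  have h1 := schur_comp (c q) (ContinuousLinearMap.id ℝ F) B (ContinuousLinearMap.id ℝ (Fin k → ℂ))
    Function.bijective_id D (fun u ξ => hD u ξ) h
  refine Eq.trans h1 ?_
  ext u v
  rfl

theorem nonDeg_near (hL : Lat V lam) (hc : LForm V c) (hs : SInv V lam c) {y : F} (hy : y ∈ V) :
    ∀ᶠ y' in 𝓝 y, NonDeg (c (y', 0)) ↔ NonDeg (c (y, 0)) := by
  obtain ⟨ε, hε, hb⟩ := Metric.isOpen_iff.1 hL.isOpen y hy
  filter_upwards [Metric.ball_mem_nhds y hε] with y' hy'
  rw [← nonDeg_flat hL (hb hy'), ← nonDeg_flat hL hy, nonDeg_iff, nonDeg_iff]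
  have h := fun s r => flatG_fib hL hc hs (convex_ball y ε) Metric.isOpen_ball hb hy'
    (Metric.mem_ball_self hε) s r
  simp only [h]

end Pool.Agent.FBT
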