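import Pool.Agent.FBT.Bav
import Pool.Agent.FBT.Base

/-!
# FBT/BaseG: the form on the base

PROOF PLAN.  Write `av C = avg C.lam (tpb b.val C.Φ)`.  `schur_indep`: for `(chartAt F b₀).symm q.1 = (chartAt F b₀').symm q'.1`,
`schur (av C q) = (schur (av C' q')).bilinearComp κ' κ'` with `κ' = fderiv ℝ (fun y => chartAt F b₀' ((chartAt F b₀).symm y)) q.1`:
choose `z'` with `C'.Φ (q'.1, z') = C.Φ q` (`tc_over`, `C.proj`), `avg_glob` and `schur_comp` for `q, (q'.1, z')`, then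
`schur_vert` (`avg_sinv`) for `(q'.1, z')` and `q'` (both are equal to the value at `(q'.1, 0)`).
`exists_base`: the tensor `hv p := schur (av (tc hπ p) (chartAt F p p, 0))`; `tpb hv (chartAt F b₀).symm q.1 = schur (av C q)`: with
`p = (chartAt F b₀).symm q.1` the left side is by definition `(hv p).bilinearComp κ' κ'`, `κ' = fderiv ℝ (chartAt F p ∘ (chartAt F b₀).symm) q.1`,
use `schur_indep` for `C' = tc hπ p`, `q' = (chartAt F p p, 0)`.  `exists_form` (FBR/MkForm) with `g = (chartAt F b₀).symm`,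
`O = C.V`, `C = tc hπ b₀`, `b₀ = x` (`hol_symm`, `Hol.sm`, `dvec_symm_bij`), `base_form` for the smoothness and
closedness of `y ↦ schur (av C (y, 0))`; alternating: `schur_alt`; J: `schur_J`; Semi: `schur_semi` (`avg_semi`, `avg_form`).
-/

set_option autoImplicit false

noncomputable section

open scoped Manifold ContDiff Topology

namespace Pool.Agent.FBT

open Pool.Agent.FBR

universe u

variable {E X F B : Type u} [NormedAddCommGroup E] [NormedSpace ℂ E] [FiniteDimensional ℂ E]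
  [TopologicalSpace X] [T2Space X] [ChartedSpace E X] [IsManifold 𝓘(ℂ, E) ω X]
  [NormedAddCommGroup F] [NormedSpace ℂ F] [FiniteDimensional ℂ F] [TopologicalSpace B]
  [ChartedSpace F B] [IsManifold 𝓘(ℂ, F) ω B] {π : X → B} {k : ℕ}

theorem schur_indep (b : Form E X) {b₀ b₀' : B} (C : TorusChart E F π k b₀)
    (C' : TorusChart E F π k b₀') {q q' : F × (Fin k → ℂ)} (hq : q.1 ∈ C.V) (hq' : q'.1 ∈ C'.V)
    (h : (chartAt F b₀).symm q.1 = (chartAt F b₀').symm q'.1)
    (hn : NonDeg (avg C'.lam (tpb b.val C'.Φ) q')) :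
    schur (avg C.lam (tpb b.val C.Φ) q) = (schur (avg C'.lam (tpb b.val C'.Φ) q')).bilinearComp
      (fderiv ℝ (fun y => chartAt F b₀' ((chartAt F b₀).symm y)) q.1)
      (fderiv ℝ (fun y => chartAt F b₀' ((chartAt F b₀).symm y)) q.1) := by
  have h0 : π (C.Φ q) = (chartAt F b₀').symm q'.1 := by
    rw [← h]
    exact C.proj q.1 hq q.2
  obtain ⟨z', hz'⟩ := tc_over C' hq' h0
  have hq'' : ((q'.1, z') : F × (Fin k → ℂ)).1 ∈ C'.V := hq'
  obtain ⟨B', A', L, hA', -, hL, -, hav⟩ := avg_glob C C' b hq hq'' hz'.symm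
  have hs : SInv C'.V C'.lam (avg C'.lam (tpb b.val C'.Φ)) :=
    avg_sinv (tc_lat C') (tc_form C' b) (tc_per C' b.val)
  have hn0 : NonDeg (avg C'.lam (tpb b.val C'.Φ) (q'.1, 0)) := (nonDeg_vert (tc_lat C') hs hq').1 hn
  have hn1 : NonDeg (avg C'.lam (tpb b.val C'.Φ) (q'.1, z')) :=
    (nonDeg_vert (tc_lat C') hs hq'').2 hn0
  have h1 : schur (avg C'.lam (tpb b.val C'.Φ) (q'.1, z')) =
      schur (avg C'.lam (tpb b.val C'.Φ) q') :=
    (schur_vert (tc_lat C') hs hq'' hn1).symm.trans (schur_vert (tc_lat C') hs hq' hn)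
  rw [hav, schur_comp _ _ B' A' hA' L hL hn1, h1]

/-- the tensor on the base -/
private def BaseG_hv (hπ : TorusFib E F π k) (b : Form E X) (p : B) : Bil F :=
  schur (avg (tc hπ p).lam (tpb b.val (tc hπ p).Φ) (chartAt F p p, 0))

private theorem BaseG_key (hπ : TorusFib E F π k) (b : Form E X)
    (hn : ∀ (b₀ : B) (C : TorusChart E F π k b₀) (q : F × (Fin k → ℂ)), q.1 ∈ C.V →
      NonDeg (avg C.lam (tpb b.val C.Φ) q)) (b₀ : B) (C : TorusChart E F π k b₀)
    (q : F × (Fin k → ℂ)) (hq : q.1 ∈ C.V) :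
    tpb (BaseG_hv hπ b) (chartAt F b₀).symm q.1 = schur (avg C.lam (tpb b.val C.Φ) q) := by
  have hm : ((chartAt F ((chartAt F b₀).symm q.1) ((chartAt F b₀).symm q.1), 0) :
      F × (Fin k → ℂ)).1 ∈ (tc hπ ((chartAt F b₀).symm q.1)).V :=
    (tc hπ ((chartAt F b₀).symm q.1)).mem
  have h : (chartAt F b₀).symm q.1 = (chartAt F ((chartAt F b₀).symm q.1)).symm
      ((chartAt F ((chartAt F b₀).symm q.1) ((chartAt F b₀).symm q.1), 0) :
        F × (Fin k → ℂ)).1 :=
    ((chartAt F ((chartAt F b₀).symm q.1)).left_inv (mem_chart_source F _)).symm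
  exact (schur_indep b C (tc hπ ((chartAt F b₀).symm q.1)) hq hm h (hn _ _ _ hm)).symm

theorem exists_base (hπ : TorusFib E F π k) (b : Form E X) (hb : b.Semi)
    (hn : ∀ (b₀ : B) (C : TorusChart E F π k b₀) (q : F × (Fin k → ℂ)), q.1 ∈ C.V →
      NonDeg (avg C.lam (tpb b.val C.Φ) q)) :
    ∃ h : Form F B, h.Semi ∧ ∀ (b₀ : B) (C : TorusChart E F π k b₀) (q : F × (Fin k → ℂ)),
      q.1 ∈ C.V →
      tpb h.val (chartAt F b₀).symm q.1 = schur (avg C.lam (tpb b.val C.Φ) q) := by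
  have hmem : ∀ p : B, ((chartAt F p p, 0) : F × (Fin k → ℂ)).1 ∈ (tc hπ p).V :=
    fun p => (tc hπ p).mem
  have hform : ∀ (b₀ : B) (C : TorusChart E F π k b₀),
      LForm C.V (avg C.lam (tpb b.val C.Φ)) := fun b₀ C => avg_form (tc_lat C) (tc_form C b)
  obtain ⟨h, hh⟩ := exists_form (G := F) (BaseG_hv hπ b)
    (fun p v => schur_alt ((hform p (tc hπ p)).alt _ (hmem p)) v)
    (fun p u v => schur_J ((hform p (tc hπ p)).j _ (hmem p)) (hn p (tc hπ p) _ (hmem p)) u v)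
    (fun x => by
      have hbase := base_form (tc_lat (tc hπ x)) (hform x (tc hπ x))
        (avg_sinv (tc_lat (tc hπ x)) (tc_form (tc hπ x) b) (tc_per (tc hπ x) b.val))
        (fun y hy => hn x (tc hπ x) (y, 0) hy)
      have heq : ∀ y ∈ (tc hπ x).V, tpb (BaseG_hv hπ b) (chartAt F x).symm y =
          schur (avg (tc hπ x).lam (tpb b.val (tc hπ x).Φ) (y, 0)) := fun y hy =>
        BaseG_key hπ b hn x (tc hπ x) (y, 0) hy
      refine ⟨(chartAt F x).symm, (tc hπ x).V, (tc hπ x).isOpen,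
        ⟨chartAt F x x, (tc hπ x).mem, (chartAt F x).left_inv (mem_chart_source F x)⟩,
        fun q hq => ⟨(hol_symm ((tc hπ x).sub hq)).sm, dvec_symm_bij ((tc hπ x).sub hq)⟩,
        hbase.1.congr heq, fun y hy u v w => ?_⟩
      have hev : tpb (BaseG_hv hπ b) (chartAt F x).symm =ᶠ[𝓝 y] fun y =>
          schur (avg (tc hπ x).lam (tpb b.val (tc hπ x).Φ) (y, 0)) := by
        filter_upwards [(tc hπ x).isOpen.mem_nhds hy] with y' hy'
        exact heq y' hy'
      rw [hev.fderiv_eq]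
      exact hbase.2 y hy u v w)
  refine ⟨h, fun p v => ?_, fun b₀ C q hq => ?_⟩
  · rw [hh]
    exact schur_semi ((hform p (tc hπ p)).j _ (hmem p)) (hn p (tc hπ p) _ (hmem p))
      (avg_semi (tc_lat (tc hπ p)) (tc_form (tc hπ p) b)
        (fun q hq => tc_semi (tc hπ p) hb q hq) _ (hmem p)) v
  · rw [hh]
    exact BaseG_key hπ b hn b₀ C q hq

end Pool.Agent.FBT
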