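import Pool.Agent.FBT.Trans
import Pool.Agent.FBT.AvgP
import Pool.Agent.FBR.MkForm

/-!
# FBT/Bav: the fibrewise flat average of a form on the total space

PROOF PLAN.  `exists_pt`: `C.surj` at `b₀ = π x` (`mem_chart_source`, `C.mem`).  `tpb_bav`: let `x = C.Φ q`,
`C' = tc hπ (π x)`, `q' = pt hπ x`, so `C'.Φ q' = x = C.Φ q`; `avg_glob` gives `L` with `dvec E C.Φ q = D' ∘ L`,
`D' = dvec E C'.Φ q'` bijective; `tpb (bav ..) C.Φ q u v = bav .. x (D' (L u)) (D' (L v))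
= avg' q' (D'.inverse (D' (L u))) (..) = avg' q' (L u) (L v) = avg q u v`.
(`ContinuousLinearMap.inverse` of a bijective `D'`: it is the coercion of a continuous linear equivalence
`ContinuousLinearEquiv.ofBijective` / `LinearEquiv.ofBijective.toContinuousLinearEquiv`, finite dimension.)
`exists_bav`: `exists_form` (FBR/MkForm) for the tensor `bav hπ b.val` with `g = C.Φ`, `O = C.V ×ˢ univ`, `C = tc hπ (π x)`,
`avg_form` (with `tc_lat`, `tc_form`); `alt_of_par`, `j_of_par` for the pointwise conditions;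
semi-positivity: `avg_semi`, `tc_semi`, surjectivity of `dvec E C.Φ q`, `Hol.smul_I`.
`avg_pos_glob`: choose `z` with `C.Φ (q.1, z) = x0` (`tc_over`), `posAt_iff` at `(q.1, z)`, `avg_pos`.
-/

set_option autoImplicit false

noncomputable section

open scoped Manifold ContDiff Topology

namespace Pool.Agent.FBT

open Pool.Agent.FBR

universe u

variable {E X F B : Type u} [NormedAddCommGroup E] [NormedSpace ℂ E] [FiniteDimensional ℂ E]
  [TopologicalSpace X] [T2Space X] [ChartedSpace E X] [IsManifold 𝓘(ℂ, E) ω X]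
  [NormedAddCommGroup F] [NormedSpace ℂ F] [FiniteDimensional ℂ F] [TopologicalSpace B]
  [ChartedSpace F B] [IsManifold 𝓘(ℂ, F) ω B] {π : X → B} {k : ℕ}

/-- a torus chart at `b₀` -/
def tc (hπ : TorusFib E F π k) (b₀ : B) : TorusChart E F π k b₀ := (hπ.chart b₀).some

omit [FiniteDimensional ℂ E] [T2Space X] [IsManifold 𝓘(ℂ, E) ω X] [FiniteDimensional ℂ F]
  [IsManifold 𝓘(ℂ, F) ω B] in
theorem exists_pt (hπ : TorusFib E F π k) (x : X) :
    ∃ q : F × (Fin k → ℂ), q.1 ∈ (tc hπ (π x)).V ∧ (tc hπ (π x)).Φ q = x := by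
  obtain ⟨z, hz⟩ := (tc hπ (π x)).surj x (mem_chart_source F (π x)) (tc hπ (π x)).mem
  exact ⟨(chartAt F (π x) (π x), z), (tc hπ (π x)).mem, hz⟩

/-- the coordinates of `x` in the torus chart at `π x` -/
def pt (hπ : TorusFib E F π k) (x : X) : F × (Fin k → ℂ) := (exists_pt hπ x).choose

/-- the fibrewise flat average of the tensor `a` -/
def bav (hπ : TorusFib E F π k) (a : X → Bil E) (x : X) : Bil E :=
  (avg (tc hπ (π x)).lam (tpb a (tc hπ (π x)).Φ) (pt hπ x)).bilinearComp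
    (dvec E (tc hπ (π x)).Φ (pt hπ x)).inverse (dvec E (tc hπ (π x)).Φ (pt hπ x)).inverse

/-- the inverse of a bijective continuous linear map between finite dimensional spaces -/
private theorem Bav_inv {G₁ G₂ : Type*} [NormedAddCommGroup G₁] [NormedSpace ℝ G₁]
    [NormedAddCommGroup G₂] [NormedSpace ℝ G₂] [FiniteDimensional ℝ G₁] (D : G₁ →L[ℝ] G₂)
    (hD : Function.Bijective D) (w : G₁) : D.inverse (D w) = w := by
  have : FiniteDimensional ℝ G₂ := Module.Finite.of_surjective (D : G₁ →ₗ[ℝ] G₂) hD.2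
  set e : G₁ ≃L[ℝ] G₂ :=
    (LinearEquiv.ofBijective (D : G₁ →ₗ[ℝ] G₂) hD).toContinuousLinearEquiv with he
  have h1 : (e : G₁ →L[ℝ] G₂) = D := by
    ext v
    rfl
  rw [← h1, ContinuousLinearMap.inverse_equiv]
  exact e.symm_apply_apply w

theorem tpb_bav (hπ : TorusFib E F π k) (b : Form E X) {b₀ : B} (C : TorusChart E F π k b₀)
    {q : F × (Fin k → ℂ)} (hq : q.1 ∈ C.V) :
    tpb (bav hπ b.val) C.Φ q = avg C.lam (tpb b.val C.Φ) q := by
  have hq' : (pt hπ (C.Φ q)).1 ∈ (tc hπ (π (C.Φ q))).V := (exists_pt hπ (C.Φ q)).choose_spec.1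
  have h : C.Φ q = (tc hπ (π (C.Φ q))).Φ (pt hπ (C.Φ q)) :=
    (exists_pt hπ (C.Φ q)).choose_spec.2.symm
  obtain ⟨_, _, L, -, -, -, hL, havg⟩ := avg_glob C (tc hπ (π (C.Φ q))) b hq hq' h
  have : FiniteDimensional ℝ F := FiniteDimensional.complexToReal F
  have hinv := Bav_inv (dvec E (tc hπ (π (C.Φ q))).Φ (pt hπ (C.Φ q)))
    (tc_bij (tc hπ (π (C.Φ q))) hq')
  rw [havg]
  refine ContinuousLinearMap.ext fun u => ContinuousLinearMap.ext fun v => ?_
  rw [tpb_apply, hL]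
  change avg _ _ _ ((dvec E (tc hπ (π (C.Φ q))).Φ (pt hπ (C.Φ q))).inverse
      (dvec E (tc hπ (π (C.Φ q))).Φ (pt hπ (C.Φ q)) (L u)))
    ((dvec E (tc hπ (π (C.Φ q))).Φ (pt hπ (C.Φ q))).inverse
      (dvec E (tc hπ (π (C.Φ q))).Φ (pt hπ (C.Φ q)) (L v))) = _
  rw [hinv, hinv]
  rfl

omit [FiniteDimensional ℂ E] [T2Space X] [IsManifold 𝓘(ℂ, E) ω X] [FiniteDimensional ℂ F]
  [IsManifold 𝓘(ℂ, F) ω B] in
private theorem Bav_ex (hπ : TorusFib E F π k) (x : X) :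
    ∃ (b₀ : B) (C : TorusChart E F π k b₀) (q : F × (Fin k → ℂ)), q.1 ∈ C.V ∧ C.Φ q = x := by
  obtain ⟨q, hq, hx⟩ := exists_pt hπ x
  exact ⟨π x, tc hπ (π x), q, hq, hx⟩

private theorem Bav_form (hπ : TorusFib E F π k) (b : Form E X) :
    ∃ c : Form E X, c.val = bav hπ b.val := by
  have : FiniteDimensional ℝ F := FiniteDimensional.complexToReal F
  refine exists_form (G := F × (Fin k → ℂ)) (bav hπ b.val) ?_ ?_ ?_
  · intro x v
    obtain ⟨b₀, C, q, hq, rfl⟩ := Bav_ex hπ x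
    refine alt_of_par (bav hπ b.val) (tc_bij C hq).2 ?_ v
    intro v
    rw [tpb_bav hπ b C hq]
    exact (avg_form (tc_lat C) (tc_form C b)).alt q hq v
  · intro x u v
    obtain ⟨b₀, C, q, hq, rfl⟩ := Bav_ex hπ x
    refine j_of_par (bav hπ b.val) (tc_hol C hq) (tc_bij C hq).2 ?_ u v
    intro u v
    rw [tpb_bav hπ b C hq]
    exact (avg_form (tc_lat C) (tc_form C b)).j q hq u v
  · intro x
    obtain ⟨b₀, C, q0, hq0, hx⟩ := Bav_ex hπ x
    have hO : IsOpen (C.V ×ˢ (Set.univ : Set (Fin k → ℂ))) := C.isOpen.prod isOpen_univ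
    have hf := avg_form (tc_lat C) (tc_form C b)
    have heq : ∀ q ∈ C.V ×ˢ (Set.univ : Set (Fin k → ℂ)),
        tpb (bav hπ b.val) C.Φ q = avg C.lam (tpb b.val C.Φ) q :=
      fun q hq => tpb_bav hπ b C hq.1
    refine ⟨C.Φ, C.V ×ˢ Set.univ, hO, ⟨q0, ⟨hq0, trivial⟩, hx⟩, ?_, ?_, ?_⟩
    · intro q hq
      exact ⟨(tc_hol C hq.1).sm, tc_bij C hq.1⟩
    · exact hf.smooth.congr heq
    · intro q hq u v w
      have h1 : tpb (bav hπ b.val) C.Φ =ᶠ[𝓝 q] avg C.lam (tpb b.val C.Φ) := by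
        filter_upwards [hO.mem_nhds hq] with p hp
        exact heq p hp
      rw [h1.fderiv_eq]
      exact hf.closed q hq.1 u v w

theorem exists_bav (hπ : TorusFib E F π k) (b : Form E X) (hb : b.Semi) :
    ∃ c : Form E X, c.Semi ∧ ∀ (b₀ : B) (C : TorusChart E F π k b₀) (q : F × (Fin k → ℂ)),
      q.1 ∈ C.V → tpb c.val C.Φ q = avg C.lam (tpb b.val C.Φ) q := by
  obtain ⟨c, hc⟩ := Bav_form hπ b
  have hall : ∀ (b₀ : B) (C : TorusChart E F π k b₀) (q : F × (Fin k → ℂ)),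
      q.1 ∈ C.V → tpb c.val C.Φ q = avg C.lam (tpb b.val C.Φ) q := by
    intro b₀ C q hq
    rw [hc]
    exact tpb_bav hπ b C hq
  refine ⟨c, ?_, hall⟩
  intro x v
  obtain ⟨b₀, C, q, hq, rfl⟩ := Bav_ex hπ x
  obtain ⟨v', rfl⟩ := (tc_bij C hq).2 v
  rw [← (tc_hol C hq).smul_I, ← tpb_apply, hall b₀ C q hq]
  exact avg_semi (tc_lat C) (tc_form C b) (tc_semi C hb) q hq v'

theorem avg_pos_glob {b : Form E X} (hb : b.Semi) {x0 : X} (h0 : b.PosAt x0) {b₀ : B}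
    (C : TorusChart E F π k b₀) {q : F × (Fin k → ℂ)} (hq : q.1 ∈ C.V)
    (h : (chartAt F b₀).symm q.1 = π x0) : PosB (avg C.lam (tpb b.val C.Φ) q) := by
  obtain ⟨z, hz⟩ := tc_over C hq h.symm
  have hq0 : ((q.1, z) : F × (Fin k → ℂ)).1 ∈ C.V := hq
  have h1 : PosB (tpb b.val C.Φ (q.1, z)) := by
    have h2 : b.PosAt (C.Φ (q.1, z)) := by
      rw [hz]
      exact h0
    exact (posAt_iff b (tc_hol C hq0) (tc_bij C hq0)).1 h2
  exact avg_pos (tc_lat C) (tc_form C b) (tc_per C b.val) (tc_semi C hb) hq0 h1 q rfl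

end Pool.Agent.FBT
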