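import Pool.Agent.FBT.Sh
import Pool.Agent.FBR.Tpb

/-!
# FBT/Chart: torus charts: basic facts

PROOF PLAN.  `tc_hol`: `hol_of_contMDiffOn` (the set `C.V ×ˢ univ` is open).  `tc_bij`: `C.bij` and `mfderiv_vec`.
`tc_int`: `C.ker` (`sh C.lam m q = (q.1, q.2 + ∑ m_j • λ_j)`; the real multiple by `(m j : ℝ)` is the integral one,
`Int.cast_smul_eq_zsmul`).  `tc_over`: if `x` lies over the point with the coordinate `y ∈ C.V` then `x = C.Φ (y, z)`:
`C.surj`, `(chartAt F b₀).left_inv/right_inv`, `C.sub`.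
`tpb_congr'`: `EventuallyEq.fderiv_eq` (the same as the private `MkForm_tpb_congr` of FBR/MkForm).
`tc_form`: `tpb_smooth`, `tpb_alt`, `tpb_I`, `tpb_closed` of FBR/Tpb.  `tc_semi`: `tpb_semi`.
`tc_per`: `pb (tpb a C.Φ) (sh m) q = tpb a (C.Φ ∘ sh m) q` (`tpb_comp`, `rfl` for `pb`) and `C.Φ ∘ sh m = C.Φ` near `q`
(`tc_int`).
-/

set_option autoImplicit false

noncomputable section

open scoped Manifold ContDiff Topology

namespace Pool.Agent.FBT

open Pool.Agent.FBR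

universe u

variable {E X F B : Type u} [NormedAddCommGroup E] [NormedSpace ℂ E] [TopologicalSpace X]
  [ChartedSpace E X] [IsManifold 𝓘(ℂ, E) ω X] [NormedAddCommGroup F] [NormedSpace ℂ F]
  [TopologicalSpace B] [ChartedSpace F B] [IsManifold 𝓘(ℂ, F) ω B] {π : X → B} {k : ℕ} {b₀ : B}

omit [IsManifold 𝓘(ℂ, E) ω X] in
theorem tpb_congr' {G : Type*} [NormedAddCommGroup G] [NormedSpace ℝ G] (a : X → Bil E)
    {f f' : G → X} {q : G} (h : f =ᶠ[𝓝 q] f') : tpb a f q = tpb a f' q := by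
  have h1 : f q = f' q := h.eq_of_nhds
  have h2 : fderiv ℝ (chartAt E (f q) ∘ f) q = fderiv ℝ (chartAt E (f' q) ∘ f') q := by
    rw [h1]
    exact Filter.EventuallyEq.fderiv_eq (h.fun_comp (chartAt E (f' q)))
  unfold tpb
  rw [h2, h1]

omit [IsManifold 𝓘(ℂ, E) ω X] in
theorem dvec_congr' {G : Type*} [NormedAddCommGroup G] [NormedSpace ℝ G]
    {f f' : G → X} {q : G} (h : f =ᶠ[𝓝 q] f') : dvec E f q = dvec E f' q := by
  have h1 : f q = f' q := h.eq_of_nhds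
  unfold dvec
  rw [h1]
  exact Filter.EventuallyEq.fderiv_eq (h.fun_comp (chartAt E (f' q)))

omit [IsManifold 𝓘(ℂ, E) ω X] [IsManifold 𝓘(ℂ, F) ω B] in
theorem tc_lat (C : TorusChart E F π k b₀) : Lat C.V C.lam := ⟨C.isOpen, C.lam_hol, C.indep⟩

theorem tc_hol (C : TorusChart E F π k b₀) {q : F × (Fin k → ℂ)} (hq : q.1 ∈ C.V) :
    Hol E C.Φ q :=
  hol_of_contMDiffOn (C.isOpen.prod isOpen_univ) C.hol (Set.mk_mem_prod hq (Set.mem_univ q.2))

theorem tc_bij (C : TorusChart E F π k b₀) {q : F × (Fin k → ℂ)} (hq : q.1 ∈ C.V) :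
    Function.Bijective (dvec E C.Φ q) := by
  have h := C.bij q (Set.mk_mem_prod hq (Set.mem_univ q.2))
  have h1 : (fun v => dvec E C.Φ q v) = fun v => mfderiv 𝓘(ℂ, F × (Fin k → ℂ)) 𝓘(ℂ, E) C.Φ q v :=
    funext fun v => (mfderiv_vec (tc_hol C hq) v).symm
  show Function.Bijective (fun v => dvec E C.Φ q v)
  rw [h1]
  exact h

theorem tc_int (C : TorusChart E F π k b₀) (m : Fin (2 * k) → ℤ) {q : F × (Fin k → ℂ)}
    (hq : q.1 ∈ C.V) : C.Φ (sh C.lam (fun j => (m j : ℝ)) q) = C.Φ q := by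
  symm
  refine (C.ker q.1 hq q.2 _).2 ⟨m, ?_⟩
  congr 1
  exact Finset.sum_congr rfl fun j _ => Int.cast_smul_eq_zsmul ℝ (m j) (C.lam j q.1)

theorem tc_over (C : TorusChart E F π k b₀) {x : X} {y : F} (hy : y ∈ C.V)
    (h : π x = (chartAt F b₀).symm y) : ∃ z : Fin k → ℂ, C.Φ (y, z) = x := by
  have hy' := C.sub hy
  have h1 : π x ∈ (chartAt F b₀).source := by
    rw [h]
    exact (chartAt F b₀).map_target hy'
  have h2 : chartAt F b₀ (π x) = y := by
    rw [h]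
    exact (chartAt F b₀).right_inv hy'
  have h3 := C.surj x h1 (by rw [h2]; exact hy)
  rw [h2] at h3
  exact h3

theorem tc_form (C : TorusChart E F π k b₀) (b : Form E X) : LForm C.V (tpb b.val C.Φ) := by
  have hO : IsOpen (C.V ×ˢ (Set.univ : Set (Fin k → ℂ))) := C.isOpen.prod isOpen_univ
  have hs : ∀ q ∈ C.V ×ˢ (Set.univ : Set (Fin k → ℂ)), Sm E C.Φ q := fun q hq => (tc_hol C hq.1).sm
  refine ⟨tpb_smooth b hO hs, fun q _ v => tpb_alt b C.Φ q v, fun q hq u v => tpb_I b (tc_hol C hq) u v,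
    fun q hq => tpb_closed b hO hs (Set.mk_mem_prod hq (Set.mem_univ q.2))⟩

theorem tc_semi (C : TorusChart E F π k b₀) {b : Form E X} (hb : b.Semi)
    (q : F × (Fin k → ℂ)) (hq : q.1 ∈ C.V) : SemiB (tpb b.val C.Φ q) :=
  fun v => tpb_semi hb (tc_hol C hq) v

theorem tc_per (C : TorusChart E F π k b₀) (a : X → Bil E) :
    Per C.V C.lam (tpb a C.Φ) := by
  intro m q hq
  have hO : IsOpen (C.V ×ˢ (Set.univ : Set (Fin k → ℂ))) := C.isOpen.prod isOpen_univ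
  have hev : (C.Φ ∘ sh C.lam fun j => (m j : ℝ)) =ᶠ[𝓝 q] C.Φ := by
    filter_upwards [hO.mem_nhds (Set.mk_mem_prod hq (Set.mem_univ q.2))] with r hr
    exact tc_int C m hr.1
  have hd : DifferentiableAt ℝ (sh C.lam fun j => (m j : ℝ)) q := by
    have h1 := contDiffOn_sh (tc_lat C)
    have h2 : ContDiffAt ℝ ∞ (fun p : (Fin (2 * k) → ℝ) × (F × (Fin k → ℂ)) => sh C.lam p.1 p.2)
        ((fun j => (m j : ℝ)), q) :=
      h1.contDiffAt ((isOpen_univ.prod hO).mem_nhds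
        (Set.mk_mem_prod (Set.mem_univ _) (Set.mk_mem_prod hq (Set.mem_univ q.2))))
    have h3 : ContDiffAt ℝ ∞ (fun p : F × (Fin k → ℂ) => (((fun j => (m j : ℝ)), p) :
        (Fin (2 * k) → ℝ) × (F × (Fin k → ℂ)))) q := contDiffAt_const.prodMk contDiffAt_id
    exact (h2.comp q h3).differentiableAt (by simp)
  have h4 := tpb_comp a (f := C.Φ) (k := sh C.lam fun j => (m j : ℝ)) (q := q)
    (tc_hol C (q := sh C.lam (fun j => (m j : ℝ)) q) hq).sm hd
  rw [tpb_congr' a hev] at h4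
  exact h4.symm

end Pool.Agent.FBT
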