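import Pool.Agent.FBR.Loc

/-!
# FBT: fibrations by complex tori (part T of FBR): local definitions

`F` is the model space of the base, `V ⊆ F` open, `lam j : F → ℂᵏ` (`j < 2k`) the periods; forms on
`V × ℂᵏ` are functions `c : F × ℂᵏ → Bil (F × ℂᵏ)`.
-/

set_option autoImplicit false

noncomputable section

open scoped Manifold ContDiff
open MeasureTheory

namespace Pool.Agent.FBT

open Pool.Agent.FBR

section General

variable {G H : Type*} [NormedAddCommGroup G] [NormedSpace ℝ G] [NormedAddCommGroup H]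
  [NormedSpace ℝ H]

/-- The pull back of the field of bilinear forms `c` under `f`. -/
def pb (c : H → Bil H) (f : G → H) (q : G) : Bil G :=
  (c (f q)).bilinearComp (fderiv ℝ f q) (fderiv ℝ f q)

/-- `c(v, v) = 0`. -/
def AltB (c : Bil G) : Prop := ∀ v : G, c v v = 0

end General

/-- The half open unit cube. -/
def cube (n : ℕ) : Set (Fin n → ℝ) := Set.univ.pi fun _ => Set.Ico (0 : ℝ) 1

/-- Multiplication by `i` preserves the bilinear form `c`. -/
def JInv {G : Type*} [NormedAddCommGroup G] [NormedSpace ℂ G] (c : Bil G) : Prop :=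
  ∀ u v : G, c (Complex.I • u) (Complex.I • v) = c u v

/-- `c(v, iv) ≥ 0`. -/
def SemiB {G : Type*} [NormedAddCommGroup G] [NormedSpace ℂ G] (c : Bil G) : Prop :=
  ∀ v : G, 0 ≤ c v (Complex.I • v)

/-- `c(v, iv) > 0` for `v ≠ 0`. -/
def PosB {G : Type*} [NormedAddCommGroup G] [NormedSpace ℂ G] (c : Bil G) : Prop :=
  ∀ v : G, v ≠ 0 → 0 < c v (Complex.I • v)

section Local

variable {F : Type*} [NormedAddCommGroup F] [NormedSpace ℂ F] {k : ℕ}

/-- Translation by the flat section with the coordinates `t`: `(y, z) ↦ (y, z + ∑ t_j λ_j(y))`. -/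
def sh (lam : Fin (2 * k) → F → (Fin k → ℂ)) (t : Fin (2 * k) → ℝ) (q : F × (Fin k → ℂ)) :
    F × (Fin k → ℂ) := (q.1, q.2 + ∑ j, t j • lam j q.1)

/-- The flat average of `c` over the translations. -/
def avg (lam : Fin (2 * k) → F → (Fin k → ℂ)) (c : F × (Fin k → ℂ) → Bil (F × (Fin k → ℂ)))
    (q : F × (Fin k → ℂ)) : Bil (F × (Fin k → ℂ)) := ∫ t in cube (2 * k), pb c (sh lam t) q

/-- The periods: holomorphic on the open set `V` and linearly independent over the reals. -/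
structure Lat (V : Set F) (lam : Fin (2 * k) → F → (Fin k → ℂ)) : Prop where
  isOpen : IsOpen V
  hol : ∀ j, ContDiffOn ℂ ω (lam j) V
  indep : ∀ y ∈ V, LinearIndependent ℝ fun j => lam j y

/-- `c` is a closed real `(1,1)`-form on `V × ℂᵏ`. -/
structure LForm (V : Set F) (c : F × (Fin k → ℂ) → Bil (F × (Fin k → ℂ))) : Prop where
  smooth : ContDiffOn ℝ ∞ c (V ×ˢ Set.univ)
  alt : ∀ q : F × (Fin k → ℂ), q.1 ∈ V → AltB (c q)
  j : ∀ q : F × (Fin k → ℂ), q.1 ∈ V → JInv (c q)
  closed : ∀ q : F × (Fin k → ℂ), q.1 ∈ V → Closed2 c q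

/-- `c` is invariant under the translations by the periods. -/
def Per (V : Set F) (lam : Fin (2 * k) → F → (Fin k → ℂ))
    (c : F × (Fin k → ℂ) → Bil (F × (Fin k → ℂ))) : Prop :=
  ∀ (m : Fin (2 * k) → ℤ) (q : F × (Fin k → ℂ)), q.1 ∈ V →
    pb c (sh lam fun j => (m j : ℝ)) q = c q

/-- `c` is invariant under all flat translations. -/
def SInv (V : Set F) (lam : Fin (2 * k) → F → (Fin k → ℂ))
    (c : F × (Fin k → ℂ) → Bil (F × (Fin k → ℂ))) : Prop :=
  ∀ (s : Fin (2 * k) → ℝ) (q : F × (Fin k → ℂ)), q.1 ∈ V → pb c (sh lam s) q = c q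

/-- `(y, z) ↦ (κ y, A(y) z + c(y))` over `W` is an affine change of torus charts, with the integral
matrix `m` on the periods. -/
structure AffTr (V V' W : Set F) (lam lam' : Fin (2 * k) → F → (Fin k → ℂ)) (κ : F → F)
    (A : F → (Fin k → ℂ) →L[ℂ] (Fin k → ℂ)) (c : F → (Fin k → ℂ))
    (m : Matrix (Fin (2 * k)) (Fin (2 * k)) ℤ) : Prop where
  isOpen : IsOpen W
  sub : W ⊆ V
  smκ : ContDiffOn ℂ ∞ κ W
  smA : ContDiffOn ℂ ∞ A W
  smc : ContDiffOn ℂ ∞ c W
  det : IsUnit m.det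
  maps : ∀ y ∈ W, κ y ∈ V'
  bij : ∀ y ∈ W, Function.Bijective (A y)
  per : ∀ y ∈ W, ∀ j, A y (lam j y) = ∑ i, m i j • lam' i (κ y)

/-- the map `(y, z) ↦ (κ y, A(y) z + c(y))` -/
def aff (κ : F → F) (A : F → (Fin k → ℂ) →L[ℂ] (Fin k → ℂ)) (c : F → (Fin k → ℂ))
    (q : F × (Fin k → ℂ)) : F × (Fin k → ℂ) := (κ q.1, A q.1 q.2 + c q.1)

end Local

/-! ### The Schur complement of the fibre part of a bilinear form on `F × P` -/

section Schur

variable {F P : Type*} [NormedAddCommGroup F] [NormedSpace ℝ F] [NormedAddCommGroup P]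
  [NormedSpace ℝ P]

/-- the fibre part `(ξ, η) ↦ c((0, ξ), (0, η))` -/
def fibP (c : Bil (F × P)) : Bil P :=
  c.bilinearComp (ContinuousLinearMap.inr ℝ F P) (ContinuousLinearMap.inr ℝ F P)

/-- the mixed part `(u, η) ↦ c((u, 0), (0, η))` -/
def mixP (c : Bil (F × P)) : F →L[ℝ] P →L[ℝ] ℝ :=
  c.bilinearComp (ContinuousLinearMap.inl ℝ F P) (ContinuousLinearMap.inr ℝ F P)

/-- `P u` is the vector with `c((0, P u), (0, η)) = c((u, 0), (0, η))` for all `η` (if the fibre
part is nondegenerate). -/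
def projP (c : Bil (F × P)) : F →L[ℝ] P := (fibP c).inverse ∘L (mixP c)

/-- the horizontal lift `u ↦ (u, - P u)` -/
def horP (c : Bil (F × P)) : F →L[ℝ] F × P := (ContinuousLinearMap.id ℝ F).prod (-projP c)

/-- the Schur complement of the fibre part -/
def schur (c : Bil (F × P)) : Bil F := c.bilinearComp (horP c) (horP c)

/-- the fibre part is nondegenerate -/
def NonDeg (c : Bil (F × P)) : Prop := (fibP c).IsInvertible

end Schur

end Pool.Agent.FBT
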