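import Pool.Agent.FBT.Liou
import Pool.Agent.FBT.Affn

/-!
# FBT/Fam: the affine change of torus charts depends holomorphically on the base point

PROOF PLAN.  `tc_lift` at `q, q'` gives `O, ψ`.  `W` = open neighbourhood of `q.1` of all `y ∈ C.V` with
`(y, q.2) ∈ O` and `(chartAt F b₀).symm y ∈ (chartAt F b₀').source` (open conditions; at `q.1` the last one holds, since
`(chartAt F b₀).symm q.1 = π (C.Φ q) = π (C'.Φ q') = (chartAt F b₀').symm q'.1`; `C.proj`, `C'.proj`, `C'.sub`).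
`κ y = chartAt F b₀' ((chartAt F b₀).symm y) = (ψ (y, q.2)).1` on `W`, so `κ y ∈ C'.V`, `κ` is `ContDiffOn ℂ ∞`, and
`(chartAt F b₀').symm (κ y) = (chartAt F b₀).symm y`.
`w y := (ψ (y, q.2)).2`; `A y := snd ∘ fderiv ℂ ψ (y, q.2) ∘ inr` (holomorphic: `ContDiffAt.fderiv_right`);
`c y := w y - A y q.2`.  For fixed `y ∈ W` the map `A` of `liou` for `y, κ y` is `A y`: by the formulas of `tc_lift`,
`dvec E C.Φ (y, q.2) (0, ξ) = dvec E C'.Φ (ψ (y, q.2)) (0, A y ξ)`, and injectivity (`tc_bij`).  `affn` with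
`z0 = q.2`, `z0' = w y`: `C.Φ (y, z) = C'.Φ (κ y, w y + A y (z - q.2)) = C'.Φ (κ y, A y z + c y)`.
-/

set_option autoImplicit false

noncomputable section

open scoped Manifold ContDiff Topology

namespace Pool.Agent.FBT

open Pool.Agent.FBR

universe u

variable {E X F B : Type u} [NormedAddCommGroup E] [NormedSpace ℂ E] [FiniteDimensional ℂ E]
  [TopologicalSpace X] [T2Space X] [ChartedSpace E X] [IsManifold 𝓘(ℂ, E) ω X]
  [NormedAddCommGroup F] [NormedSpace ℂ F] [FiniteDimensional ℂ F] [TopologicalSpace B]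
  [ChartedSpace F B] [IsManifold 𝓘(ℂ, F) ω B] {π : X → B} {k : ℕ} {b₀ b₀' : B}

theorem fam (C : TorusChart E F π k b₀) (C' : TorusChart E F π k b₀')
    {q q' : F × (Fin k → ℂ)} (hq : q.1 ∈ C.V) (hq' : q'.1 ∈ C'.V) (h : C.Φ q = C'.Φ q') :
    ∃ (W : Set F) (A : F → (Fin k → ℂ) →L[ℂ] (Fin k → ℂ)) (c : F → (Fin k → ℂ)),
      IsOpen W ∧ q.1 ∈ W ∧ W ⊆ C.V ∧
      ContDiffOn ℂ ∞ (fun y => chartAt F b₀' ((chartAt F b₀).symm y)) W ∧
      ContDiffOn ℂ ∞ A W ∧ ContDiffOn ℂ ∞ c W ∧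
      chartAt F b₀' ((chartAt F b₀).symm q.1) = q'.1 ∧ A q.1 q.2 + c q.1 = q'.2 ∧
      ∀ y ∈ W, chartAt F b₀' ((chartAt F b₀).symm y) ∈ C'.V ∧ Function.Bijective (A y) ∧
        ∀ z : Fin k → ℂ, C.Φ (y, z) =
          C'.Φ (chartAt F b₀' ((chartAt F b₀).symm y), A y z + c y) := by
  obtain ⟨O, ψ, hO, hqO, hψ, hall⟩ := tc_lift C C' hq hq' h
  have hc : Continuous (fun y : F => ((y, q.2) : F × (Fin k → ℂ))) := by fun_prop
  have hcd : ∀ y : F, ContDiffAt ℂ ∞ (fun y : F => ((y, q.2) : F × (Fin k → ℂ))) y := fun y =>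
    contDiffAt_id.prodMk contDiffAt_const
  obtain ⟨W, hWdef⟩ : ∃ W : Set F, W = {y : F | (y, q.2) ∈ O} ∩
      ((chartAt F b₀).target ∩ (chartAt F b₀).symm ⁻¹' (chartAt F b₀').source) := ⟨_, rfl⟩
  have hWo : IsOpen W := by
    rw [hWdef]
    exact (hO.preimage hc).inter
      ((chartAt F b₀).isOpen_inter_preimage_symm (chartAt F b₀').open_source)
  have hWO : ∀ y ∈ W, ((y, q.2) : F × (Fin k → ℂ)) ∈ O := by
    intro y hy
    rw [hWdef] at hy
    exact hy.1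
  have hWs : ∀ y ∈ W, (chartAt F b₀).symm y ∈ (chartAt F b₀').source := by
    intro y hy
    rw [hWdef] at hy
    exact hy.2.2
  have hWV : ∀ y ∈ W, y ∈ C.V := fun y hy => (hall _ (hWO y hy)).1
  have hκ : ∀ y ∈ W, (ψ (y, q.2)).1 = chartAt F b₀' ((chartAt F b₀).symm y) :=
    fun y hy => (hall _ (hWO y hy)).2.2.2.2.1
  have hqW : q.1 ∈ W := by
    rw [hWdef]
    refine ⟨hqO, C.sub hq, ?_⟩
    have h1 : π (C.Φ q) = (chartAt F b₀).symm q.1 := C.proj _ hq q.2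
    have h2 : π (C'.Φ q') = (chartAt F b₀').symm q'.1 := C'.proj _ hq' q'.2
    show (chartAt F b₀).symm q.1 ∈ (chartAt F b₀').source
    rw [← h1, h, h2]
    exact (chartAt F b₀').map_target (C'.sub hq')
  have hψc : ∀ y ∈ W, ContDiffAt ℂ ∞ (fun y : F => ψ (y, q.2)) y := by
    intro y hy
    exact ContDiffAt.comp (g := ψ) (f := fun y : F => ((y, q.2) : F × (Fin k → ℂ))) y
      (hall _ (hWO y hy)).2.2.2.1 (hcd y)
  have hAc : ∀ y ∈ W, ContDiffAt ℂ ∞ (fun y : F => (ContinuousLinearMap.snd ℂ F (Fin k → ℂ)).comp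
      ((fderiv ℂ ψ (y, q.2)).comp (ContinuousLinearMap.inr ℂ F (Fin k → ℂ)))) y := by
    intro y hy
    have h1 : ContDiffAt ℂ ∞ (fderiv ℂ ψ) (y, q.2) :=
      ((hall _ (hWO y hy)).2.2.2.1).fderiv_right (m := ∞) (by simp)
    have h2 : ContDiffAt ℂ ∞ (fun y : F => fderiv ℂ ψ (y, q.2)) y :=
      ContDiffAt.comp (g := fderiv ℂ ψ) (f := fun y : F => ((y, q.2) : F × (Fin k → ℂ))) y h1 (hcd y)
    exact contDiffAt_const.clm_comp (h2.clm_comp contDiffAt_const)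
  refine ⟨W, fun y => (ContinuousLinearMap.snd ℂ F (Fin k → ℂ)).comp
      ((fderiv ℂ ψ (y, q.2)).comp (ContinuousLinearMap.inr ℂ F (Fin k → ℂ))),
    fun y => (ψ (y, q.2)).2 - ((ContinuousLinearMap.snd ℂ F (Fin k → ℂ)).comp
      ((fderiv ℂ ψ (y, q.2)).comp (ContinuousLinearMap.inr ℂ F (Fin k → ℂ)))) q.2,
    hWo, hqW, hWV, ?_, ?_, ?_, ?_, ?_, ?_⟩
  · intro y hy
    have h1 : ContDiffAt ℂ ∞ (fun y : F => (ψ (y, q.2)).1) y := (hψc y hy).fst
    refine (h1.congr_of_eventuallyEq ?_).contDiffWithinAt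
    filter_upwards [hWo.mem_nhds hy] with z hz
    exact (hκ z hz).symm
  · intro y hy
    exact (hAc y hy).contDiffWithinAt
  · intro y hy
    exact ((hψc y hy).snd.sub ((hAc y hy).clm_apply contDiffAt_const)).contDiffWithinAt
  · rw [← hκ _ hqW]
    exact congrArg Prod.fst hψ
  · show _ + ((ψ (q.1, q.2)).2 - _) = q'.2
    rw [add_sub_cancel]
    exact congrArg Prod.snd hψ
  · intro y hy
    obtain ⟨h1, h2, h3, h4, h5, h6, h7⟩ := hall _ (hWO y hy)
    have hκV : chartAt F b₀' ((chartAt F b₀).symm y) ∈ C'.V := by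
      rw [← hκ y hy]
      exact h2
    have hyy : (chartAt F b₀).symm y = (chartAt F b₀').symm (chartAt F b₀' ((chartAt F b₀).symm y)) :=
      ((chartAt F b₀').left_inv (hWs y hy)).symm
    have hψe : ψ (y, q.2) = (chartAt F b₀' ((chartAt F b₀).symm y), (ψ (y, q.2)).2) :=
      Prod.ext (hκ y hy) rfl
    have hΦ : C.Φ (y, q.2) = C'.Φ (chartAt F b₀' ((chartAt F b₀).symm y), (ψ (y, q.2)).2) := by
      rw [← hψe]
      exact h3.symm
    obtain ⟨A0, hbij, hA0⟩ := liou C C' h1 hκV hyy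
    have hAA : (ContinuousLinearMap.snd ℂ F (Fin k → ℂ)).comp
      ((fderiv ℂ ψ (y, q.2)).comp (ContinuousLinearMap.inr ℂ F (Fin k → ℂ))) = A0 := by
      refine ContinuousLinearMap.ext fun ξ => ?_
      have h8 := hA0 _ _ hΦ ξ
      have hlin : fderiv ℝ ψ (y, q.2) (0, ξ) = (0, (fderiv ℂ ψ (y, q.2) (0, ξ)).2) := by
        have h9 : fderiv ℝ ψ (y, q.2) = (fderiv ℂ ψ (y, q.2)).restrictScalars ℝ :=
          (h4.differentiableAt (by simp)).fderiv_restrictScalars ℝ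
        refine Prod.ext (h7 ξ) ?_
        rw [h9]
        rfl
      have h10 : dvec E C.Φ (y, q.2) (0, ξ) =
          dvec E C'.Φ (ψ (y, q.2)) (fderiv ℝ ψ (y, q.2) (0, ξ)) := by
        rw [h6]
        rfl
      have h11 : dvec E C'.Φ (ψ (y, q.2)) =
          dvec E C'.Φ (chartAt F b₀' ((chartAt F b₀).symm y), (ψ (y, q.2)).2) :=
        congrArg (dvec E C'.Φ) hψe
      rw [h10, hlin, h11] at h8
      have h12 := (tc_bij C' (q := (chartAt F b₀' ((chartAt F b₀).symm y), (ψ (y, q.2)).2)) hκV).1 h8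
      exact (Prod.mk.inj h12).2
    beta_reduce
    rw [hAA]
    refine ⟨hκV, hbij, fun z => ?_⟩
    have h13 := affn C C' h1 hκV hyy hA0 hΦ z
    rw [h13]
    congr 2
    rw [map_sub]
    abel

end Pool.Agent.FBT
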