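import Pool.Agent.FBT.Bav
import Pool.Agent.FBN.Defs

/-!
# FBT/Fibn: a fibration by complex tori is a submersion with connected fibres of dimension k
-/

set_option autoImplicit false

noncomputable section

open scoped Manifold ContDiff Topology

namespace Pool.Agent.FBT

open Pool.Agent.FBR

universe u

theorem torus_fibn (M B : CM.{u}) (π : M.X → B.X) (k : ℕ) (hπ : TorusFib M.E B.E π k) :
    FBN.Fibn M.E B.E π k where
  hol := hπ.hol
  subm := by
    intro x
    set C := FBT.tc hπ (π x) with hC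
    obtain ⟨q, hq, hqx⟩ := exists_pt hπ x
    rw [← hC] at hq hqx
    have hHol : Hol M.E C.Φ q := tc_hol C hq
    have hcomp : (π ∘ C.Φ) =ᶠ[𝓝 q] ((chartAt B.E (π x)).symm ∘ Prod.fst) := by
      have ho : IsOpen (C.V ×ˢ (Set.univ : Set (Fin k → ℂ))) := C.isOpen.prod isOpen_univ
      filter_upwards [ho.mem_nhds (Set.mk_mem_prod hq (Set.mem_univ q.2))] with r hr
      exact C.proj r.1 hr.1 r.2
    have hy : q.1 ∈ (chartAt B.E (π x)).target := C.sub hq
    intro u
    obtain ⟨w, hw⟩ := (dvec_symm_bij hy).2 (show B.E from u)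
    refine ⟨dvec M.E C.Φ q (w, 0), ?_⟩
    have h1 : dvec B.E (π ∘ C.Φ) q (w, 0) = dmap M.E B.E π x (dvec M.E C.Φ q (w, 0)) := by
      rw [dvec_holo hπ.hol hHol.sm, ContinuousLinearMap.comp_apply, hqx]
    have h2 : dvec B.E (π ∘ C.Φ) q (w, 0) = dvec B.E (chartAt B.E (π x)).symm q.1 w := by
      rw [dvec_congr' hcomp, dvec_comp (f := (chartAt B.E (π x)).symm) (k := Prod.fst)
        (hol_symm hy).sm differentiableAt_fst, ContinuousLinearMap.comp_apply]
      congr 1
      rw [fderiv_fst]
      rfl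
    have h3 := dmap_eq hπ.hol x (dvec M.E C.Φ q (w, 0))
    rw [← h3, ← h1, h2, hw]
  dim := by
    obtain ⟨x⟩ : Nonempty M.X := inferInstance
    set C := FBT.tc hπ (π x) with hC
    obtain ⟨q, hq, hqx⟩ := exists_pt hπ x
    rw [← hC] at hq hqx
    have hb := C.bij q ⟨hq, Set.mem_univ _⟩
    let L : (B.E × (Fin k → ℂ)) →L[ℂ] M.E :=
      mfderiv 𝓘(ℂ, B.E × (Fin k → ℂ)) 𝓘(ℂ, M.E) C.Φ q
    have hL : Function.Bijective L.toLinearMap := hb
    have e := LinearEquiv.ofBijective L.toLinearMap hL
    have h1 : Module.finrank ℂ (B.E × (Fin k → ℂ)) = Module.finrank ℂ M.E := e.finrank_eq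
    rw [← h1, Module.finrank_prod, Module.finrank_fin_fun]
  conn := by
    intro b
    set C := FBT.tc hπ b with hC
    have hy : chartAt B.E b b ∈ C.V := C.mem
    have hsymm : (chartAt B.E b).symm (chartAt B.E b b) = b :=
      (chartAt B.E b).left_inv (mem_chart_source B.E b)
    have himg : π ⁻¹' {b} = (fun z : Fin k → ℂ => C.Φ (chartAt B.E b b, z)) '' Set.univ := by
      ext x
      constructor
      · intro hx
        obtain ⟨z, hz⟩ := tc_over C hy (x := x) (by rw [hsymm]; exact hx)
        exact ⟨z, Set.mem_univ _, hz⟩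
      · rintro ⟨z, -, rfl⟩
        show π (C.Φ (chartAt B.E b b, z)) = b
        rw [C.proj _ hy z, hsymm]
    rw [himg]
    refine isConnected_univ.image _ ?_
    refine Continuous.continuousOn ?_
    rw [continuous_iff_continuousAt]
    intro z
    have h1 : ContinuousAt C.Φ (chartAt B.E b b, z) := (tc_hol C (q := (chartAt B.E b b, z)) hy).1
    exact ContinuousAt.comp (f := fun z : Fin k → ℂ => (chartAt B.E b b, z)) h1
      (Continuous.continuousAt (by fun_prop))

end Pool.Agent.FBT
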