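import Pool.Agent.FBT.NonD
import Pool.Agent.FBT.BaseG
import Pool.Agent.FBR.Cpt

/-!
# FBT/Fin: fibrations by complex tori: conclusion

PROOF PLAN.  `torus_base`: `SemiPos M` gives `b` and `x0`; `nonDeg_all`, `exists_base` give `h`; it is positive at `π x0`: take
`C = tc hπ (π x0)`, `q = pt hπ x0`-like with `C.Φ q = x0` (`exists_pt`), `(chartAt F b₀).symm q.1 = π x0` (`C.proj`); `posAt_iff` for
`g = (chartAt _ b₀).symm` (`hol_symm`, `dvec_symm_bij`), the formula of `exists_base`, `schur_pos` (`avg_form.j`) and `avg_pos_glob`.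
`torus_total`: `c` from `exists_bav`; `Pool.Agent.FBR.fib_pos` (FBR/Cpt) with `b := c`: let `v ≠ 0`, `dmap π x v = 0`; `C`, `q` with
`C.Φ q = x` (`exists_pt`), `v = dvec E C.Φ q w`, `w ≠ 0` (`tc_bij`); `dvec_holo`: `dmap π x (dvec C.Φ q w) = dvec F (π ∘ C.Φ) q w`, and
`π ∘ C.Φ = (chartAt F b₀).symm ∘ Prod.fst` near `q` (`C.proj`), so `0 = dvec F (chartAt F b₀).symm q.1 w.1`, hence `w.1 = 0`
(`dvec_symm_bij`, `C.sub`); `w = (0, ξ)`, `ξ ≠ 0`, and `c.val x v (I • v) = tpb c.val C.Φ q w (I • w) = avg .. q (0, ξ) (0, I • ξ) > 0`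
(`Hol.smul_I`, `Pool.Agent.FBT.fib_pos` with `avg_form`, `avg_semi`, `nonDeg_all`).
-/

set_option autoImplicit false

noncomputable section

open scoped Manifold ContDiff Topology

namespace Pool.Agent.FBT

open Pool.Agent.FBR

universe u

theorem torus_base (M B : CM.{u}) (π : M.X → B.X) (k : ℕ) (hπ : TorusFib M.E B.E π k)
    (h : SemiPos M) : SemiPos B := by
  obtain ⟨b, hb, x0, h0⟩ := h
  obtain ⟨h, hs, he⟩ := exists_base hπ b hb (fun b₀ C q hq => nonDeg_all hπ hb h0 C hq)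
  refine ⟨h, hs, π x0, ?_⟩
  set C := FBT.tc hπ (π x0) with hC
  set y := chartAt B.E (π x0) (π x0) with hydef
  have hq : y ∈ C.V := C.mem
  have hsymm : (chartAt B.E (π x0)).symm y = π x0 :=
    (chartAt B.E (π x0)).left_inv (mem_chart_source B.E (π x0))
  have hy : y ∈ (chartAt B.E (π x0)).target := C.sub hq
  have h1 := (posAt_iff h (hol_symm hy) (dvec_symm_bij hy))
  rw [hsymm] at h1
  rw [h1]
  have h2 := he (π x0) C (y, 0) hq
  have h3 : PosB (avg C.lam (tpb b.val C.Φ) (y, 0)) := avg_pos_glob hb h0 C hq hsymm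
  have h4 := schur_pos ((avg_form (tc_lat C) (tc_form C b)).j (y, 0) hq) h3
  intro v hv
  have h5 := h4 v hv
  rw [← h2] at h5
  exact h5

/-- a form on the total space (the fibrewise flat average) which is positive on the fibres -/
theorem torus_vpos (M B : CM.{u}) (π : M.X → B.X) (k : ℕ) (hπ : TorusFib M.E B.E π k)
    (h : SemiPos M) : ∃ c : Form M.E M.X, ∀ (x : M.X) (v : M.E), v ≠ 0 → dmap M.E B.E π x v = 0 →
      0 < c.val x v (Complex.I • v) := by
  obtain ⟨b, hb, x0, h0⟩ := h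
  obtain ⟨c, hc, he⟩ := exists_bav hπ b hb
  refine ⟨c, ?_⟩
  intro x v hv hd
  set C := FBT.tc hπ (π x) with hC
  obtain ⟨q, hq, hqx⟩ := exists_pt hπ x
  rw [← hC] at hq hqx
  have hHol : Hol M.E C.Φ q := tc_hol C hq
  have hbij := tc_bij C hq
  obtain ⟨w, hw⟩ := hbij.2
    (show M.E from v)
  have hw0 : w ≠ 0 := by
    rintro rfl
    rw [map_zero] at hw
    exact hv hw.symm
  have hcomp : (π ∘ C.Φ) =ᶠ[𝓝 q] ((chartAt B.E (π x)).symm ∘ Prod.fst) := by
    have ho : IsOpen (C.V ×ˢ (Set.univ : Set (Fin k → ℂ))) := C.isOpen.prod isOpen_univ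
    filter_upwards [ho.mem_nhds (Set.mk_mem_prod hq (Set.mem_univ q.2))] with r hr
    exact C.proj r.1 hr.1 r.2
  have hy : q.1 ∈ (chartAt B.E (π x)).target := C.sub hq
  have h1 : dvec B.E (π ∘ C.Φ) q w = 0 := by
    rw [dvec_holo hπ.hol hHol.sm, ContinuousLinearMap.comp_apply, hw, hqx]
    exact hd
  have h2 : dvec B.E (π ∘ C.Φ) q w = dvec B.E (chartAt B.E (π x)).symm q.1 w.1 := by
    rw [dvec_congr' hcomp, dvec_comp (f := (chartAt B.E (π x)).symm) (k := Prod.fst) (hol_symm hy).sm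
      differentiableAt_fst, ContinuousLinearMap.comp_apply]
    congr 1
    rw [fderiv_fst]
    rfl
  have h3 : w.1 = 0 := by
    rw [h1] at h2
    exact (dvec_symm_bij hy).1 (by rw [← h2, map_zero])
  have hw2 : w = (0, w.2) := Prod.ext h3 rfl
  have hξ : w.2 ≠ 0 := by
    intro h4
    exact hw0 (Prod.ext h3 h4)
  have hL := tc_lat C
  have hF := avg_form hL (tc_form C b)
  have h5 := FBT.fib_pos (c := avg C.lam (tpb b.val C.Φ) q) (hF.alt q hq) (hF.j q hq)
    (avg_semi hL (tc_form C b) (fun r hr => tc_semi C hb r hr) q hq)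
    (nonDeg_all hπ hb h0 C hq) hξ
  rw [← he (π x) C q hq, tpb_apply] at h5
  have h6 : ((0 : B.E), Complex.I • w.2) = Complex.I • w := by
    rw [hw2]
    simp
  rw [← hw2, h6, hHol.smul_I, hw, hqx] at h5
  exact h5

theorem torus_total (M B : CM.{u}) (π : M.X → B.X) (k : ℕ) (hπ : TorusFib M.E B.E π k)
    (h : SemiPos M) (hB : Kaehler B) : Kaehler M := by
  obtain ⟨c, hc⟩ := torus_vpos M B π k hπ h
  exact Pool.Agent.FBR.fib_pos M B π hπ.hol c hc hB

end Pool.Agent.FBT
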