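import Pool.Agent.FBT.Sh

/-!
# FBT/Flat: an invariant closed form in flat coordinates

`Θ(y, s) = (y, ∑ s_j λ_j(y)) = sh lam s (y, 0)`; for an invariant form `c` the pull back `pb c Θ` at
`(y, s)` does not depend on `s`; it is `flatG lam c y`.

PROOF PLAN.  `flatL lam y` is the derivative of `Θ` at `(y, 0)` (the terms `s_j Dλ_j` vanish).
`Θ ∘ T_s = sh lam s ∘ Θ`, `T_s (y, t) = (y, t + s)`, so with `pb_pb` and `SInv`:
`pb c Θ (y, s) = pb c Θ (y, 0) = flatG lam c y` for all `s` (`flatG_pb`).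
`flatG_smooth`: `pb c Θ` is smooth on `V × univ`, restrict to `s = 0`.
`flatG_closed`: `Closed2 (pb c Θ) (y, 0)` (`ext2_pull`, `hc.closed`), and near `(y, 0)`, `pb c Θ = flatG lam c ∘ Prod.fst`,
with derivative `fderiv ℝ (flatG lam c) y ∘ fst`.
`flatG_fib`: `flatG_closed` with `X = (u, 0)`, `Y = (0, s)`, `Z = (0, r)` gives that the derivative of
`y ↦ flatG lam c y (0, s) (0, r)` is zero on `V`, so it is constant on the convex set `D`
(`IsOpen.is_const_of_fderiv_eq_zero` or `Convex.is_const_of_fderivWithin_eq_zero`).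
-/

set_option autoImplicit false

noncomputable section

open scoped Manifold ContDiff Topology

namespace Pool.Agent.FBT

open Pool.Agent.FBR

universe u

variable {F : Type u} [NormedAddCommGroup F] [NormedSpace ℂ F] {k : ℕ} {V : Set F}
  {lam : Fin (2 * k) → F → (Fin k → ℂ)} {c : F × (Fin k → ℂ) → Bil (F × (Fin k → ℂ))}

/-- the flat frame `s ↦ ∑ s_j λ_j(y)` -/
def frm (lam : Fin (2 * k) → F → (Fin k → ℂ)) (y : F) :
    (Fin (2 * k) → ℝ) →L[ℝ] (Fin k → ℂ) :=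
  ∑ j, (ContinuousLinearMap.proj (R := ℝ) (φ := fun _ : Fin (2 * k) => ℝ) j).smulRight (lam j y)

/-- `(u, s) ↦ (u, ∑ s_j λ_j(y))` -/
def flatL (lam : Fin (2 * k) → F → (Fin k → ℂ)) (y : F) :
    F × (Fin (2 * k) → ℝ) →L[ℝ] F × (Fin k → ℂ) :=
  (ContinuousLinearMap.id ℝ F).prodMap (frm lam y)

/-- the form `c` in flat coordinates -/
def flatG (lam : Fin (2 * k) → F → (Fin k → ℂ))
    (c : F × (Fin k → ℂ) → Bil (F × (Fin k → ℂ))) (y : F) : Bil (F × (Fin (2 * k) → ℝ)) :=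
  (c (y, 0)).bilinearComp (flatL lam y) (flatL lam y)

theorem frm_apply (y : F) (s : Fin (2 * k) → ℝ) : frm lam y s = ∑ j, s j • lam j y := by
  simp [frm]

theorem frm_bij (hL : Lat V lam) {y : F} (hy : y ∈ V) : Function.Bijective (frm lam y) := by
  have h1 : Module.finrank ℝ (Fin (2 * k) → ℝ) = Module.finrank ℝ (Fin k → ℂ) := by
    rw [finrank_real_of_complex, Module.finrank_fin_fun, Module.finrank_fin_fun]
  have h2 : Function.Injective (frm lam y) := by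
    rw [injective_iff_map_eq_zero]
    intro s hs
    rw [frm_apply] at hs
    funext j
    exact Fintype.linearIndependent_iff.1 (hL.indep y hy) s hs j
  refine ⟨h2, ?_⟩
  exact (LinearMap.injective_iff_surjective_of_finrank_eq_finrank (f := (frm lam y).toLinearMap) h1).1 h2

private theorem Flat_lam (hL : Lat V lam) (j : Fin (2 * k)) : ContDiffOn ℝ ∞ (lam j) V :=
  ((hL.hol j).restrict_scalars ℝ).of_le (by exact_mod_cast le_top)

theorem frm_smooth (hL : Lat V lam) : ContDiffOn ℝ ∞ (frm lam) V := by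
  unfold frm
  refine ContDiffOn.sum fun j _ => ?_
  exact (ContinuousLinearMap.smulRightL ℝ (Fin (2 * k) → ℝ) (Fin k → ℂ)
    (ContinuousLinearMap.proj (R := ℝ) (φ := fun _ : Fin (2 * k) => ℝ) j)).contDiff.comp_contDiffOn (Flat_lam hL j)

private theorem Flat_flatL (hL : Lat V lam) : ContDiffOn ℝ ∞ (flatL lam) V := by
  have h1 : flatL lam = fun y => (ContinuousLinearMap.inl ℝ F (Fin k → ℂ)).comp (ContinuousLinearMap.fst ℝ F (Fin (2 * k) → ℝ))
      + (ContinuousLinearMap.inr ℝ F (Fin k → ℂ)).comp ((frm lam y).comp (ContinuousLinearMap.snd ℝ F (Fin (2 * k) → ℝ))) := by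
    funext y
    ext x <;> simp [flatL]
  rw [h1]
  exact contDiffOn_const.add (contDiffOn_const.clm_comp ((frm_smooth hL).clm_comp contDiffOn_const))

private def Flat_flipL (A B C : Type*) [NormedAddCommGroup A] [NormedSpace ℝ A] [NormedAddCommGroup B]
    [NormedSpace ℝ B] [NormedAddCommGroup C] [NormedSpace ℝ C] :
    (A →L[ℝ] B →L[ℝ] C) →L[ℝ] (B →L[ℝ] A →L[ℝ] C) :=
  (ContinuousLinearMap.flipₗᵢ ℝ A B C).toContinuousLinearEquiv.toContinuousLinearMap

private theorem Flat_flip {A B C X : Type*} [NormedAddCommGroup A] [NormedSpace ℝ A] [NormedAddCommGroup B]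
    [NormedSpace ℝ B] [NormedAddCommGroup C] [NormedSpace ℝ C] [NormedAddCommGroup X] [NormedSpace ℝ X]
    {f : X → A →L[ℝ] B →L[ℝ] C} {s : Set X} (hf : ContDiffOn ℝ ∞ f s) :
    ContDiffOn ℝ ∞ (fun x => (f x).flip) s := by
  have h : ContDiff ℝ ∞ (Flat_flipL A B C) :=
    ContinuousLinearMap.contDiff (𝕜 := ℝ) (E := (A →L[ℝ] B →L[ℝ] C)) (F := (B →L[ℝ] A →L[ℝ] C)) (Flat_flipL A B C)
  exact ContDiff.comp_contDiffOn (𝕜 := ℝ) (E := X) (F := (A →L[ℝ] B →L[ℝ] C)) (G := (B →L[ℝ] A →L[ℝ] C)) h hf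

theorem flatG_smooth (hL : Lat V lam) (hc : LForm V c) : ContDiffOn ℝ ∞ (flatG lam c) V := by
  have h1 : ContDiffOn ℝ ∞ (fun y : F => c (y, 0)) V := by
    refine hc.smooth.comp (contDiff_id.prodMk contDiff_const).contDiffOn ?_
    intro y hy
    exact ⟨hy, Set.mem_univ _⟩
  have h2 := Flat_flatL hL
  exact Flat_flip ((Flat_flip (h1.clm_comp h2)).clm_comp h2)

/-- flat coordinates -/
private def Flat_T (lam : Fin (2 * k) → F → (Fin k → ℂ)) (p : F × (Fin (2 * k) → ℝ)) : F × (Fin k → ℂ) :=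
  (p.1, ∑ j, p.2 j • lam j p.1)

private theorem Flat_T_smooth (hL : Lat V lam) {p : F × (Fin (2 * k) → ℝ)} (hp : p.1 ∈ V) :
    ContDiffAt ℝ ∞ (Flat_T lam) p := by
  refine contDiffAt_fst.prodMk ?_
  refine ContDiffAt.sum fun j _ => ?_
  have h1 : ContDiffAt ℝ ∞ (fun p : F × (Fin (2 * k) → ℝ) => p.2 j) p :=
    (contDiff_apply ℝ ℝ j).contDiffAt.comp p contDiffAt_snd
  have h2 : ContDiffAt ℝ ∞ (fun p : F × (Fin (2 * k) → ℝ) => lam j p.1) p :=
    ContDiffAt.comp (f := (Prod.fst : F × (Fin (2 * k) → ℝ) → F)) p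
      ((Flat_lam hL j).contDiffAt (hL.isOpen.mem_nhds hp)) contDiffAt_fst
  exact h1.smul h2

private theorem Flat_T_fderiv (hL : Lat V lam) {p : F × (Fin (2 * k) → ℝ)} (hp : p.1 ∈ V)
    (X : F × (Fin (2 * k) → ℝ)) :
    fderiv ℝ (Flat_T lam) p X = fderiv ℝ (sh lam p.2) (p.1, 0) (flatL lam p.1 X) := by
  rw [fderiv_sh hL p.2 (q := (p.1, 0)) hp]
  have h1 : ∀ j, HasFDerivAt (fun p : F × (Fin (2 * k) → ℝ) => p.2 j • lam j p.1)
      (p.2 j • ((fderiv ℝ (lam j) p.1).comp (ContinuousLinearMap.fst ℝ F (Fin (2 * k) → ℝ)))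
        + ((ContinuousLinearMap.proj (R := ℝ) (φ := fun _ : Fin (2 * k) => ℝ) j).comp
          (ContinuousLinearMap.snd ℝ F (Fin (2 * k) → ℝ))).smulRight (lam j p.1)) p := by
    intro j
    have h1 : HasFDerivAt (fun p : F × (Fin (2 * k) → ℝ) => p.2 j)
        ((ContinuousLinearMap.proj (R := ℝ) (φ := fun _ : Fin (2 * k) => ℝ) j).comp
          (ContinuousLinearMap.snd ℝ F (Fin (2 * k) → ℝ))) p :=
      ((ContinuousLinearMap.proj (R := ℝ) (φ := fun _ : Fin (2 * k) => ℝ) j).comp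
          (ContinuousLinearMap.snd ℝ F (Fin (2 * k) → ℝ))).hasFDerivAt
    have h2 : HasFDerivAt (lam j) (fderiv ℝ (lam j) p.1) p.1 :=
        (((Flat_lam hL j).contDiffAt (hL.isOpen.mem_nhds hp)).differentiableAt (by simp)).hasFDerivAt
    have h3 : HasFDerivAt (fun p : F × (Fin (2 * k) → ℝ) => lam j p.1)
        ((fderiv ℝ (lam j) p.1).comp (ContinuousLinearMap.fst ℝ F (Fin (2 * k) → ℝ))) p :=
      HasFDerivAt.comp (f := (Prod.fst : F × (Fin (2 * k) → ℝ) → F)) p h2 hasFDerivAt_fst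
    exact h1.smul h3
  have h2 : HasFDerivAt (Flat_T lam) _ p := hasFDerivAt_fst.prodMk (HasFDerivAt.fun_sum fun j _ => h1 j)
  rw [h2.fderiv]
  refine Prod.ext ?_ ?_
  · simp [flatL]
  · simp only [ContinuousLinearMap.prod_apply, sum_apply, add_apply,
      smul_apply, ContinuousLinearMap.comp_apply, ContinuousLinearMap.coe_fst',
      ContinuousLinearMap.smulRight_apply, ContinuousLinearMap.proj_apply, ContinuousLinearMap.coe_snd', flatL,
      ContinuousLinearMap.coe_prodMap', Prod.map_fst, Prod.map_snd, ContinuousLinearMap.coe_id', id_eq, frm_apply,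
      Finset.sum_add_distrib]
    rw [add_comm]

private theorem Flat_pb (hL : Lat V lam) (hs : SInv V lam c) {p : F × (Fin (2 * k) → ℝ)} (hp : p.1 ∈ V) :
    pb c (Flat_T lam) p = flatG lam c p.1 := by
  refine ContinuousLinearMap.ext fun X => ContinuousLinearMap.ext fun Y => ?_
  rw [pb_apply, Flat_T_fderiv hL hp, Flat_T_fderiv hL hp]
  have h1 := hs p.2 (p.1, 0) hp
  have h2 := DFunLike.congr_fun (DFunLike.congr_fun h1 (flatL lam p.1 X)) (flatL lam p.1 Y)
  rw [pb_apply] at h2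
  have h3 : sh lam p.2 (p.1, 0) = Flat_T lam p := by
    refine Prod.ext rfl ?_
    simp [sh, Flat_T]
  rw [h3] at h2
  exact h2

theorem flatG_closed (hL : Lat V lam) (hc : LForm V c) (hs : SInv V lam c) {y : F} (hy : y ∈ V)
    (X Y Z : F × (Fin (2 * k) → ℝ)) :
    fderiv ℝ (flatG lam c) y X.1 Y Z + fderiv ℝ (flatG lam c) y Y.1 Z X +
      fderiv ℝ (flatG lam c) y Z.1 X Y = 0 := by
  have hV : ∀ᶠ p : F × (Fin (2 * k) → ℝ) in 𝓝 (y, 0), p.1 ∈ V :=
    continuous_fst.continuousAt.eventually (hL.isOpen.mem_nhds hy)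
  have h1 : pb c (Flat_T lam) =ᶠ[𝓝 (y, 0)] fun p => flatG lam c p.1 := by
    filter_upwards [hV] with p hp
    exact Flat_pb hL hs hp
  have hd : DifferentiableAt ℝ (flatG lam c) y :=
    ((flatG_smooth hL hc).contDiffAt (hL.isOpen.mem_nhds hy)).differentiableAt (by simp)
  have h2 : ∀ X : F × (Fin (2 * k) → ℝ), fderiv ℝ (pb c (Flat_T lam)) (y, 0) X = fderiv ℝ (flatG lam c) y X.1 := by
    intro X
    rw [h1.fderiv_eq]
    have h3 : HasFDerivAt (flatG lam c ∘ (Prod.fst : F × (Fin (2 * k) → ℝ) → F))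
        ((fderiv ℝ (flatG lam c) y).comp (ContinuousLinearMap.fst ℝ F (Fin (2 * k) → ℝ))) (y, (0 : Fin (2 * k) → ℝ)) := by
      have h4 : HasFDerivAt (flatG lam c) (fderiv ℝ (flatG lam c) y)
        ((Prod.fst : F × (Fin (2 * k) → ℝ) → F) (y, (0 : Fin (2 * k) → ℝ))) := hd.hasFDerivAt
      have h5 : HasFDerivAt (Prod.fst : F × (Fin (2 * k) → ℝ) → F) (ContinuousLinearMap.fst ℝ F (Fin (2 * k) → ℝ))
        (y, (0 : Fin (2 * k) → ℝ)) := hasFDerivAt_fst
      exact HasFDerivAt.comp (𝕜 := ℝ) (E := F × (Fin (2 * k) → ℝ)) (F := F) (G := Bil (F × (Fin (2 * k) → ℝ)))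
        (y, (0 : Fin (2 * k) → ℝ)) h4 h5
    change fderiv ℝ (flatG lam c ∘ (Prod.fst : F × (Fin (2 * k) → ℝ) → F)) (y, 0) X = _
    rw [h3.fderiv]
    rfl
  have hq : (Flat_T lam (y, 0)).1 ∈ V := hy
  have h4 := ext2_pull c (Flat_T lam) (y, 0)
    ((hc.smooth.contDiffAt ((hL.isOpen.prod isOpen_univ).mem_nhds ⟨hq, Set.mem_univ _⟩)).differentiableAt (by simp))
    (hc.alt _ hq) (by
      have h7 := contDiffAt_infty.1 (Flat_T_smooth hL (p := (y, 0)) hy) 2
      exact_mod_cast h7) X Y Z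
  have h5 : ext2 c (Flat_T lam (y, 0)) (fderiv ℝ (Flat_T lam) (y, 0) X) (fderiv ℝ (Flat_T lam) (y, 0) Y)
      (fderiv ℝ (Flat_T lam) (y, 0) Z) = 0 := hc.closed _ hq _ _ _
  rw [h5] at h4
  have h6 : fderiv ℝ (pb c (Flat_T lam)) (y, 0) X Y Z + fderiv ℝ (pb c (Flat_T lam)) (y, 0) Y Z X
      + fderiv ℝ (pb c (Flat_T lam)) (y, 0) Z X Y = 0 := h4
  rw [h2, h2, h2] at h6
  exact h6

theorem flatG_fib (hL : Lat V lam) (hc : LForm V c) (hs : SInv V lam c) {D : Set F}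
    (hD : Convex ℝ D) (hDo : IsOpen D) (hDV : D ⊆ V) {y y' : F} (hy : y ∈ D) (hy' : y' ∈ D)
    (s r : Fin (2 * k) → ℝ) :
    flatG lam c y (0, s) (0, r) = flatG lam c y' (0, s) (0, r) := by
  have h1 : ∀ x ∈ D, HasFDerivAt (fun y : F => flatG lam c y (0, s) (0, r)) (0 : F →L[ℝ] ℝ) x := by
    intro x hx
    have hd : DifferentiableAt ℝ (flatG lam c) x :=
      ((flatG_smooth hL hc).contDiffAt (hL.isOpen.mem_nhds (hDV hx))).differentiableAt (by simp)
    have h2 := (hd.hasFDerivAt.clm_apply (hasFDerivAt_const ((0, s) : F × (Fin (2 * k) → ℝ)) x)).clm_apply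
      (hasFDerivAt_const ((0, r) : F × (Fin (2 * k) → ℝ)) x)
    refine h2.congr_fderiv ?_
    ext u
    have h3 := flatG_closed hL hc hs (hDV hx) (u, 0) (0, s) (0, r)
    simp only [map_zero, zero_apply, add_zero] at h3
    simpa using h3
  exact hDo.is_const_of_fderiv_eq_zero hD.isPreconnected
    (fun x hx => (h1 x hx).differentiableAt.differentiableWithinAt) (fun x hx => (h1 x hx).fderiv) hy hy'

end Pool.Agent.FBT
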