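import Pool.Agent.FBT.Chart

/-!
# FBT/LatM: an affine change of torus charts over one point maps the lattice onto the lattice

PROOF PLAN.  For each `j`: `C'.Φ (y', A z + c + A λ_j) = C.Φ (y, z + λ_j) = C.Φ (y, z) = C'.Φ (y', A z + c)` (`C.ker`), so
by `C'.ker` `A λ_j = ∑ i, m i j • λ'_i` with integers `m i j`.  Conversely for each `i` write `λ'_i = A μ_i`; then
`C.Φ (y, z + μ_i) = C'.Φ (y', A z + c + λ'_i) = C'.Φ (y', A z + c) = C.Φ (y, z)`, so `μ_i = ∑ l, n l i • λ_l`.  Then
`λ_j = A⁻¹ (∑ m i j λ'_i) = ∑_l (∑_i n l i m i j) λ_l`, so `n * m = 1` by the real linear independence of the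
`λ_j(y)` (`C.indep`), and `m.det` is a unit (`Matrix.isUnit_det_of_left_inverse`).
-/

set_option autoImplicit false

noncomputable section

open scoped Manifold ContDiff Topology

namespace Pool.Agent.FBT

open Pool.Agent.FBR

universe u

variable {E X F B : Type u} [NormedAddCommGroup E] [NormedSpace ℂ E]
  [TopologicalSpace X] [ChartedSpace E X] [NormedAddCommGroup F]
  [NormedSpace ℂ F] [TopologicalSpace B] [ChartedSpace F B]
  {π : X → B} {k : ℕ} {b₀ b₀' : B}

private theorem LatM_single {n : ℕ} (v : Fin n → (Fin k → ℂ)) (j : Fin n) :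
    ∑ i, (Pi.single j 1 : Fin n → ℤ) i • v i = v j := by
  rw [Finset.sum_eq_single j]
  · rw [Pi.single_eq_same, one_smul]
  · intro i _ hi
    rw [Pi.single_eq_of_ne hi, zero_smul]
  · intro hj
    exact absurd (Finset.mem_univ j) hj

theorem latM (C : TorusChart E F π k b₀) (C' : TorusChart E F π k b₀') {y y' : F}
    (hy : y ∈ C.V) (hy' : y' ∈ C'.V) {A : (Fin k → ℂ) →L[ℂ] (Fin k → ℂ)}
    (hAb : Function.Bijective A) {c : Fin k → ℂ}
    (h : ∀ z : Fin k → ℂ, C.Φ (y, z) = C'.Φ (y', A z + c)) :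
    ∃ m : Matrix (Fin (2 * k)) (Fin (2 * k)) ℤ, IsUnit m.det ∧
      ∀ j, A (C.lam j y) = ∑ i, m i j • C'.lam i y' := by
  have h1 : ∀ j, ∃ m : Fin (2 * k) → ℤ, A (C.lam j y) = ∑ i, m i • C'.lam i y' := by
    intro j
    have e1 : C.Φ (y, 0) = C.Φ (y, C.lam j y) := by
      rw [C.ker y hy]
      refine ⟨Pi.single j 1, ?_⟩
      rw [zero_add, LatM_single]
    rw [h 0, h (C.lam j y), C'.ker y' hy'] at e1
    obtain ⟨m, hm⟩ := e1
    refine ⟨m, ?_⟩
    rw [map_zero, zero_add] at hm
    have e2 : A (C.lam j y) + c = (∑ i, m i • C'.lam i y') + c := by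
      rw [hm, add_comm]
    exact add_right_cancel e2
  have h2 : ∀ i, ∃ n : Fin (2 * k) → ℤ, A (∑ l, n l • C.lam l y) = C'.lam i y' := by
    intro i
    obtain ⟨μ, hμ⟩ := hAb.surjective (C'.lam i y')
    have e1 : C'.Φ (y', A 0 + c) = C'.Φ (y', A μ + c) := by
      rw [C'.ker y' hy']
      refine ⟨Pi.single i 1, ?_⟩
      rw [LatM_single, hμ, map_zero, zero_add, add_comm]
    rw [← h 0, ← h μ, C.ker y hy] at e1
    obtain ⟨n, hn⟩ := e1
    rw [zero_add] at hn
    exact ⟨n, by rw [← hn, hμ]⟩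
  choose mm hmm using h1
  choose nn hnn using h2
  refine ⟨Matrix.of fun i j => mm j i, ?_, fun j => hmm j⟩
  have hli : LinearIndependent ℤ fun j => C.lam j y :=
    (C.indep y hy).restrict_scalars (fun a b hab => by simpa using hab)
  have hprod : (Matrix.of fun l i => nn i l) * (Matrix.of fun i j => mm j i) = 1 := by
    ext l j
    have e1 : ∑ l, (∑ i, nn i l * mm j i) • C.lam l y = C.lam j y := by
      apply hAb.injective
      rw [hmm j]
      have e3 : ∀ i, mm j i • C'.lam i y' = A (∑ l, (nn i l * mm j i) • C.lam l y) := by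
        intro i
        rw [← hnn i, ← map_zsmul, Finset.smul_sum]
        congr 1
        refine Finset.sum_congr rfl fun l _ => ?_
        rw [smul_smul, mul_comm]
      rw [Finset.sum_congr rfl fun i _ => e3 i, ← map_sum, Finset.sum_comm]
      congr 1
      refine Finset.sum_congr rfl fun l _ => ?_
      rw [Finset.sum_smul]
    have e2 : ∑ l, ((∑ i, nn i l * mm j i) - (Pi.single j 1 : Fin (2 * k) → ℤ) l) • C.lam l y
        = 0 := by
      have e4 : ∀ l, ((∑ i, nn i l * mm j i) - (Pi.single j 1 : Fin (2 * k) → ℤ) l) • C.lam l y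
          = (∑ i, nn i l * mm j i) • C.lam l y - (Pi.single j 1 : Fin (2 * k) → ℤ) l • C.lam l y :=
        fun l => sub_smul _ _ _
      rw [Finset.sum_congr rfl fun l _ => e4 l, Finset.sum_sub_distrib, e1, LatM_single, sub_self]
    have e5 := Fintype.linearIndependent_iff.1 hli _ e2 l
    rw [Matrix.mul_apply]
    simp only [Matrix.of_apply]
    rw [sub_eq_zero] at e5
    rw [e5, Matrix.one_apply, Pi.single_apply]
  exact Matrix.isUnit_det_of_left_inverse hprod

end Pool.Agent.FBT
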