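import Pool.Agent.FBT.Chart
import Pool.Agent.FBR.Inv

/-!
# FBT/Lift: two torus charts: local lifts

PROOF PLAN.  `hol_inv` for `g = C'.Φ`, `O = C'.V ×ˢ univ`, `q0 = q'`, `p = C.Φ q` gives `W ⊆ E` open, `kk : E → F × ℂᵏ` with
`kk (chartAt E p (C'.Φ q')) = q'` and `C'.Φ (kk e) = (chartAt E p).symm e`, `kk e ∈ O` for `e ∈ W`.
`ψ r = kk (chartAt E p (C.Φ r))`, defined near `q`: `O' = {r | r.1 ∈ C.V, C.Φ r ∈ (chartAt E p).source,
chartAt E p (C.Φ r) ∈ W}` contains a neighbourhood `O` of `q` (`C.Φ` is continuous at all points over `C.V`: `tc_hol`;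
take the interior).  `ContDiffAt ℂ ∞ ψ r`: composition (`hol_iff` for the chart at `p`).
The formula for `(ψ r).1`: `π (C.Φ r) = (chartAt F b₀).symm r.1` and `π (C'.Φ (ψ r)) = (chartAt F b₀').symm (ψ r).1`
(`C.proj`, `C'.proj`), `C'.sub`, `(chartAt F b₀').right_inv`.  The derivative: `C.Φ = C'.Φ ∘ ψ` near `r`, `dvec_comp`,
`dvec_congr'`.  Vertical vectors: `(ψ r).1` only depends on `r.1`, near `r`.
-/

set_option autoImplicit false

noncomputable section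

open scoped Manifold ContDiff Topology

namespace Pool.Agent.FBT

open Pool.Agent.FBR

universe u

variable {E X F B : Type u} [NormedAddCommGroup E] [NormedSpace ℂ E] [FiniteDimensional ℂ E]
  [TopologicalSpace X] [ChartedSpace E X] [IsManifold 𝓘(ℂ, E) ω X] [NormedAddCommGroup F]
  [NormedSpace ℂ F] [FiniteDimensional ℂ F] [TopologicalSpace B] [ChartedSpace F B]
  [IsManifold 𝓘(ℂ, F) ω B] {π : X → B} {k : ℕ} {b₀ b₀' : B}

theorem tc_lift (C : TorusChart E F π k b₀) (C' : TorusChart E F π k b₀')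
    {q q' : F × (Fin k → ℂ)} (hq : q.1 ∈ C.V) (hq' : q'.1 ∈ C'.V) (h : C.Φ q = C'.Φ q') :
    ∃ (O : Set (F × (Fin k → ℂ))) (ψ : F × (Fin k → ℂ) → F × (Fin k → ℂ)),
      IsOpen O ∧ q ∈ O ∧ ψ q = q' ∧
      ∀ r ∈ O, r.1 ∈ C.V ∧ (ψ r).1 ∈ C'.V ∧ C'.Φ (ψ r) = C.Φ r ∧ ContDiffAt ℂ ∞ ψ r ∧
        (ψ r).1 = chartAt F b₀' ((chartAt F b₀).symm r.1) ∧
        dvec E C.Φ r = (dvec E C'.Φ (ψ r)).comp (fderiv ℝ ψ r) ∧
        ∀ ξ : Fin k → ℂ, (fderiv ℝ ψ r (0, ξ)).1 = 0 := by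
  have hO1 : IsOpen {r : F × (Fin k → ℂ) | r.1 ∈ C'.V} := C'.isOpen.preimage continuous_fst
  have hO0 : IsOpen {r : F × (Fin k → ℂ) | r.1 ∈ C.V} := C.isOpen.preimage continuous_fst
  have hp : C'.Φ q' ∈ (chartAt E (C.Φ q)).source := by
    rw [← h]
    exact mem_chart_source E _
  obtain ⟨W, kk, hW, h1, h2, h3, h4⟩ :=
    hol_inv hO1 (fun r hr => tc_hol C' hr) hq' (tc_bij C' hq') hp
  have hcont : ContinuousOn C.Φ {r : F × (Fin k → ℂ) | r.1 ∈ C.V} :=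
    fun r hr => (tc_hol C hr).1.continuousWithinAt
  have hO : IsOpen ({r : F × (Fin k → ℂ) | r.1 ∈ C.V} ∩
      C.Φ ⁻¹' ((chartAt E (C.Φ q)).source ∩ chartAt E (C.Φ q) ⁻¹' W)) :=
    hcont.isOpen_inter_preimage hO0 ((chartAt E (C.Φ q)).isOpen_inter_preimage hW)
  have key : ∀ r ∈ ({r : F × (Fin k → ℂ) | r.1 ∈ C.V} ∩
      C.Φ ⁻¹' ((chartAt E (C.Φ q)).source ∩ chartAt E (C.Φ q) ⁻¹' W)),
      (kk (chartAt E (C.Φ q) (C.Φ r))).1 ∈ C'.V ∧
      C'.Φ (kk (chartAt E (C.Φ q) (C.Φ r))) = C.Φ r ∧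
      ContDiffAt ℂ ∞ (fun r => kk (chartAt E (C.Φ q) (C.Φ r))) r ∧
      (kk (chartAt E (C.Φ q) (C.Φ r))).1 = chartAt F b₀' ((chartAt F b₀).symm r.1) := by
    rintro r ⟨hr, hs, hw⟩
    have hr' : r.1 ∈ C.V := hr
    obtain ⟨h5, h6, h7⟩ := h4 _ hw
    have h5' : (kk (chartAt E (C.Φ q) (C.Φ r))).1 ∈ C'.V := h5
    have h8 : C'.Φ (kk (chartAt E (C.Φ q) (C.Φ r))) = C.Φ r :=
      h6.trans ((chartAt E (C.Φ q)).left_inv hs)
    refine ⟨h5', h8, ?_, ?_⟩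
    · have h9 : ContDiffAt ℂ ∞ (chartAt E (C.Φ q) ∘ C.Φ) r :=
        (hol_iff (tc_hol C hr').1 hs).1 (tc_hol C hr')
      exact ContDiffAt.comp (g := kk) (f := chartAt E (C.Φ q) ∘ C.Φ) r h7 h9
    · have h9 := C'.proj _ h5' (kk (chartAt E (C.Φ q) (C.Φ r))).2
      have h10 := C.proj _ hr' r.2
      have h9' : π (C'.Φ (kk (chartAt E (C.Φ q) (C.Φ r)))) =
          (chartAt F b₀').symm (kk (chartAt E (C.Φ q) (C.Φ r))).1 := h9
      have h10' : π (C.Φ r) = (chartAt F b₀).symm r.1 := h10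
      rw [h8, h10'] at h9'
      rw [h9']
      exact ((chartAt F b₀').right_inv (C'.sub h5')).symm
  refine ⟨_, fun r => kk (chartAt E (C.Φ q) (C.Φ r)), hO, ⟨hq, mem_chart_source E _, ?_⟩, ?_, ?_⟩
  · have h5 := h1
    rw [← h] at h5
    exact h5
  · have h5 := h3
    rw [← h] at h5
    exact h5
  · intro r hr
    obtain ⟨h5, h6, h7, h8⟩ := key r hr
    have hdR : ContDiffAt ℝ ∞ (fun r => kk (chartAt E (C.Φ q) (C.Φ r))) r := h7.restrict_scalars ℝ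
    have hd : DifferentiableAt ℝ (fun r => kk (chartAt E (C.Φ q) (C.Φ r))) r :=
      hdR.differentiableAt (by simp)
    refine ⟨hr.1, h5, h6, h7, h8, ?_, ?_⟩
    · have h9 : C.Φ =ᶠ[𝓝 r] C'.Φ ∘ (fun r => kk (chartAt E (C.Φ q) (C.Φ r))) := by
        filter_upwards [hO.mem_nhds hr] with z hz
        exact (key z hz).2.1.symm
      rw [dvec_congr' h9]
      exact dvec_comp (tc_hol C' h5).sm hd
    · intro ξ
      have h9 : HasFDerivAt (fun z : Fin k → ℂ => (kk (chartAt E (C.Φ q) (C.Φ (r.1, z)))).1)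
          (((ContinuousLinearMap.fst ℝ F (Fin k → ℂ)).comp
            (fderiv ℝ (fun r => kk (chartAt E (C.Φ q) (C.Φ r))) r)).comp
            (ContinuousLinearMap.inr ℝ F (Fin k → ℂ))) r.2 := by
        have h10 : HasFDerivAt (fun z : Fin k → ℂ => ((r.1, z) : F × (Fin k → ℂ)))
            (ContinuousLinearMap.inr ℝ F (Fin k → ℂ)) r.2 := hasFDerivAt_prodMk_right r.1 r.2
        have h11 : HasFDerivAt (fun r => (kk (chartAt E (C.Φ q) (C.Φ r))).1)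
            ((ContinuousLinearMap.fst ℝ F (Fin k → ℂ)).comp
            (fderiv ℝ (fun r => kk (chartAt E (C.Φ q) (C.Φ r))) r)) r := hd.hasFDerivAt.fst
        exact HasFDerivAt.comp r.2 (g := fun r => (kk (chartAt E (C.Φ q) (C.Φ r))).1)
          (f := fun z : Fin k → ℂ => ((r.1, z) : F × (Fin k → ℂ))) h11 h10
      have h12 : HasFDerivAt (fun z : Fin k → ℂ => (kk (chartAt E (C.Φ q) (C.Φ (r.1, z)))).1)
          (0 : (Fin k → ℂ) →L[ℝ] F) r.2 := by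
        refine (hasFDerivAt_const (chartAt F b₀' ((chartAt F b₀).symm r.1)) r.2).congr_of_eventuallyEq ?_
        have h13 : ContinuousAt (fun z : Fin k → ℂ => ((r.1, z) : F × (Fin k → ℂ))) r.2 :=
          (Continuous.prodMk_right r.1).continuousAt
        filter_upwards [h13.preimage_mem_nhds (hO.mem_nhds hr)] with z hz
        exact (key _ hz).2.2.2
      have h14 := h9.unique h12
      have h15 := congrArg (fun L : (Fin k → ℂ) →L[ℝ] F => L ξ) h14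
      exact h15

end Pool.Agent.FBT
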