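import Pool.Agent.FBT.Lift

/-!
# FBT/Liou: two torus charts over the same point: the vertical derivative is constant (Liouville)
-/

set_option autoImplicit false
set_option linter.unusedSectionVars false

noncomputable section

open scoped Manifold ContDiff Topology

namespace Pool.Agent.FBT

open Pool.Agent.FBR

universe u

variable {E X F B : Type u} [NormedAddCommGroup E] [NormedSpace ℂ E] [FiniteDimensional ℂ E]
  [TopologicalSpace X] [ChartedSpace E X] [IsManifold 𝓘(ℂ, E) ω X] [NormedAddCommGroup F]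
  [NormedSpace ℂ F] [FiniteDimensional ℂ F] [TopologicalSpace B] [ChartedSpace F B]
  [IsManifold 𝓘(ℂ, F) ω B] {π : X → B} {k : ℕ} {b₀ b₀' : B}

private theorem Liou_fd (y : F) (l z : Fin k → ℂ) :
    HasFDerivAt (fun w : Fin k → ℂ => (y, w + l)) (ContinuousLinearMap.inr ℝ F (Fin k → ℂ)) z :=
  (hasFDerivAt_const y z).prodMk ((hasFDerivAt_id z).add_const l)

/-- (1): the vertical derivative only depends on the point -/
theorem vert_congr (C : TorusChart E F π k b₀) {y : F} (hy : y ∈ C.V) {z z' : Fin k → ℂ}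
    (h : C.Φ (y, z) = C.Φ (y, z')) (ξ : Fin k → ℂ) :
    dvec E C.Φ (y, z) (0, ξ) = dvec E C.Φ (y, z') (0, ξ) := by
  obtain ⟨m, hm⟩ := (C.ker y hy z z').1 h
  obtain ⟨l, hl⟩ : ∃ l, l = ∑ j, m j • C.lam j y := ⟨_, rfl⟩
  rw [← hl] at hm
  have hcomp : (C.Φ ∘ fun w : Fin k → ℂ => (y, w + l)) = C.Φ ∘ fun w : Fin k → ℂ => (y, w + 0) := by
    funext w
    show C.Φ (y, w + l) = C.Φ (y, w + 0)
    rw [add_zero]
    exact ((C.ker y hy w (w + l)).2 ⟨m, by rw [hl]⟩).symm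
  have hsm : ∀ w : Fin k → ℂ, Sm E C.Φ (y, w) := fun w => (tc_hol C (q := (y, w)) hy).sm
  have h1 : dvec E (C.Φ ∘ fun w : Fin k → ℂ => (y, w + l)) z = (dvec E C.Φ (y, z + l)).comp
      (fderiv ℝ (fun w : Fin k → ℂ => (y, w + l)) z) :=
    dvec_comp (hsm (z + l)) (Liou_fd y l z).differentiableAt
  have h2 : dvec E (C.Φ ∘ fun w : Fin k → ℂ => (y, w + 0)) z = (dvec E C.Φ (y, z + 0)).comp
      (fderiv ℝ (fun w : Fin k → ℂ => (y, w + 0)) z) :=
    dvec_comp (hsm (z + 0)) (Liou_fd y 0 z).differentiableAt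
  rw [(Liou_fd y l z).fderiv, hcomp, h2, (Liou_fd y 0 z).fderiv, add_zero] at h1
  rw [hm]
  exact congrArg (fun T : (Fin k → ℂ) →L[ℝ] E => T ξ) h1

/-- (3): reduction modulo the periods -/
theorem exists_red (C : TorusChart E F π k b₀) {y : F} (hy : y ∈ C.V) :
    ∃ K : Set (Fin k → ℂ), IsCompact K ∧ ∀ z : Fin k → ℂ, ∃ z' ∈ K, C.Φ (y, z) = C.Φ (y, z') := by
  refine ⟨(fun s : Fin (2 * k) → ℝ => ∑ j, s j • C.lam j y) '' (Set.univ.pi fun _ => Set.Icc (0 : ℝ) 1), ?_, ?_⟩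
  · refine IsCompact.image (isCompact_univ_pi fun _ => isCompact_Icc) ?_
    exact continuous_finsetSum _ fun j _ => (continuous_apply j).smul continuous_const
  · intro z
    have hfr : Fintype.card (Fin (2 * k)) = Module.finrank ℝ (Fin k → ℂ) := by
      rw [Fintype.card_fin, Module.finrank_pi_fintype]
      simp only [Complex.finrank_real_complex, Finset.sum_const, Finset.card_univ, Fintype.card_fin, smul_eq_mul]
      ring
    have hsp := (C.indep y hy).span_eq_top_of_card_eq_finrank' hfr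
    have hz : z ∈ Submodule.span ℝ (Set.range fun j => C.lam j y) := by
      rw [hsp]
      exact Submodule.mem_top
    obtain ⟨c, hc⟩ := (Submodule.mem_span_range_iff_exists_fun ℝ).1 hz
    refine ⟨∑ j, Int.fract (c j) • C.lam j y, ⟨fun j => Int.fract (c j), ?_, rfl⟩, ?_⟩
    · intro j _
      exact ⟨Int.fract_nonneg _, (Int.fract_lt_one _).le⟩
    · symm
      refine (C.ker y hy _ _).2 ⟨fun j => ⌊c j⌋, ?_⟩
      rw [← hc, ← Finset.sum_add_distrib]
      refine Finset.sum_congr rfl fun j _ => ?_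
      rw [← Int.cast_smul_eq_zsmul ℝ, ← add_smul, Int.fract_add_floor]

private theorem Liou_over (C : TorusChart E F π k b₀) (C' : TorusChart E F π k b₀') {y y' : F}
    (hy : y ∈ C.V) (hy' : y' ∈ C'.V) (hyy : (chartAt F b₀).symm y = (chartAt F b₀').symm y') (z : Fin k → ℂ) :
    ∃ z' : Fin k → ℂ, C.Φ (y, z) = C'.Φ (y', z') := by
  obtain ⟨z', hz'⟩ := tc_over C' (x := C.Φ (y, z)) hy' ((C.proj y hy z).trans hyy)
  exact ⟨z', hz'.symm⟩

private theorem Liou_local (C : TorusChart E F π k b₀) (C' : TorusChart E F π k b₀') {y y' : F}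
    (hy : y ∈ C.V) (hy' : y' ∈ C'.V) (hyy : (chartAt F b₀).symm y = (chartAt F b₀').symm y') (z0 : Fin k → ℂ) :
    ∃ Λ : (Fin k → ℂ) → ((Fin k → ℂ) →L[ℂ] (Fin k → ℂ)), DifferentiableAt ℂ Λ z0 ∧
      ∀ᶠ z in 𝓝 z0, ∀ z' : Fin k → ℂ, C.Φ (y, z) = C'.Φ (y', z') → ∀ ξ : Fin k → ℂ,
        dvec E C.Φ (y, z) (0, ξ) = dvec E C'.Φ (y', z') (0, Λ z ξ) := by
  obtain ⟨z0', hz0'⟩ := Liou_over C C' hy hy' hyy z0
  obtain ⟨O, ψ, hO, hq, hψ, hr⟩ := tc_lift C C' (q := (y, z0)) (q' := (y', z0')) hy hy' hz0'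
  have hc : Continuous fun z : Fin k → ℂ => (y, z) := continuous_const.prodMk continuous_id
  refine ⟨fun z => (ContinuousLinearMap.snd ℂ F (Fin k → ℂ)).comp
    ((fderiv ℂ ψ (y, z)).comp (ContinuousLinearMap.inr ℂ F (Fin k → ℂ))), ?_, ?_⟩
  · have h1 : ContDiffAt ℂ ∞ ψ (y, z0) := (hr _ hq).2.2.2.1
    have h2 : ContDiffAt ℂ 1 (fderiv ℂ ψ) (y, z0) :=
      h1.fderiv_right (m := 1) (WithTop.coe_le_coe.2 (le_top : ((1 : ℕ∞) + 1) ≤ ⊤))
    have h3 : DifferentiableAt ℂ (fderiv ℂ ψ) (y, z0) := h2.differentiableAt one_ne_zero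
    have h4 : DifferentiableAt ℂ (fun z : Fin k → ℂ => (y, z)) z0 :=
      (differentiableAt_const y).prodMk differentiableAt_id
    have h5 : DifferentiableAt ℂ (fun z : Fin k → ℂ => fderiv ℂ ψ (y, z)) z0 := h3.comp z0 h4
    exact (differentiableAt_const _).clm_comp (h5.clm_comp (differentiableAt_const _))
  · have hmem : ∀ᶠ z in 𝓝 z0, (y, z) ∈ O := hc.continuousAt.eventually (hO.mem_nhds hq)
    filter_upwards [hmem] with z hz z' hzz ξ
    obtain ⟨_, _, hΦ, hcd, hfst, hder, hver⟩ := hr (y, z) hz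
    have hfst' : (ψ (y, z)).1 = y' := by
      rw [hfst]
      show chartAt F b₀' ((chartAt F b₀).symm y) = y'
      rw [hyy]
      exact (chartAt F b₀').right_inv (C'.sub hy')
    have hψe : ψ (y, z) = (y', (ψ (y, z)).2) := Prod.ext hfst' rfl
    have hlin : fderiv ℝ ψ (y, z) (0, ξ) = (0, (fderiv ℂ ψ (y, z) (0, ξ)).2) := by
      have h6 : fderiv ℝ ψ (y, z) = (fderiv ℂ ψ (y, z)).restrictScalars ℝ :=
        (hcd.differentiableAt (by simp)).fderiv_restrictScalars ℝ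
      refine Prod.ext (hver ξ) ?_
      rw [h6]
      rfl
    have h7 : C'.Φ (y', (ψ (y, z)).2) = C'.Φ (y', z') := by
      rw [← hψe, hΦ, hzz]
    have h8 : dvec E C'.Φ (ψ (y, z)) = dvec E C'.Φ (y', (ψ (y, z)).2) := congrArg (dvec E C'.Φ) hψe
    have h9 : dvec E C.Φ (y, z) (0, ξ) = dvec E C'.Φ (ψ (y, z)) (fderiv ℝ ψ (y, z) (0, ξ)) := by
      rw [hder]
      rfl
    rw [h9, hlin, h8]
    exact vert_congr C' hy' h7 _

private theorem Liou_uniq (C' : TorusChart E F π k b₀') {y' : F} (hy' : y' ∈ C'.V) (z' : Fin k → ℂ)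
    {A A' : (Fin k → ℂ) →L[ℂ] (Fin k → ℂ)}
    (h : ∀ ξ, dvec E C'.Φ (y', z') (0, A ξ) = dvec E C'.Φ (y', z') (0, A' ξ)) : A = A' := by
  refine ContinuousLinearMap.ext fun ξ => ?_
  have h1 := (tc_bij C' (q := (y', z')) hy').1 (h ξ)
  exact (Prod.mk.inj h1).2

theorem liou (C : TorusChart E F π k b₀) (C' : TorusChart E F π k b₀') {y y' : F}
    (hy : y ∈ C.V) (hy' : y' ∈ C'.V) (hyy : (chartAt F b₀).symm y = (chartAt F b₀').symm y') :
    ∃ A : (Fin k → ℂ) →L[ℂ] (Fin k → ℂ), Function.Bijective A ∧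
      ∀ z z' : Fin k → ℂ, C.Φ (y, z) = C'.Φ (y', z') → ∀ ξ : Fin k → ℂ,
        dvec E C.Φ (y, z) (0, ξ) = dvec E C'.Φ (y', z') (0, A ξ) := by
  choose Λ hd he using Liou_local C C' hy hy' hyy
  have hL : ∀ z z' : Fin k → ℂ, C.Φ (y, z) = C'.Φ (y', z') → ∀ ξ : Fin k → ℂ,
      dvec E C.Φ (y, z) (0, ξ) = dvec E C'.Φ (y', z') (0, Λ z z ξ) := fun z => (he z).self_of_nhds
  have hev : ∀ z0, (fun z => Λ z z) =ᶠ[𝓝 z0] Λ z0 := by
    intro z0
    filter_upwards [he z0] with z hz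
    obtain ⟨z', hz'⟩ := Liou_over C C' hy hy' hyy z
    refine Liou_uniq C' hy' z' fun ξ => ?_
    rw [← hL z z' hz' ξ, ← hz z' hz' ξ]
  have hdiff : Differentiable ℂ fun z => Λ z z := fun z0 => (hd z0).congr_of_eventuallyEq (hev z0)
  obtain ⟨K, hK, hred⟩ := exists_red C hy
  have hb : Bornology.IsBounded (Set.range fun z => Λ z z) := by
    refine (hK.image hdiff.continuous).isBounded.subset ?_
    rintro _ ⟨z, rfl⟩
    obtain ⟨z1, hz1, h1⟩ := hred z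
    refine ⟨z1, hz1, ?_⟩
    obtain ⟨z', hz'⟩ := Liou_over C C' hy hy' hyy z
    refine Liou_uniq C' hy' z' fun ξ => ?_
    rw [← hL z1 z' (h1.symm.trans hz') ξ, ← hL z z' hz' ξ]
    exact (vert_congr C hy h1 ξ).symm
  have hconst : ∀ z, Λ z z = Λ 0 0 := fun z => hdiff.apply_eq_apply_of_bounded hb z 0
  have hA : ∀ z z' : Fin k → ℂ, C.Φ (y, z) = C'.Φ (y', z') → ∀ ξ : Fin k → ℂ,
      dvec E C.Φ (y, z) (0, ξ) = dvec E C'.Φ (y', z') (0, Λ 0 0 ξ) := by
    intro z z' h ξ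
    rw [← hconst z]
    exact hL z z' h ξ
  refine ⟨Λ 0 0, ?_, hA⟩
  have hinj : Function.Injective (Λ 0 0) := by
    rw [injective_iff_map_eq_zero]
    intro ξ hξ
    obtain ⟨z', hz'⟩ := Liou_over C C' hy hy' hyy 0
    have h1 := hA 0 z' hz' ξ
    rw [hξ] at h1
    have h2 : dvec E C'.Φ (y', z') (0, 0) = 0 := map_zero (dvec E C'.Φ (y', z'))
    rw [h2] at h1
    have h3 := (tc_bij C (q := (y, 0)) hy).1 (h1.trans (map_zero (dvec E C.Φ (y, 0))).symm)
    exact (Prod.mk.inj h3).2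
  exact ⟨hinj, (LinearMap.injective_iff_surjective (f := ((Λ 0 0 : (Fin k → ℂ) →L[ℂ] (Fin k → ℂ)) :
    (Fin k → ℂ) →ₗ[ℂ] (Fin k → ℂ)))).1 hinj⟩

end Pool.Agent.FBT
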