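import Pool.Agent.FBT.Defs

/-!
# FBT/Mloc: the integral matrix of a change of torus charts is locally constant

The columns of the matrix are the coordinates, for a continuous family of bases, of continuous vectors, and they are integral.
-/

set_option autoImplicit false
set_option maxSynthPendingDepth 3

noncomputable section

open scoped Manifold ContDiff Topology

namespace Pool.Agent.FBT

open Pool.Agent.FBR

universe u

variable {F : Type u} [NormedAddCommGroup F] [NormedSpace ℂ F] {k : ℕ} {V' W : Set F}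
  {lam lam' : Fin (2 * k) → F → (Fin k → ℂ)} {κ : F → F}
  {A : F → (Fin k → ℂ) →L[ℂ] (Fin k → ℂ)}

/-- the linear map with the values `v i` at the unit vectors -/
private def Mloc_R {n : ℕ} (v : Fin n → (Fin k → ℂ)) : (Fin n → ℝ) →L[ℝ] (Fin k → ℂ) :=
  ∑ i, (ContinuousLinearMap.proj (R := ℝ) (φ := fun _ : Fin n => ℝ) i).smulRight (v i)

private theorem Mloc_R_apply {n : ℕ} (v : Fin n → (Fin k → ℂ)) (s : Fin n → ℝ) :
    Mloc_R v s = ∑ i, s i • v i := by
  unfold Mloc_R
  rw [sum_apply]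
  rfl

private theorem Mloc_equiv (v : Fin (2 * k) → (Fin k → ℂ)) (hv : LinearIndependent ℝ v) :
    ∃ e : (Fin (2 * k) → ℝ) ≃L[ℝ] (Fin k → ℂ), (e : (Fin (2 * k) → ℝ) →L[ℝ] (Fin k → ℂ)) = Mloc_R v := by
  have hinj : Function.Injective (Mloc_R v : (Fin (2 * k) → ℝ) →ₗ[ℝ] (Fin k → ℂ)) := by
    rw [← LinearMap.ker_eq_bot, LinearMap.ker_eq_bot']
    intro s hs
    have h1 : ∑ i, s i • v i = 0 := by
      rw [← Mloc_R_apply]
      exact hs
    funext i
    exact Fintype.linearIndependent_iff.1 hv s h1 i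
  have hfin : Module.finrank ℝ (Fin (2 * k) → ℝ) = Module.finrank ℝ (Fin k → ℂ) := by
    rw [Module.finrank_fin_fun, Module.finrank_pi_fintype]
    simp [Complex.finrank_real_complex, Nat.mul_comm]
  have hbij : Function.Bijective (Mloc_R v : (Fin (2 * k) → ℝ) →ₗ[ℝ] (Fin k → ℂ)) :=
    ⟨hinj, (LinearMap.injective_iff_surjective_of_finrank_eq_finrank hfin).1 hinj⟩
  refine ⟨(LinearEquiv.ofBijective _ hbij).toContinuousLinearEquiv, ?_⟩
  ext1 s
  rfl

theorem mloc (hL' : Lat V' lam') (hW : IsOpen W) (hκ : ContinuousOn κ W) (hA : ContinuousOn A W)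
    (hlam : ∀ j, ContinuousOn (lam j) W) (hmaps : ∀ y ∈ W, κ y ∈ V')
    (hm : ∀ y ∈ W, ∃ m : Matrix (Fin (2 * k)) (Fin (2 * k)) ℤ, IsUnit m.det ∧
      ∀ j, A y (lam j y) = ∑ i, m i j • lam' i (κ y)) {y0 : F} (hy0 : y0 ∈ W) :
    ∃ (W' : Set F) (m : Matrix (Fin (2 * k)) (Fin (2 * k)) ℤ), IsOpen W' ∧ y0 ∈ W' ∧ W' ⊆ W ∧
      IsUnit m.det ∧ ∀ y ∈ W', ∀ j, A y (lam j y) = ∑ i, m i j • lam' i (κ y) := by
  choose! m hdet hm using hm
  -- the coordinates of the columns
  let R : F → (Fin (2 * k) → ℝ) →L[ℝ] (Fin k → ℂ) := fun y => Mloc_R fun i => lam' i (κ y)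
  have hcol : ∀ y ∈ W, ∀ j, (R y).inverse (A y (lam j y)) = fun i => ((m y i j : ℤ) : ℝ) := by
    intro y hy j
    obtain ⟨e, he⟩ := Mloc_equiv (fun i => lam' i (κ y)) (hL'.indep (κ y) (hmaps y hy))
    have h1 : A y (lam j y) = R y (fun i => ((m y i j : ℤ) : ℝ)) := by
      rw [hm y hy j]
      show _ = Mloc_R _ _
      rw [Mloc_R_apply]
      refine Finset.sum_congr rfl fun i _ => ?_
      rw [Int.cast_smul_eq_zsmul]
    rw [h1]
    show (Mloc_R _).inverse (Mloc_R _ _) = _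
    rw [← he, ContinuousLinearMap.inverse_equiv]
    exact e.symm_apply_apply _
  have hRc : ContinuousAt R y0 := by
    have h1 : ∀ i, ContinuousAt (fun y => lam' i (κ y)) y0 := by
      intro i
      have h2 : ContinuousAt (lam' i) (κ y0) :=
        (hL'.hol i).continuousOn.continuousAt (hL'.isOpen.mem_nhds (hmaps y0 hy0))
      exact ContinuousAt.comp (f := κ) (g := lam' i) h2 (hκ.continuousAt (hW.mem_nhds hy0))
    have h3 : ∀ i, ContinuousAt (fun y => (ContinuousLinearMap.proj (R := ℝ) (φ := fun _ : Fin (2 * k) => ℝ)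
        i).smulRight (lam' i (κ y))) y0 := by
      intro i
      exact ContinuousAt.comp (f := fun y => lam' i (κ y))
        (g := fun x : Fin k → ℂ => (ContinuousLinearMap.proj (R := ℝ) (φ := fun _ : Fin (2 * k) => ℝ) i).smulRight x)
        ((ContinuousLinearMap.smulRightL ℝ (Fin (2 * k) → ℝ) (Fin k → ℂ)
          (ContinuousLinearMap.proj (R := ℝ) (φ := fun _ : Fin (2 * k) => ℝ) i)).continuous.continuousAt) (h1 i)
    exact tendsto_finsetSum _ fun i _ => h3 i
  have hinv : ContinuousAt (fun y => (R y).inverse) y0 := by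
    obtain ⟨e, he⟩ := Mloc_equiv (fun i => lam' i (κ y0)) (hL'.indep (κ y0) (hmaps y0 hy0))
    have h1 : ContinuousAt (ContinuousLinearMap.inverse : ((Fin (2 * k) → ℝ) →L[ℝ] (Fin k → ℂ)) → _) (R y0) := by
      have h2 := (contDiffAt_map_inverse (n := 0) e).continuousAt
      rwa [he] at h2
    exact ContinuousAt.comp (f := R) (g := ContinuousLinearMap.inverse) h1 hRc
  have hc : ∀ j, ContinuousAt (fun y => (R y).inverse (A y (lam j y))) y0 := by
    intro j
    exact hinv.clm_apply ((hA.continuousAt (hW.mem_nhds hy0)).clm_apply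
      ((hlam j).continuousAt (hW.mem_nhds hy0)))
  have hev : ∀ᶠ y in 𝓝 y0, y ∈ W ∧ ∀ j i, |((R y).inverse (A y (lam j y))) i -
      ((R y0).inverse (A y0 (lam j y0))) i| < 1 := by
    refine Filter.Eventually.and (hW.mem_nhds hy0)
      (Filter.eventually_all.2 fun j => Filter.eventually_all.2 fun i => ?_)
    have h1 : ContinuousAt (fun y => ((R y).inverse (A y (lam j y))) i) y0 :=
      (continuous_apply i).continuousAt.comp (hc j)
    have h2 := Metric.tendsto_nhds.1 h1 1 one_pos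
    exact h2
  obtain ⟨W', h1, h2, h3⟩ := mem_nhds_iff.1 hev
  refine ⟨W', m y0, h2, h3, fun y hy => (h1 hy).1, hdet y0 hy0, fun y hy j => ?_⟩
  obtain ⟨h4, h5⟩ := h1 hy
  rw [hm y h4 j]
  refine Finset.sum_congr rfl fun i _ => ?_
  have h6 := h5 j i
  rw [hcol y h4 j, hcol y0 hy0 j] at h6
  have h6 : |((m y i j : ℤ) : ℝ) - ((m y0 i j : ℤ) : ℝ)| < 1 := h6
  have h7 : |m y i j - m y0 i j| < 1 := by exact_mod_cast h6
  have h8 : m y i j = m y0 i j := by
    rw [Int.abs_lt_one_iff] at h7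
    omega
  rw [h8]

end Pool.Agent.FBT
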