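import Pool.Agent.FBT.Bav
import Pool.Agent.FBT.Base

/-!
# FBT/NonD: the fibrewise average is nondegenerate on all fibres

PROOF PLAN.  Write `av C = avg C.lam (tpb b.val C.Φ)`.  `nonDeg_indep`: if `(chartAt F b₀).symm q.1 =
(chartAt F b₀').symm q'.1` then `NonDeg (av C q) ↔ NonDeg (av C' q')`: choose `z'` with `C'.Φ (q'.1, z') = C.Φ q` (`tc_over`,
`C.proj`), `avg_glob` and `nonDeg_comp` for `q, (q'.1, z')`, and `nonDeg_vert` (with `avg_sinv`) twice for
`(q'.1, z')`, `q'`.
`S = {p : B | ∀ z, NonDeg (av (tc hπ p) (chartAt F p p, z))}`.  `S` is open and its complement is open: for `p : B`,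
`C = tc hπ p`, `nonDeg_near` at `y = chartAt F p p`: for all `y'` near `y`, `NonDeg (av C (y', 0)) ↔ NonDeg (av C (y, 0))`; every `p'` near `p` is
`(chartAt F p).symm y'` with `y' = chartAt F p p' ∈ C.V` near `y` (continuity of the chart), and by `nonDeg_indep` the condition for `p'`
in the chart `tc hπ p'` is the one for `(y', 0)` in `C`.  `π x0 ∈ S` by `avg_pos_glob` and `nonDeg_of_pos`.  `B` is
connected, so `S = univ` (`IsClopen.eq_univ`); conclude with `nonDeg_indep`.
-/

set_option autoImplicit false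

noncomputable section

open scoped Manifold ContDiff Topology

namespace Pool.Agent.FBT

open Pool.Agent.FBR

universe u

variable {E X F B : Type u} [NormedAddCommGroup E] [NormedSpace ℂ E] [FiniteDimensional ℂ E]
  [TopologicalSpace X] [T2Space X] [ChartedSpace E X] [IsManifold 𝓘(ℂ, E) ω X]
  [NormedAddCommGroup F] [NormedSpace ℂ F] [FiniteDimensional ℂ F] [TopologicalSpace B]
  [ChartedSpace F B] [IsManifold 𝓘(ℂ, F) ω B] {π : X → B} {k : ℕ}

theorem nonDeg_indep (b : Form E X) {b₀ b₀' : B} (C : TorusChart E F π k b₀)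
    (C' : TorusChart E F π k b₀') {q q' : F × (Fin k → ℂ)} (hq : q.1 ∈ C.V) (hq' : q'.1 ∈ C'.V)
    (h : (chartAt F b₀).symm q.1 = (chartAt F b₀').symm q'.1) :
    NonDeg (avg C.lam (tpb b.val C.Φ) q) ↔ NonDeg (avg C'.lam (tpb b.val C'.Φ) q') := by
  have h1 : π (C.Φ q) = (chartAt F b₀').symm q'.1 := by
    rw [← h]
    exact C.proj q.1 hq q.2
  obtain ⟨z', hz'⟩ := tc_over C' hq' h1
  obtain ⟨B', A', L, hA, -, hL, -, he⟩ :=
    avg_glob C C' b hq (q' := (q'.1, z')) hq' hz'.symm
  have h2 : SInv C'.V C'.lam (avg C'.lam (tpb b.val C'.Φ)) :=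
    avg_sinv (tc_lat C') (tc_form C' b) (tc_per C' b.val)
  rw [he, nonDeg_comp _ _ B' A' hA L hL, nonDeg_vert (tc_lat C') h2 (q := (q'.1, z')) hq',
    nonDeg_vert (tc_lat C') h2 (q := q') hq']

theorem nonDeg_all [PreconnectedSpace B] (hπ : TorusFib E F π k) {b : Form E X} (hb : b.Semi)
    {x0 : X} (h0 : b.PosAt x0) {b₀ : B} (C : TorusChart E F π k b₀) {q : F × (Fin k → ℂ)}
    (hq : q.1 ∈ C.V) : NonDeg (avg C.lam (tpb b.val C.Φ) q) := by
  set S : Set B := {p | NonDeg (avg (tc hπ p).lam (tpb b.val (tc hπ p).Φ) (chartAt F p p, 0))}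
    with hS
  have hsymm : ∀ p : B, (chartAt F p).symm (chartAt F p p) = p := fun p =>
    (chartAt F p).left_inv (mem_chart_source F p)
  -- the condition is locally constant
  have hloc : ∀ p : B, ∀ᶠ p' in 𝓝 p, (p' ∈ S ↔ p ∈ S) := by
    intro p
    have h1 := nonDeg_near (tc_lat (tc hπ p)) (avg_form (tc_lat (tc hπ p)) (tc_form (tc hπ p) b))
      (avg_sinv (tc_lat (tc hπ p)) (tc_form (tc hπ p) b) (tc_per (tc hπ p) b.val))
      (tc hπ p).mem
    have hc : ContinuousAt (chartAt F p) p := (chartAt F p).continuousAt (mem_chart_source F p)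
    have h2 : ∀ᶠ p' in 𝓝 p, chartAt F p p' ∈ (tc hπ p).V :=
      hc.eventually ((tc hπ p).isOpen.mem_nhds (tc hπ p).mem)
    have h3 : ∀ᶠ p' in 𝓝 p, p' ∈ (chartAt F p).source :=
      (chartAt F p).open_source.mem_nhds (mem_chart_source F p)
    filter_upwards [hc.eventually h1, h2, h3] with p' h4 h5 h6
    have h7 := nonDeg_indep b (tc hπ p) (tc hπ p') (q := (chartAt F p p', 0))
      (q' := (chartAt F p' p', 0)) h5 (tc hπ p').mem
      (by rw [(chartAt F p).left_inv h6, hsymm])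
    exact h7.symm.trans h4
  have hopen : IsOpen S := by
    rw [isOpen_iff_mem_nhds]
    intro p hp
    filter_upwards [hloc p] with p' h
    exact h.mpr hp
  have hcl : IsClosed S := by
    rw [← isOpen_compl_iff, isOpen_iff_mem_nhds]
    intro p hp
    filter_upwards [hloc p] with p' h
    exact fun h' => hp (h.mp h')
  have hne : (π x0) ∈ S := by
    have h1 := avg_pos_glob hb h0 (tc hπ (π x0)) (q := (chartAt F (π x0) (π x0), 0))
      (tc hπ (π x0)).mem (hsymm (π x0))
    exact nonDeg_of_pos h1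
  have huniv : S = Set.univ := IsClopen.eq_univ ⟨hcl, hopen⟩ ⟨π x0, hne⟩
  have hp : (chartAt F b₀).symm q.1 ∈ S := by rw [huniv]; trivial
  exact (nonDeg_indep b C (tc hπ ((chartAt F b₀).symm q.1))
    (q' := (chartAt F ((chartAt F b₀).symm q.1) ((chartAt F b₀).symm q.1), 0)) hq
    (tc hπ _).mem (hsymm _).symm).mpr hp

end Pool.Agent.FBT
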