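import Pool.Agent.FBT.Defs

/-!
# FBT/SchA: the Schur complement, linear algebra

PROOF PLAN.  `fibP c ξ η = c (0, ξ) (0, η)`, `mixP c u η = c (u, 0) (0, η)`, `horP c u = (u, - projP c u)` hold by
`rfl`/`simp`.  `nonDeg_iff`: `P` is finite dimensional, so `fibP c : P →L[ℝ] P →L[ℝ] ℝ` is a map between spaces
of the same finite dimension, invertible iff injective (`LinearMap.injective_iff_surjective_of_finrank_eq_finrank`,
dual space of `P`; `LinearEquiv.toContinuousLinearEquiv`, `ContinuousLinearMap.IsInvertible`).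
`projP_spec`: `(fibP c) ((fibP c).inverse x) = x` for invertible `fibP c`.
`horP_spec`: subtract.  `eq_horP`: `(u, ξ) - horP c u = (0, ξ + projP c u)` is orthogonal to all `(0, η)`, use
`nonDeg_iff`.  `nonDeg_comp`: `L (0, ξ) = (0, A ξ)`, and `A` bijective (`B 0 = 0`, `κ 0 = 0`).
`schur_comp`: `L (horP c' u) = horP c (κ u)` by `eq_horP`: `c (L (horP c' u)) (0, A η) = c' (horP c' u) (0, η) = 0`.
-/

set_option autoImplicit false

noncomputable section

namespace Pool.Agent.FBT

open Pool.Agent.FBR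

variable {F P F' P' : Type*} [NormedAddCommGroup F] [NormedSpace ℝ F] [NormedAddCommGroup P]
  [NormedSpace ℝ P] [NormedAddCommGroup F'] [NormedSpace ℝ F'] [NormedAddCommGroup P']
  [NormedSpace ℝ P']

theorem fibP_apply (c : Bil (F × P)) (ξ η : P) : fibP c ξ η = c (0, ξ) (0, η) := by
  simp [fibP]

theorem mixP_apply (c : Bil (F × P)) (u : F) (η : P) : mixP c u η = c (u, 0) (0, η) := by
  simp [mixP]

theorem horP_apply (c : Bil (F × P)) (u : F) : horP c u = (u, -projP c u) := by
  simp [horP]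

theorem schur_apply (c : Bil (F × P)) (u v : F) : schur c u v = c (horP c u) (horP c v) := by
  simp [schur]

private theorem SchA_swap {c : Bil (F × P)} (ha : AltB c) (x y : F × P) : c x y = - c y x := by
  have h1 := ha (x + y)
  rw [map_add, map_add, _root_.add_apply, _root_.add_apply, ha x, ha y] at h1
  linarith

private theorem SchA_inj {c : Bil (F × P)} (h : NonDeg c) : Function.Injective (fibP c) := by
  obtain ⟨e, he⟩ := h
  rw [← he]
  exact e.injective

private theorem SchA_ker (c : Bil (F × P)) (h : Function.Injective (fibP c)) (ξ : P)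
    (hξ : ∀ η : P, c (0, ξ) (0, η) = 0) : ξ = 0 := by
  apply h
  rw [map_zero]
  ext η
  rw [fibP_apply, hξ]
  rfl

theorem nonDeg_iff [FiniteDimensional ℝ P] (c : Bil (F × P)) :
    NonDeg c ↔ ∀ ξ : P, (∀ η : P, c (0, ξ) (0, η) = 0) → ξ = 0 := by
  constructor
  · intro h ξ hξ
    exact SchA_ker c (SchA_inj h) ξ hξ
  · intro h
    have hinj : Function.Injective (fibP c) := by
      rw [injective_iff_map_eq_zero]
      intro ξ hξ
      apply h
      intro η
      rw [← fibP_apply, hξ]
      rfl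
    have hfd : FiniteDimensional ℝ (P →L[ℝ] ℝ) := inferInstance
    have hrank : Module.finrank ℝ P = Module.finrank ℝ (P →L[ℝ] ℝ) := by
      have h1 : Module.finrank ℝ (P →L[ℝ] ℝ) = Module.finrank ℝ (P →ₗ[ℝ] ℝ) :=
        (LinearMap.toContinuousLinearMap (𝕜 := ℝ) (E := P) (F' := ℝ)).finrank_eq.symm
      rw [h1]
      exact (Subspace.dual_finrank_eq (K := ℝ) (V := P)).symm
    let e : P ≃L[ℝ] (P →L[ℝ] ℝ) :=
      (LinearEquiv.ofInjectiveOfFinrankEq (fibP c).toLinearMap hinj hrank).toContinuousLinearEquiv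
    refine ⟨e, ?_⟩
    ext ξ η
    rfl

theorem projP_spec {c : Bil (F × P)} (h : NonDeg c) (u : F) (η : P) :
    c (0, projP c u) (0, η) = c (u, 0) (0, η) := by
  rw [← fibP_apply, ← mixP_apply]
  have h1 : fibP c (projP c u) = mixP c u := by
    unfold projP
    rw [ContinuousLinearMap.comp_apply]
    obtain ⟨e, he⟩ := h
    rw [← he, ContinuousLinearMap.inverse_equiv]
    simp
  rw [h1]

theorem horP_spec {c : Bil (F × P)} (h : NonDeg c) (u : F) (η : P) :
    c (horP c u) (0, η) = 0 := by
  have h1 : horP c u = (u, 0) - (0, projP c u) := by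
    rw [horP_apply]
    simp
  rw [h1, map_sub, _root_.sub_apply, projP_spec h, sub_self]

theorem eq_horP {c : Bil (F × P)} (h : NonDeg c) {u : F} {ξ : P}
    (hh : ∀ η : P, c (u, ξ) (0, η) = 0) : (u, ξ) = horP c u := by
  have h1 : ξ + projP c u = 0 := by
    refine SchA_ker c (SchA_inj h) _ fun η => ?_
    have h2 : ((0 : F), ξ + projP c u) = (u, ξ) - horP c u := by
      rw [horP_apply]
      simp
    rw [h2, map_sub, _root_.sub_apply, hh, horP_spec h, sub_zero]
  rw [horP_apply]
  rw [eq_neg_of_add_eq_zero_left h1]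

/-- the Schur complement in terms of the mixed and the fibre part -/
theorem schur_eq {c : Bil (F × P)} (ha : AltB c) (h : NonDeg c) (u v : F) :
    schur c u v = c (u, 0) (v, 0) - c (0, projP c u) (0, projP c v) := by
  have hsw : ∀ x y : F × P, c x y = - c y x := fun x y => SchA_swap ha x y
  have h1 : ∀ w, horP c w = (w, 0) - (0, projP c w) := by
    intro w
    rw [horP_apply]
    simp
  rw [schur_apply, h1 v, map_sub, horP_spec h, sub_zero, h1 u, map_sub,
    _root_.sub_apply]
  congr 1
  rw [hsw (0, projP c u) (v, 0), ← projP_spec h v (projP c u), ← hsw]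

theorem schur_alt {c : Bil (F × P)} (ha : AltB c) : AltB (schur c) := by
  intro v
  rw [schur_apply]
  exact ha _

theorem nonDeg_comp [FiniteDimensional ℝ P] [FiniteDimensional ℝ P'] (c : Bil (F × P))
    (κ : F' →L[ℝ] F) (B : F' →L[ℝ] P) (A : P' →L[ℝ] P) (hA : Function.Bijective A)
    (L : F' × P' →L[ℝ] F × P) (hL : ∀ (u : F') (ξ : P'), L (u, ξ) = (κ u, B u + A ξ)) :
    NonDeg (c.bilinearComp L L) ↔ NonDeg c := by
  have hL0 : ∀ ξ : P', L (0, ξ) = (0, A ξ) := by
    intro ξ
    rw [hL]
    simp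
  rw [nonDeg_iff, nonDeg_iff]
  constructor
  · intro h ξ hξ
    obtain ⟨ξ', rfl⟩ := hA.2 ξ
    rw [h ξ' ?_, map_zero]
    intro η
    rw [ContinuousLinearMap.bilinearComp_apply, hL0, hL0]
    exact hξ _
  · intro h ξ hξ
    have h1 : A ξ = 0 := by
      apply h
      intro η
      obtain ⟨η', rfl⟩ := hA.2 η
      have h2 := hξ η'
      rw [ContinuousLinearMap.bilinearComp_apply, hL0, hL0] at h2
      exact h2
    exact hA.1 (by rw [h1, map_zero])

theorem schur_comp [FiniteDimensional ℝ P] [FiniteDimensional ℝ P'] (c : Bil (F × P))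
    (κ : F' →L[ℝ] F) (B : F' →L[ℝ] P) (A : P' →L[ℝ] P) (hA : Function.Bijective A)
    (L : F' × P' →L[ℝ] F × P) (hL : ∀ (u : F') (ξ : P'), L (u, ξ) = (κ u, B u + A ξ))
    (h : NonDeg c) :
    schur (c.bilinearComp L L) = (schur c).bilinearComp κ κ := by
  have hL0 : ∀ ξ : P', L (0, ξ) = (0, A ξ) := by
    intro ξ
    rw [hL]
    simp
  have h' : NonDeg (c.bilinearComp L L) := (nonDeg_comp c κ B A hA L hL).2 h
  have key : ∀ u : F', L (horP (c.bilinearComp L L) u) = horP c (κ u) := by
    intro u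
    have h1 : L (horP (c.bilinearComp L L) u)
        = (κ u, B u + A (-projP (c.bilinearComp L L) u)) := by
      rw [horP_apply, hL]
    rw [h1]
    refine eq_horP h fun η => ?_
    obtain ⟨η', rfl⟩ := hA.2 η
    rw [← h1, ← hL0, ← ContinuousLinearMap.bilinearComp_apply]
    exact horP_spec h' u η'
  ext u v
  rw [schur_apply, ContinuousLinearMap.bilinearComp_apply, key, key,
    ContinuousLinearMap.bilinearComp_apply, schur_apply]

end Pool.Agent.FBT
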