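import Pool.Agent.FBT.Defs
import Pool.Agent.FBR.Cl

/-!
# FBT/Sh: pull backs of fields of bilinear forms and the flat translations: basic facts

PROOF PLAN.  `pb c f q u v = c (f q) (fderiv ℝ f q u) (fderiv ℝ f q v)` (`rfl`).
`pb_pb`: chain rule `fderiv_comp`.  `pb_congr`: `Filter.EventuallyEq.fderiv_eq`, `eq_of_nhds`.
`sh`: the first coordinate is unchanged; `sh_add`: `Finset.sum_add_distrib`, `add_smul`.
`contDiffOn_sh`: `contDiffOn_fst/snd`, sums and smul (`(hL.hol j).restrict_scalars ℝ`, `.of_le`);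
`fderiv_sh`: `HasFDerivAt.prodMk`, `HasFDerivAt.sum` (`lam j ∘ Prod.fst`), everything differentiable at
`q` since `V` is open.  `fderiv_sh_I`: `fderiv ℝ (lam j) = restrictScalars (fderiv ℂ (lam j))`
(`DifferentiableAt.fderiv_restrictScalars`).  `fderiv_sh_bij`: the inverse is `fderiv (sh (-t))`-like:
from the explicit formula.
-/

set_option autoImplicit false

noncomputable section

open scoped Manifold ContDiff Topology
open MeasureTheory

namespace Pool.Agent.FBT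

open Pool.Agent.FBR

section General

variable {G H K : Type*} [NormedAddCommGroup G] [NormedSpace ℝ G] [NormedAddCommGroup H]
  [NormedSpace ℝ H] [NormedAddCommGroup K] [NormedSpace ℝ K]

theorem pb_apply (c : H → Bil H) (f : G → H) (q u v : G) :
    pb c f q u v = c (f q) (fderiv ℝ f q u) (fderiv ℝ f q v) := rfl

theorem pb_pb (c : K → Bil K) {f : H → K} {g : G → H} {q : G} (hf : DifferentiableAt ℝ f (g q))
    (hg : DifferentiableAt ℝ g q) : pb (pb c f) g q = pb c (f ∘ g) q := by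
  ext u v
  rw [pb_apply, pb_apply, pb_apply, fderiv_comp q hf hg]
  rfl

theorem pb_congr (c : H → Bil H) {f f' : G → H} {q : G} (h : f =ᶠ[𝓝 q] f') :
    pb c f q = pb c f' q := by
  unfold pb
  rw [h.fderiv_eq, h.eq_of_nhds]

theorem pb_id (c : G → Bil G) (q : G) : pb c id q = c q := by
  ext u v
  rw [pb_apply, fderiv_id]
  rfl

theorem pb_alt {c : H → Bil H} {f : G → H} {q : G} (h : AltB (c (f q))) : AltB (pb c f q) := by
  intro v
  rw [pb_apply]
  exact h _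

end General

variable {F : Type*} [NormedAddCommGroup F] [NormedSpace ℂ F] {k : ℕ} {V : Set F}
  {lam : Fin (2 * k) → F → (Fin k → ℂ)}

theorem sh_fst (t : Fin (2 * k) → ℝ) (q : F × (Fin k → ℂ)) : (sh lam t q).1 = q.1 := rfl

theorem sh_zero (q : F × (Fin k → ℂ)) : sh lam 0 q = q := by
  refine Prod.ext rfl ?_
  simp [sh]

theorem sh_add (s t : Fin (2 * k) → ℝ) (q : F × (Fin k → ℂ)) :
    sh lam t (sh lam s q) = sh lam (t + s) q := by
  refine Prod.ext rfl ?_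
  show (q.2 + ∑ j, s j • lam j q.1) + ∑ j, t j • lam j q.1 =
    q.2 + ∑ j, (t + s) j • lam j q.1
  rw [add_assoc, ← Finset.sum_add_distrib]
  congr 1
  refine Finset.sum_congr rfl fun j _ => ?_
  rw [Pi.add_apply, add_smul, add_comm]

theorem contDiffOn_sh (hL : Lat V lam) :
    ContDiffOn ℝ ∞ (fun p : (Fin (2 * k) → ℝ) × (F × (Fin k → ℂ)) => sh lam p.1 p.2)
      (Set.univ ×ˢ (V ×ˢ Set.univ)) := by
  have h1 : ∀ j, ContDiffOn ℝ ∞ (lam j) V := fun j =>
    ((hL.hol j).restrict_scalars ℝ).of_le (by simp)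
  have hfst : ContDiffOn ℝ ∞ (fun p : (Fin (2 * k) → ℝ) × (F × (Fin k → ℂ)) => p.2.1)
      (Set.univ ×ˢ (V ×ˢ Set.univ)) := contDiffOn_snd.fst
  have hsnd : ContDiffOn ℝ ∞ (fun p : (Fin (2 * k) → ℝ) × (F × (Fin k → ℂ)) => p.2.2)
      (Set.univ ×ˢ (V ×ˢ Set.univ)) := contDiffOn_snd.snd
  have h2 : ∀ j, ContDiffOn ℝ ∞ (fun p : (Fin (2 * k) → ℝ) × (F × (Fin k → ℂ)) => lam j p.2.1)
      (Set.univ ×ˢ (V ×ˢ Set.univ)) := fun j =>
    (h1 j).comp hfst fun p hp => hp.2.1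
  have h3 : ∀ j, ContDiffOn ℝ ∞ (fun p : (Fin (2 * k) → ℝ) × (F × (Fin k → ℂ)) => p.1 j)
      (Set.univ ×ˢ (V ×ˢ Set.univ)) := fun j =>
    (contDiff_apply ℝ ℝ j).comp_contDiffOn contDiffOn_fst
  exact hfst.prodMk (hsnd.add (ContDiffOn.sum fun j _ => (h3 j).smul (h2 j)))

theorem contDiffAt_sh (hL : Lat V lam) (t : Fin (2 * k) → ℝ) {q : F × (Fin k → ℂ)} (hq : q.1 ∈ V) :
    ContDiffAt ℝ ∞ (sh lam t) q := by
  have ho : IsOpen ((Set.univ : Set (Fin (2 * k) → ℝ)) ×ˢ (V ×ˢ (Set.univ : Set (Fin k → ℂ)))) :=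
    isOpen_univ.prod (hL.isOpen.prod isOpen_univ)
  have h1 : ContDiffAt ℝ ∞ (fun p : (Fin (2 * k) → ℝ) × (F × (Fin k → ℂ)) => sh lam p.1 p.2)
      (t, q) := (contDiffOn_sh hL).contDiffAt (ho.mem_nhds ⟨Set.mem_univ _, hq, Set.mem_univ _⟩)
  exact h1.comp q (contDiffAt_const.prodMk contDiffAt_id)

theorem contDiffAt_sh_C (hL : Lat V lam) (t : Fin (2 * k) → ℝ) {q : F × (Fin k → ℂ)}
    (hq : q.1 ∈ V) : ContDiffAt ℂ ∞ (sh lam t) q := by
  have h1 : ∀ j, ContDiffAt ℂ ∞ (lam j) q.1 := fun j =>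
    ((hL.hol j).contDiffAt (hL.isOpen.mem_nhds hq)).of_le (by simp)
  have h2 : ∀ j, ContDiffAt ℂ ∞ (fun p : F × (Fin k → ℂ) => lam j p.1) q := fun j =>
    (h1 j).comp q contDiffAt_fst
  exact contDiffAt_fst.prodMk (contDiffAt_snd.add (ContDiffAt.sum fun j _ => (h2 j).const_smul (t j)))

private theorem Sh_lamDiff (hL : Lat V lam) {y : F} (hy : y ∈ V) (j : Fin (2 * k)) :
    DifferentiableAt ℂ (lam j) y :=
  ((hL.hol j).contDiffAt (hL.isOpen.mem_nhds hy)).differentiableAt (by simp)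

private theorem Sh_hasFDerivAt (hL : Lat V lam) (t : Fin (2 * k) → ℝ) {q : F × (Fin k → ℂ)}
    (hq : q.1 ∈ V) :
    HasFDerivAt (𝕜 := ℝ) (sh lam t)
      ((ContinuousLinearMap.fst ℝ F (Fin k → ℂ)).prod
        (ContinuousLinearMap.snd ℝ F (Fin k → ℂ) +
          ∑ j, t j • (fderiv ℝ (lam j) q.1).comp (ContinuousLinearMap.fst ℝ F (Fin k → ℂ)))) q := by
  have h1 : ∀ j, HasFDerivAt (𝕜 := ℝ) (fun p : F × (Fin k → ℂ) => t j • lam j p.1)
      (t j • (fderiv ℝ (lam j) q.1).comp (ContinuousLinearMap.fst ℝ F (Fin k → ℂ))) q := fun j => by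
    have h2 : HasFDerivAt (𝕜 := ℝ) (lam j) (fderiv ℝ (lam j) q.1) q.1 :=
      ((Sh_lamDiff hL hq j).restrictScalars ℝ).hasFDerivAt
    exact (h2.comp q hasFDerivAt_fst).const_smul (t j)
  exact hasFDerivAt_fst.prodMk (hasFDerivAt_snd.add (HasFDerivAt.fun_sum fun j _ => h1 j))

theorem fderiv_sh (hL : Lat V lam) (t : Fin (2 * k) → ℝ) {q : F × (Fin k → ℂ)} (hq : q.1 ∈ V)
    (v : F × (Fin k → ℂ)) :
    fderiv ℝ (sh lam t) q v = (v.1, v.2 + ∑ j, t j • fderiv ℝ (lam j) q.1 v.1) := by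
  rw [(Sh_hasFDerivAt hL t hq).fderiv]
  refine Prod.ext rfl ?_
  show (ContinuousLinearMap.snd ℝ F (Fin k → ℂ) +
          ∑ j, t j • (fderiv ℝ (lam j) q.1).comp (ContinuousLinearMap.fst ℝ F (Fin k → ℂ))) v = _
  rw [ContinuousLinearMap.add_apply, ContinuousLinearMap.sum_apply]
  rfl

theorem fderiv_sh_I (hL : Lat V lam) (t : Fin (2 * k) → ℝ) {q : F × (Fin k → ℂ)} (hq : q.1 ∈ V)
    (v : F × (Fin k → ℂ)) :
    fderiv ℝ (sh lam t) q (Complex.I • v) = Complex.I • fderiv ℝ (sh lam t) q v := by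
  have h1 : DifferentiableAt ℂ (sh lam t) q := (contDiffAt_sh_C hL t hq).differentiableAt (by simp)
  rw [h1.fderiv_restrictScalars ℝ]
  exact (fderiv ℂ (sh lam t) q).map_smul Complex.I v

theorem fderiv_sh_bij (hL : Lat V lam) (t : Fin (2 * k) → ℝ) {q : F × (Fin k → ℂ)}
    (hq : q.1 ∈ V) : Function.Bijective (fderiv ℝ (sh lam t) q) := by
  constructor
  · intro v w h
    rw [fderiv_sh hL t hq, fderiv_sh hL t hq, Prod.mk.injEq] at h
    refine Prod.ext h.1 ?_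
    have h2 := h.2
    rw [h.1] at h2
    exact add_right_cancel h2
  · intro w
    refine ⟨(w.1, w.2 - ∑ j, t j • fderiv ℝ (lam j) q.1 w.1), ?_⟩
    rw [fderiv_sh hL t hq]
    exact Prod.ext rfl (sub_add_cancel _ _)

/-- translation by an integral vector more does not change the pull back -/
theorem pb_sh_add_int {c : F × (Fin k → ℂ) → Bil (F × (Fin k → ℂ))} (hL : Lat V lam)
    (hp : Per V lam c) (t : Fin (2 * k) → ℝ) (m : Fin (2 * k) → ℤ) {q : F × (Fin k → ℂ)}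
    (hq : q.1 ∈ V) : pb c (sh lam (t + fun j => (m j : ℝ))) q = pb c (sh lam t) q := by
  have h1 : pb (pb c (sh lam fun j => (m j : ℝ))) (sh lam t) q =
      pb c ((sh lam fun j => (m j : ℝ)) ∘ sh lam t) q :=
    pb_pb c (((contDiffAt_sh hL _ (q := sh lam t q) hq)).differentiableAt (by simp))
      ((contDiffAt_sh hL t hq).differentiableAt (by simp))
  have h2 : (sh lam fun j => (m j : ℝ)) ∘ sh lam t = sh lam (t + fun j => (m j : ℝ)) := by
    funext p
    rw [Function.comp_apply, sh_add, add_comm]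
  rw [h2] at h1
  rw [← h1]
  unfold pb
  congr 1
  exact hp m (sh lam t q) hq

end Pool.Agent.FBT
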