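import Pool.Agent.FBT.Fam
import Pool.Agent.FBT.LatM
import Pool.Agent.FBT.Mloc
import Pool.Agent.FBT.AvgT

/-!
# FBT/Trans: change of torus charts, and the flat averages of a form in two torus charts

PROOF PLAN.  `trans`: `fam`, `latM` for every `y ∈ W`, `mloc`; shrink `W` to `W'`.
`avg_glob`: with `ψ = aff κ A c` (`trans`): `tpb b.val C.Φ p = pb (tpb b.val C'.Φ) ψ p` for all `p` over `W`
(`C.Φ = C'.Φ ∘ ψ` on the open set `W ×ˢ univ`; `tpb_congr'`, `tpb_comp`, `pb` unfolds to `bilinearComp`), so by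
`avg_congr` and `avg_trans` (with `tc_form`, `tc_per` for `C'`, `tc_lat`)
`avg C.lam (tpb b.val C.Φ) q = pb (avg C'.lam (tpb b.val C'.Φ)) ψ q`, and `ψ q = q'`; `L = fderiv ℝ ψ q`, `fderiv_aff`;
`κ' = fderiv ℝ κ q.1`.  `dvec E C.Φ q = (dvec E C'.Φ q').comp L`: `dvec_congr'`, `dvec_comp`.  `L` is bijective since both `dvec` are
(`tc_bij`).  `A' = (A q.1).restrictScalars ℝ`.  `κ'` is bijective: from `L` (or: the coordinate change has
a smooth inverse).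
-/

set_option autoImplicit false

noncomputable section

open scoped Manifold ContDiff Topology

namespace Pool.Agent.FBT

open Pool.Agent.FBR

universe u

variable {E X F B : Type u} [NormedAddCommGroup E] [NormedSpace ℂ E] [FiniteDimensional ℂ E]
  [TopologicalSpace X] [T2Space X] [ChartedSpace E X] [IsManifold 𝓘(ℂ, E) ω X]
  [NormedAddCommGroup F] [NormedSpace ℂ F] [FiniteDimensional ℂ F] [TopologicalSpace B]
  [ChartedSpace F B] [IsManifold 𝓘(ℂ, F) ω B] {π : X → B} {k : ℕ} {b₀ b₀' : B}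

theorem trans (C : TorusChart E F π k b₀) (C' : TorusChart E F π k b₀')
    {q q' : F × (Fin k → ℂ)} (hq : q.1 ∈ C.V) (hq' : q'.1 ∈ C'.V) (h : C.Φ q = C'.Φ q') :
    ∃ (W : Set F) (A : F → (Fin k → ℂ) →L[ℂ] (Fin k → ℂ)) (c : F → (Fin k → ℂ))
      (m : Matrix (Fin (2 * k)) (Fin (2 * k)) ℤ),
      AffTr C.V C'.V W C.lam C'.lam (fun y => chartAt F b₀' ((chartAt F b₀).symm y)) A c m ∧
      q.1 ∈ W ∧ aff (fun y => chartAt F b₀' ((chartAt F b₀).symm y)) A c q = q' ∧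
      ∀ p : F × (Fin k → ℂ), p.1 ∈ W →
        C.Φ p = C'.Φ (aff (fun y => chartAt F b₀' ((chartAt F b₀).symm y)) A c p) := by
  obtain ⟨W, A, c, hWo, hqW, hWV, hκ, hA, hc, h1, h2, hall⟩ := fam C C' hq hq' h
  have hm : ∀ y ∈ W, ∃ m : Matrix (Fin (2 * k)) (Fin (2 * k)) ℤ, IsUnit m.det ∧
      ∀ j, A y (C.lam j y) =
        ∑ i, m i j • C'.lam i (chartAt F b₀' ((chartAt F b₀).symm y)) := by
    intro y hy
    obtain ⟨hyV, hbij, hz⟩ := hall y hy
    exact latM C C' (hWV hy) hyV hbij hz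
  obtain ⟨W', m, hWo', hq0, hWW, hdet, hper⟩ := mloc
    (κ := fun y => chartAt F b₀' ((chartAt F b₀).symm y)) (tc_lat C') hWo hκ.continuousOn
    hA.continuousOn (fun j => (C.lam_hol j).continuousOn.mono hWV)
    (fun y hy => (hall y hy).1) hm hqW
  refine ⟨W', A, c, m, ⟨hWo', fun y hy => hWV (hWW hy), hκ.mono hWW, hA.mono hWW, hc.mono hWW, hdet,
    fun y hy => (hall y (hWW hy)).1, fun y hy => (hall y (hWW hy)).2.1, hper⟩, hq0,
    Prod.ext h1 h2, fun p hp => (hall p.1 (hWW hp)).2.2 p.2⟩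

theorem avg_glob (C : TorusChart E F π k b₀) (C' : TorusChart E F π k b₀') (b : Form E X)
    {q q' : F × (Fin k → ℂ)} (hq : q.1 ∈ C.V) (hq' : q'.1 ∈ C'.V) (h : C.Φ q = C'.Φ q') :
    ∃ (B' : F →L[ℝ] (Fin k → ℂ)) (A' : (Fin k → ℂ) →L[ℝ] (Fin k → ℂ))
      (L : F × (Fin k → ℂ) →L[ℝ] F × (Fin k → ℂ)),
      Function.Bijective A' ∧ Function.Bijective L ∧
      (∀ (u : F) (ξ : Fin k → ℂ), L (u, ξ) =
        (fderiv ℝ (fun y => chartAt F b₀' ((chartAt F b₀).symm y)) q.1 u, B' u + A' ξ)) ∧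
      dvec E C.Φ q = (dvec E C'.Φ q').comp L ∧
      avg C.lam (tpb b.val C.Φ) q =
        (avg C'.lam (tpb b.val C'.Φ) q').bilinearComp L L := by
  obtain ⟨W, A, c, m, hT, hqW, haff, hΦ⟩ := trans C C' hq hq' h
  generalize hψ : aff (fun y => chartAt F b₀' ((chartAt F b₀).symm y)) A c = ψ at haff hΦ
  have hev : ∀ p : F × (Fin k → ℂ), p.1 ∈ W → C.Φ =ᶠ[𝓝 p] C'.Φ ∘ ψ := by
    intro p hp
    have hW : ∀ᶠ r : F × (Fin k → ℂ) in 𝓝 p, r.1 ∈ W :=
      continuous_fst.continuousAt.eventually (hT.isOpen.mem_nhds hp)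
    filter_upwards [hW] with r hr
    exact hΦ r hr
  have hd : ∀ p : F × (Fin k → ℂ), p.1 ∈ W → DifferentiableAt ℝ ψ p := by
    intro p hp
    rw [← hψ]
    exact ((aff_smooth hT hp).restrict_scalars ℝ).differentiableAt (by simp)
  have hV' : ∀ p : F × (Fin k → ℂ), p.1 ∈ W → (ψ p).1 ∈ C'.V := by
    intro p hp
    rw [← hψ]
    exact hT.maps _ hp
  have h1 : ∀ p : F × (Fin k → ℂ), p.1 ∈ W →
      tpb b.val C.Φ p = pb (tpb b.val C'.Φ) ψ p := by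
    intro p hp
    rw [tpb_congr' b.val (hev p hp)]
    exact tpb_comp b.val (tc_hol C' (hV' p hp)).sm (hd p hp)
  have h2 : avg C.lam (tpb b.val C.Φ) q = pb (avg C'.lam (tpb b.val C'.Φ)) ψ q := by
    rw [avg_congr h1 hqW, ← hψ]
    exact avg_trans (tc_lat C) (tc_lat C') hT (tc_form C' b) (tc_per C' b.val) hqW
  have h3 : dvec E C.Φ q = (dvec E C'.Φ q').comp (fderiv ℝ ψ q) := by
    rw [dvec_congr' (hev q hqW), dvec_comp (tc_hol C' (hV' q hqW)).sm (hd q hqW), haff]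
  obtain ⟨B', hB'⟩ := fderiv_aff hT hqW
  rw [hψ] at hB'
  have hb1 := tc_bij C hq
  have hb2 := tc_bij C' hq'
  refine ⟨B', (A q.1).restrictScalars ℝ, fderiv ℝ ψ q, hT.bij _ hqW, ⟨?_, ?_⟩, hB', h3, ?_⟩
  · intro u v huv
    apply hb1.1
    rw [h3]
    show dvec E C'.Φ q' (fderiv ℝ ψ q u) = dvec E C'.Φ q' (fderiv ℝ ψ q v)
    rw [huv]
  · intro w
    obtain ⟨u, hu⟩ := hb1.2 (dvec E C'.Φ q' w)
    rw [h3] at hu
    exact ⟨u, hb2.1 hu⟩
  · rw [h2]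
    unfold pb
    rw [haff]

end Pool.Agent.FBT
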